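import Pool.Agent.W535.MG.Metric

/-!
The net of an adapted metric.
-/

namespace Pool.Agent.W535.MG

open Filter Topology Set

section asm

variable {M : PMet 34} (hM : Adapted M)
include hM

lemma gam_dist (k : KK) {r r' : ℝ} (h : r ≤ r') :
    riemDist M.G (gam k r) (gam k r') ≤ uu aa k.2.2 (gam k r') - uu aa k.2.2 (gam k r) := by
  have hg : ContDiff ℝ 1 (gam k) := (gam_contDiff k).of_le (by simp)
  have harc := HasPL.arc (G := M.G) (gam k) r r' h hg (fun t _ => gam_mem k t)
  refine (M.dist_le harc).trans ?_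
  have hd : ∀ t ∈ uIcc r r', HasDerivAt (fun r => uu aa k.2.2 (gam k r))
      (fderiv ℝ (uu aa k.2.2) (gam k t) (deriv (gam k) t)) t :=
    fun t _ => gam_hasDerivAt_uu k k.2.2 t
  have hcont : Continuous fun t => fderiv ℝ (uu aa k.2.2) (gam k t) (deriv (gam k) t) :=
    (((uu_aa_contDiff k.2.2).continuous_fderiv (by simp)).comp hg.continuous).clm_apply
      (hg.continuous_deriv le_rfl)
  rw [← intervalIntegral.integral_eq_sub_of_hasDerivAt hd (hcont.intervalIntegrable r r')]
  apply intervalIntegral.integral_mono_on h ((M.speed_cont hg).intervalIntegrable r r')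
    (hcont.intervalIntegrable r r')
  intro t _
  have h1 := hM.curve k t
  calc √(M.G (gam k t) (deriv (gam k) t) (deriv (gam k) t))
      ≤ √((fderiv ℝ (uu aa k.2.2) (gam k t) (deriv (gam k) t)) ^ 2) := Real.sqrt_le_sqrt h1
    _ = _ := Real.sqrt_sq (gam_du_pos k t).le

lemma lin_dist_le (i : Fin 2) {x y : ℝ} (m : ℤ) (h : x ≤ y) :
    riemDist M.G (lin i x m) (lin i y m) ≤ y - x := by
  have hd : ∀ t, HasDerivAt (fun t => lin i t m) (Pi.single i 1, 0) t := by
    intro t
    apply HasDerivAt.prodMk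
    · rw [hasDerivAt_pi]
      intro l
      by_cases hl : l = i
      · subst hl
        simp only [if_true, Pi.single_eq_same]
        exact hasDerivAt_id t
      · simp only [hl, if_false, Pi.single_apply]
        exact hasDerivAt_const t _
    · exact hasDerivAt_const t _
  have hc : ContDiff ℝ 1 fun t => lin i t m := by
    apply ContDiff.prodMk
    · rw [contDiff_pi]
      intro l
      by_cases hl : l = i
      · simp only [hl, if_true]
        exact contDiff_id
      · simp only [hl, if_false]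
        exact contDiff_const
    · exact contDiff_const
  have harc := HasPL.arc (G := M.G) (fun t => lin i t m) x y h hc (fun t _ => lin_mem i t m)
  refine (M.dist_le harc).trans ?_
  have hb : ∀ t ∈ Icc x y, √(M.G (lin i t m) (deriv (fun t => lin i t m) t)
      (deriv (fun t => lin i t m) t)) ≤ 1 := by
    intro t _
    rw [(hd t).deriv]
    rw [Real.sqrt_le_iff, one_pow]
    exact ⟨zero_le_one, hM.line i t m⟩
  have := intervalIntegral.integral_mono_on h ((M.speed_cont hc).intervalIntegrable x y)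
    (continuous_const.intervalIntegrable (μ := MeasureTheory.volume) x y) hb
  simpa using this

lemma lin_dist (i : Fin 2) (x y : ℝ) (m : ℤ) :
    riemDist M.G (lin i x m) (lin i y m) ≤ |x - y| := by
  rcases le_total x y with h | h
  · rw [abs_sub_comm, abs_of_nonneg (by linarith)]
    exact lin_dist_le hM i m h
  · rw [M.dist_comm, abs_of_nonneg (by linarith)]
    exact lin_dist_le hM i m h

omit hM in
/-- ends of half curves are asymptotic to lines -/
lemma end_dist {β : ℝ → Y 34} {i : Fin 2} {τ : Sg} {g : Fin 2 → ℤ} (h : HC β i τ g)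
    (hm : ∀ r, β r ∈ Cover 34) (ε : ℝ) (hε : 0 < ε) : ∃ R : ℝ, ∀ r ≤ -R,
      riemDist M.G (β r) (lin i (sg (τ i) * (r - 1 / 2) + g i) (g (i + 1))) ≤ ε := by
  obtain ⟨C, hC0, hC⟩ := XX.exists_dist_le (M := M)
  obtain ⟨x, _, hx⟩ := h.axis
  have hδ : 0 < min (1 / 5) (ε / C) := by positivity
  obtain ⟨R, hR⟩ := eventually_atBot.1
    ((tendsto_end i x).eventually (Metric.ball_mem_nhds _ hδ))
  refine ⟨max (-R) 1, fun r hr => ?_⟩
  have hr1 : r ≤ R := by linarith [le_max_left (-R) 1]
  have hr2 : r ≤ -1 := by linarith [le_max_right (-R) 1]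
  have h1 := hR r hr1
  rw [dist_eq_norm] at h1
  have h2 : lin i (sg (τ i) * (r - 1 / 2) + g i) (g (i + 1)) - β r
      = (0, eb (Sum.inl i) - nrm (wv i x (Real.exp r))) := by
    apply Prod.ext
    · funext l
      rcases eq_or_eq_add_one i l with hl | hl
      · simp only [Prod.fst_sub, Pi.sub_apply, lin, hl, if_true, h.zi r (by linarith)]
        simp
      · simp only [Prod.fst_sub, Pi.sub_apply, lin, hl, add_one_ne, if_false,
          h.zj r (by linarith), EE_zero (show r ≤ -(1 / 2) by linarith)]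
        simp
    · simp only [Prod.snd_sub, lin]
      rw [hx r (by linarith)]
  have h3 : ‖lin i (sg (τ i) * (r - 1 / 2) + g i) (g (i + 1)) - β r‖ < min (1 / 5) (ε / C) := by
    rw [h2, Prod.norm_def, norm_zero, max_eq_right (norm_nonneg _), norm_sub_rev]
    exact h1
  have h4 := hC (XX.mk (β r) (hm r)) (XX.mk _ (lin_mem i (sg (τ i) * (r - 1 / 2) + g i) (g (i + 1))))
    (h3.le.trans (min_le_left _ _))
  rw [XX.dist_def] at h4
  simp only [XX.val_mk] at h4
  refine h4.trans ?_
  calc C * _ ≤ C * (ε / C) := by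
        apply mul_le_mul_of_nonneg_left (h3.le.trans (min_le_right _ _)) hC0.le
    _ = ε := by field_simp

omit hM in
lemma dist_bdd : ∃ C : ℝ, 0 < C ∧ ∀ x y : XX M, (∀ i, |y.val.1 i - x.val.1 i| ≤ 1) →
    dist x y ≤ C := by
  obtain ⟨C, hC0, hC⟩ := M.exists_path (0 : Fin 34) 1 XX.zero_ne_one34
  refine ⟨C * 9, by positivity, fun x y h => ?_⟩
  obtain ⟨L, hL, hL'⟩ := hC x.val x.mem y.val y.mem
  rw [XX.dist_def]
  refine (M.dist_le hL').trans (hL.trans ?_)
  have : ‖y.val.1 - x.val.1‖ ≤ 1 := by
    rw [pi_norm_le_iff_of_nonneg zero_le_one]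
    exact h
  apply mul_le_mul_of_nonneg_left _ hC0.le
  linarith

omit hM in
lemma aa_lin_same (i : Fin 2) (x : ℝ) (m : ℤ) : aa i (lin i x m) = x := by
  have := (lin_aa_eq i x m).self_of_nhds.1
  rw [this]; simp [lin]

omit hM in
lemma aa_lin_other (i : Fin 2) (x : ℝ) (m : ℤ) : aa (i + 1) (lin i x m) = m :=
  (lin_aa_eq i x m).self_of_nhds.2

/-- the net of an adapted metric -/
noncomputable def theNet : Net (XX M) where
  act g x := XX.mk (x.val + lat g) ((cover_add_lat g).2 x.mem)
  act_dist g x y := M.dist_translate g _ _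
  act_act g h x := by
    apply XX.ext
    simp only [XX.val_mk]
    rw [add_assoc, ← lat_add, add_comm h g]
  act_zero x := by
    apply XX.ext
    simp only [XX.val_mk]
    rw [lat_zero, add_zero]
  a l x := aa l x.val
  a_act i g x := aa_add_lat i x.val g
  lip σ x y := uu_lip_XX hM σ x y
  cocpt := by
    obtain ⟨C, hC0, hC⟩ := dist_bdd (M := M)
    refine ⟨XX.mk (lin 0 0 0) (lin_mem _ _ _), C, fun x => ?_⟩
    obtain ⟨g, hg⟩ := PMet.exists_trans x.val
    refine ⟨g, hC _ _ fun i => ?_⟩
    have := hg i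
    simp only [XX.val_mk]
    rw [abs_sub_comm]
    have e : (lin 0 0 0).1 i = 0 := by
      simp [lin]
    rw [e, sub_zero]
    exact this
  A i x m := XX.mk (lin i x m) (lin_mem i x m)
  A_dist i x y m := lin_dist hM i x y m
  a_same i x m := aa_lin_same i x m
  a_other i x m := aa_lin_other i x m
  act_A g i x m := by
    apply XX.ext
    exact lin_add_lat i x m g
  coarse := by
    obtain ⟨C, hC0, hC⟩ := dist_bdd (M := M)
    refine ⟨3 * C + 4, fun x y => ?_⟩
    set m := round (x.val.1 1) with hm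
    set n := round (y.val.1 0) with hn
    have hm1 : |x.val.1 1 - m| ≤ 1 := (abs_sub_round _).trans (by norm_num)
    have hn1 : |y.val.1 0 - n| ≤ 1 := (abs_sub_round _).trans (by norm_num)
    let p1 : XX M := XX.mk (lin 0 (x.val.1 0) m) (lin_mem _ _ _)
    let p2 : XX M := XX.mk (lin 0 (y.val.1 0) m) (lin_mem _ _ _)
    let p3 : XX M := XX.mk (lin 1 (x.val.1 1) n) (lin_mem _ _ _)
    let p4 : XX M := XX.mk (lin 1 (y.val.1 1) n) (lin_mem _ _ _)
    have c1 : dist x p1 ≤ C := hC _ _ fun i => by
      fin_cases i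
      · simp [p1, lin]
      · simp only [p1, lin, XX.val_mk, Fin.mk_one, one_ne_zero, if_false]
        rw [abs_sub_comm]; exact hm1
    have c2 : dist p1 p2 ≤ |x.val.1 0 - y.val.1 0| := lin_dist hM 0 _ _ m
    have c3 : dist p2 p3 ≤ C := hC _ _ fun i => by
      fin_cases i
      · simp only [p2, p3, lin, XX.val_mk, Fin.zero_eta, if_true, zero_ne_one, if_false]
        rw [abs_sub_comm]; exact hn1
      · simp only [p2, p3, lin, XX.val_mk, Fin.mk_one, one_ne_zero, if_true, if_false]
        exact hm1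
    have c4 : dist p3 p4 ≤ |x.val.1 1 - y.val.1 1| := lin_dist hM 1 _ _ n
    have c5 : dist p4 y ≤ C := hC _ _ fun i => by
      fin_cases i
      · simp only [p4, lin, XX.val_mk, Fin.zero_eta, zero_ne_one, if_false]
        exact hn1
      · simp [p4, lin]
    have t1 := dist_triangle x p1 y
    have t2 := dist_triangle p1 p2 y
    have t3 := dist_triangle p2 p3 y
    have t4 := dist_triangle p3 p4 y
    have hz : ∀ l, |x.val.1 l - y.val.1 l| ≤ |aa l x.val - aa l y.val| + 2 := by
      intro l
      have h1 := abs_aa_sub l x.val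
      have h2 := abs_aa_sub l y.val
      have e : x.val.1 l - y.val.1 l = (aa l x.val - aa l y.val) - (aa l x.val - x.val.1 l)
        + (aa l y.val - y.val.1 l) := by ring
      rw [e]
      have h3 := abs_add_le ((aa l x.val - aa l y.val) - (aa l x.val - x.val.1 l))
        (aa l y.val - y.val.1 l)
      have h4 := abs_sub (aa l x.val - aa l y.val) (aa l x.val - x.val.1 l)
      linarith
    have h0 := hz 0
    have h1 := hz 1
    linarith
  γ k r := XX.mk (gam k r) (gam_mem k r)
  U_mono k := gam_U_mono k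
  γ_dist k r r' h := gam_dist hM k h
  start b i σ ε hε := by
    obtain ⟨R, hR⟩ := end_dist (M := M) (HC_first (b, i, σ) 0)
      (fun r => (cover_add_lat 0).2 (gam_mem _ r)) ε hε
    refine ⟨R, fun r hr => ?_⟩
    have := hR r hr
    simp only [lat_zero, add_zero, Pi.zero_apply, Int.cast_zero] at this
    exact this
  stopJ i σ ε hε := by
    obtain ⟨R, hR⟩ := end_dist (M := M) (HC_second (false, i, σ) 0)
      (fun r => (cover_add_lat 0).2 (gam_mem _ (-r))) ε hε
    refine ⟨R, fun r hr => ?_⟩
    have := hR (-r) (by linarith)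
    simp only [lat_zero, add_zero, neg_neg, zero_add, l2, off, Bool.false_eq_true, if_false,
      if_true, add_one_ne, Pi.neg_apply, sg_neg] at this
    have e : -sg (σ i) * (-r - 1 / 2) + ((-(σ i : ℤ) : ℤ) : ℝ) = sg (σ i) * (r - 1 / 2) := by
      push_cast
      simp only [sg]
      ring
    rw [e] at this
    exact this
  stopT i σ ε hε := by
    obtain ⟨R, hR⟩ := end_dist (M := M) (HC_second (true, i, σ) 0)
      (fun r => (cover_add_lat 0).2 (gam_mem _ (-r))) ε hε
    refine ⟨R, fun r hr => ?_⟩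
    have := hR (-r) (by linarith)
    simp only [lat_zero, add_zero, neg_neg, zero_add, l2, off, if_true, Pi.neg_apply, sg_neg,
      Int.cast_zero] at this
    have e : -sg (σ (i + 1)) * (-r - 1 / 2) = sg (σ (i + 1)) * (r + 1 / 2) := by ring
    rw [e] at this
    exact this
  rigid c σ hc hu := by
    rcases rigid_XX hM hc σ hu with ⟨i, m, h⟩ | ⟨k, g, h⟩
    · left
      refine ⟨i, m, fun t => ?_⟩
      obtain ⟨x, hx⟩ := h t
      exact ⟨x, XX.ext hx⟩
    · right
      refine ⟨k, g, fun t => ?_⟩
      obtain ⟨r, hr⟩ := h t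
      exact ⟨r, XX.ext hr⟩

end asm

/-- The final classification in terms of the ambient space. -/
theorem exists_finite_minimal : ∃ (M : PMet 34) (N : ℕ) (C : Fin N → ℝ → Y 34),
    ∀ c : ℝ → Y 34, (∀ t, c t ∈ Cover 34) → (∀ s t, riemDist M.G (c s) (c t) = |s - t|) →
      ∃ (j : Fin N) (g : Fin 2 → ℤ) (e : ℝ) (b : ℝ), (e = 1 ∨ e = -1) ∧
        ∀ t, c t = C j (e * t + b) + lat g := by
  obtain ⟨M, hM⟩ := exists_adapted
  let ι := Fin 2 ⊕ KK
  let eqv : ι ≃ Fin (Fintype.card ι) := Fintype.equivFin ι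
  refine ⟨M, Fintype.card ι, fun j t => ((theNet hM).model (eqv.symm j) t).val, ?_⟩
  intro c hc1 hc2
  have hiso : Isometry (fun t => (XX.mk (c t) (hc1 t) : XX M)) := by
    apply Isometry.of_dist_eq
    intro s t
    rw [XX.dist_def, Real.dist_eq]
    exact hc2 s t
  obtain ⟨j, g, e, b, h⟩ := (theNet hM).finitely_many hiso
  refine ⟨eqv j, g, sg e, b, ?_, fun t => ?_⟩
  · rcases Int.units_eq_one_or e with h | h
    · left; simp [sg, h]
    · right; simp [sg, h]
  · have := congrArg XX.val (h t)
    simp only [XX.val_mk] at this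
    rw [this]
    simp only [Equiv.symm_apply_apply]
    rfl

end Pool.Agent.W535.MG
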