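import Pool.Agent.W535.MG.Local

/-!
The calibrating coordinates `a_l`.
-/

namespace Pool.Agent.W535.MG

open Filter Topology Set

/-- calibrating coordinates -/
noncomputable def aa (l : Fin 2) (p : Y 34) : ℝ :=
  p.1 l + thet (p.2 (lab (Sum.inl (l + 1)))) * (SS (p.1 l) - p.1 l)

lemma aa_contDiff (l : Fin 2) : ContDiff ℝ (⊤ : ℕ∞) (aa l) := by
  unfold aa
  have h1 : ContDiff ℝ (⊤ : ℕ∞) fun p : Y 34 => p.1 l := by fun_prop
  have h2 : ContDiff ℝ (⊤ : ℕ∞) fun p : Y 34 => p.2 (lab (Sum.inl (l + 1))) := by fun_prop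
  exact h1.add ((thet_contDiff.comp h2).mul ((SS_contDiff.comp h1).sub h1))

lemma aa_add_lat (l : Fin 2) (p : Y 34) (g : Fin 2 → ℤ) : aa l (p + lat g) = aa l p + g l := by
  simp only [aa, lat, Prod.fst_add, Prod.snd_add, Pi.add_apply, Pi.zero_apply, add_zero,
    SS_add_int]
  ring

lemma abs_aa_sub (l : Fin 2) (p : Y 34) : |aa l p - p.1 l| ≤ 1 := by
  have e : aa l p - p.1 l = thet (p.2 (lab (Sum.inl (l + 1)))) * (SS (p.1 l) - p.1 l) := by
    unfold aa; ring
  rw [e, abs_mul]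
  have h1 := thet_mem (p.2 (lab (Sum.inl (l + 1))))
  rw [abs_of_nonneg h1.1]
  calc _ ≤ 1 * 1 := mul_le_mul h1.2 (abs_SS_sub _) (abs_nonneg _) zero_le_one
    _ = 1 := one_mul 1

lemma uu_aa_contDiff (σ : Sg) : ContDiff ℝ (⊤ : ℕ∞) (uu aa σ) := by
  unfold uu
  apply ContDiff.sum
  intro i _
  exact contDiff_const.mul (aa_contDiff i)

lemma uu_aa_add_lat (σ : Sg) (p : Y 34) (g : Fin 2 → ℤ) :
    uu aa σ (p + lat g) = uu aa σ p + ∑ i, sg (σ i) * g i := by
  simp only [uu, aa_add_lat, ← Finset.sum_add_distrib]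
  refine Finset.sum_congr rfl fun i _ => by ring

lemma aa_of_thet_zero {l : Fin 2} {p : Y 34} (h : p.2 (lab (Sum.inl (l + 1))) ≤ 1 / 2) :
    aa l p = p.1 l := by
  unfold aa; rw [thet_zero h]; ring

lemma aa_of_thet_one {l : Fin 2} {p : Y 34} (h : 3 / 5 ≤ p.2 (lab (Sum.inl (l + 1)))) :
    aa l p = SS (p.1 l) := by
  unfold aa; rw [thet_one h]; ring

lemma aa_of_id {l : Fin 2} {p : Y 34} (h : SS (p.1 l) = p.1 l) : aa l p = p.1 l := by
  unfold aa; rw [h]; ring

/-- local form of the coordinates along a half curve -/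
lemma HC.aa_eq {β : ℝ → Y 34} {i : Fin 2} {τ : Sg} {g : Fin 2 → ℤ} (h : HC β i τ g) {r₀ : ℝ}
    (hr : r₀ < 1 / 8) : ∀ᶠ p in 𝓝 (β r₀), aa i p = p.1 i ∧ aa (i + 1) p = SS (p.1 (i + 1)) := by
  rcases le_or_gt r₀ (-(1 / 16)) with h1 | h1
  · obtain ⟨x, _, hx⟩ := h.axis
    have e1 : ∀ᶠ p : Y 34 in 𝓝 (β r₀), p.2 (lab (Sum.inl (i + 1))) < 1 / 2 := by
      apply ((coord_cont (lab (Sum.inl (i + 1)))).tendsto _).eventually_lt_const
      rw [hx r₀ h1, nrm_wv_inl_ne]
      norm_num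
    have e2 : ∀ᶠ p : Y 34 in 𝓝 (β r₀), 3 / 5 < p.2 (lab (Sum.inl i)) := by
      apply ((coord_cont (lab (Sum.inl i))).tendsto _).eventually_const_lt
      rw [hx r₀ h1]
      exact nrm_wv_inl_gt i x (Real.exp_pos _).le (Real.exp_le_one_iff.2 (by linarith))
    filter_upwards [e1, e2] with p h1 h2
    refine ⟨aa_of_thet_zero h1.le, aa_of_thet_one ?_⟩
    rw [add_one_add_one]
    exact h2.le
  · -- both coordinates are in the linear zone
    have key : ∀ (l : Fin 2) (n : ℤ), 3 / 8 < |(β r₀).1 l - n| → |(β r₀).1 l - n| < 5 / 8 →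
        ∀ᶠ p : Y 34 in 𝓝 (β r₀), SS (p.1 l) = p.1 l := by
      intro l n a1 a2
      have hc : Continuous fun p : Y 34 => |p.1 l - n| := by fun_prop
      filter_upwards [(hc.tendsto (β r₀)).eventually_lt_const a2,
        (hc.tendsto (β r₀)).eventually_const_lt a1] with p b1 b2
      exact SS_id b2.le b1.le
    have k1 := key i (g i) (by
      rw [h.zi r₀ (by linarith), add_sub_cancel_right, abs_mul, abs_sg, one_mul,
        abs_of_nonpos (by linarith)]
      linarith) (by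
      rw [h.zi r₀ (by linarith), add_sub_cancel_right, abs_mul, abs_sg, one_mul,
        abs_of_nonpos (by linarith)]
      linarith)
    have k2 := key (i + 1) (g (i + 1)) (by
      rw [h.zj r₀ (by linarith), add_sub_cancel_right, abs_mul, abs_sg, one_mul,
        EE_lin (by linarith), abs_of_nonneg (by linarith)]
      linarith) (by
      rw [h.zj r₀ (by linarith), add_sub_cancel_right, abs_mul, abs_sg, one_mul,
        EE_lin (by linarith), abs_of_nonneg (by linarith)]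
      linarith)
    filter_upwards [k1, k2] with p b1 b2
    exact ⟨aa_of_id b1, by rw [aa_of_id b2, b2]⟩

/-- local form of the coordinates along a line -/
lemma lin_aa_eq (i : Fin 2) (x : ℝ) (m : ℤ) :
    ∀ᶠ p in 𝓝 (lin i x m), aa i p = p.1 i ∧ aa (i + 1) p = m := by
  have e1 : ∀ᶠ p : Y 34 in 𝓝 (lin i x m), p.2 (lab (Sum.inl (i + 1))) < 1 / 2 := by
    apply ((coord_cont (lab (Sum.inl (i + 1)))).tendsto _).eventually_lt_const
    simp only [lin]
    rw [eb_ne (by simp)]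
    norm_num
  have e2 : ∀ᶠ p : Y 34 in 𝓝 (lin i x m), 3 / 5 < p.2 (lab (Sum.inl i)) := by
    apply ((coord_cont (lab (Sum.inl i))).tendsto _).eventually_const_lt
    simp only [lin, eb_same]
    norm_num
  have e3 : ∀ᶠ p : Y 34 in 𝓝 (lin i x m), |p.1 (i + 1) - m| < 1 / 8 := by
    have hc : Continuous fun p : Y 34 => |p.1 (i + 1) - m| := by fun_prop
    apply (hc.tendsto _).eventually_lt_const
    simp [lin]
  filter_upwards [e1, e2, e3] with p h1 h2 h3
  refine ⟨aa_of_thet_zero h1.le, ?_⟩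
  rw [aa_of_thet_one (by rw [add_one_add_one]; exact h2.le), SS_flat h3.le]

/-- coordinate covectors -/
noncomputable def e1 (i : Fin 2) : Y 34 →L[ℝ] ℝ :=
  (ContinuousLinearMap.proj i).comp (ContinuousLinearMap.fst ℝ _ _)

/-- coordinate covectors -/
noncomputable def e2 (a : Fin 34) : Y 34 →L[ℝ] ℝ :=
  (ContinuousLinearMap.proj a).comp (ContinuousLinearMap.snd ℝ _ _)

@[simp] lemma e1_apply (i : Fin 2) (v : Y 34) : e1 i v = v.1 i := rfl

@[simp] lemma e2_apply (a : Fin 34) (v : Y 34) : e2 a v = v.2 a := rfl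

lemma fderiv_near_HC {β : ℝ → Y 34} {i : Fin 2} {τ : Sg} {g : Fin 2 → ℤ} (h : HC β i τ g)
    {r₀ : ℝ} (hr : r₀ < 1 / 8) : ∀ᶠ p in 𝓝 (β r₀), ∀ (σ : Sg) (v : Y 34),
      fderiv ℝ (uu aa σ) p v
        = sg (σ i) * v.1 i + sg (σ (i + 1)) * (deriv SS (p.1 (i + 1)) * v.1 (i + 1)) := by
  filter_upwards [(h.aa_eq hr).eventually_nhds] with p hp σ v
  have e : uu aa σ =ᶠ[𝓝 p] fun q => sg (σ i) * e1 i q + sg (σ (i + 1)) * SS (e1 (i + 1) q) := by
    filter_upwards [hp] with q hq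
    rw [uu_eq aa σ q i, hq.1, hq.2]
    rfl
  rw [e.fderiv_eq]
  have h1 : HasFDerivAt (fun q : Y 34 => e1 i q) (e1 i) p := (e1 i).hasFDerivAt
  have h2 : HasFDerivAt (fun q : Y 34 => e1 (i + 1) q) (e1 (i + 1)) p := (e1 (i + 1)).hasFDerivAt
  have h3 : HasDerivAt SS (deriv SS (p.1 (i + 1))) (e1 (i + 1) p) :=
    (SS_contDiff.differentiable (by simp) _).hasDerivAt
  have h4 : HasFDerivAt (fun q : Y 34 => SS (e1 (i + 1) q))
      (deriv SS (p.1 (i + 1)) • e1 (i + 1)) p := h3.comp_hasFDerivAt p h2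
  have h5 := (h1.const_mul (sg (σ i))).add (h4.const_mul (sg (σ (i + 1))))
  have h6 := h5.fderiv
  have h7 : fderiv ℝ (fun q => sg (σ i) * e1 i q + sg (σ (i + 1)) * SS (e1 (i + 1) q)) p
      = sg (σ i) • e1 i + sg (σ (i + 1)) • deriv SS (p.1 (i + 1)) • e1 (i + 1) := h6
  rw [h7]
  simp

lemma fderiv_near_lin (i : Fin 2) (x : ℝ) (m : ℤ) : ∀ᶠ p in 𝓝 (lin i x m), ∀ (σ : Sg) (v : Y 34),
      fderiv ℝ (uu aa σ) p v = sg (σ i) * v.1 i := by
  filter_upwards [(lin_aa_eq i x m).eventually_nhds] with p hp σ v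
  have e : uu aa σ =ᶠ[𝓝 p] fun q => sg (σ i) * e1 i q + sg (σ (i + 1)) * m := by
    filter_upwards [hp] with q hq
    rw [uu_eq aa σ q i, hq.1, hq.2]
    rfl
  rw [e.fderiv_eq]
  have h1 : HasFDerivAt (fun q : Y 34 => e1 i q) (e1 i) p := (e1 i).hasFDerivAt
  have h5 := (h1.const_mul (sg (σ i))).add_const (sg (σ (i + 1)) * m)
  have h6 := h5.fderiv
  have h7 : fderiv ℝ (fun q => sg (σ i) * e1 i q + sg (σ (i + 1)) * m) p
      = sg (σ i) • e1 i := h6
  rw [h7]
  simp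

/-- derivative of the half curve -/
lemma HC.deriv_i {β : ℝ → Y 34} {i : Fin 2} {τ : Sg} {g : Fin 2 → ℤ} (h : HC β i τ g) {r : ℝ}
    (hr : r < 1 / 4) : (deriv β r).1 i = sg (τ i) := by
  have h1 : HasDerivAt β (deriv β r) r := (h.smooth.differentiable (by simp) r).hasDerivAt
  have h2 : HasDerivAt (fun r => e1 i (β r)) (e1 i (deriv β r)) r :=
    (e1 i).hasFDerivAt.comp_hasDerivAt r h1
  have h3 : (fun r => e1 i (β r)) =ᶠ[𝓝 r] fun r => sg (τ i) * (r - 1 / 2) + g i := by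
    filter_upwards [Iio_mem_nhds hr] with s hs
    exact h.zi s (le_of_lt hs)
  have h4 : HasDerivAt (fun r => sg (τ i) * (r - 1 / 2) + g i) (sg (τ i) * 1) r :=
    (((hasDerivAt_id r).sub_const (1 / 2)).const_mul (sg (τ i))).add_const _
  have h5 := (h2.congr_of_eventuallyEq h3.symm).unique h4
  simpa using h5

lemma HC.deriv_j {β : ℝ → Y 34} {i : Fin 2} {τ : Sg} {g : Fin 2 → ℤ} (h : HC β i τ g) {r : ℝ}
    (hr : r < 1 / 4) : (deriv β r).1 (i + 1) = sg (τ (i + 1)) * deriv EE r := by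
  have h1 : HasDerivAt β (deriv β r) r := (h.smooth.differentiable (by simp) r).hasDerivAt
  have h2 : HasDerivAt (fun r => e1 (i + 1) (β r)) (e1 (i + 1) (deriv β r)) r :=
    (e1 (i + 1)).hasFDerivAt.comp_hasDerivAt r h1
  have h3 : (fun r => e1 (i + 1) (β r)) =ᶠ[𝓝 r]
      fun r => sg (τ (i + 1)) * EE r + g (i + 1) := by
    filter_upwards [Iio_mem_nhds hr] with s hs
    exact h.zj s (le_of_lt hs)
  have h4 : HasDerivAt (fun r => sg (τ (i + 1)) * EE r + g (i + 1))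
      (sg (τ (i + 1)) * deriv EE r) r :=
    ((EE_contDiff.differentiable (by simp) r).hasDerivAt.const_mul _).add_const _
  exact (h2.congr_of_eventuallyEq h3.symm).unique h4

lemma HC.SSd {β : ℝ → Y 34} {i : Fin 2} {τ : Sg} {g : Fin 2 → ℤ} (h : HC β i τ g) {r : ℝ}
    (hr : r ≤ 1 / 4) : deriv SS ((β r).1 (i + 1)) = deriv SS (EE r) := by
  rw [h.zj r hr, SS_deriv_add_int]
  rcases Int.units_eq_one_or (τ (i + 1)) with h1 | h1
  · simp [sg, h1]
  · simp [sg, h1, SS_deriv_neg]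

/-- speed of the calibration along a half curve -/
lemma HC.du {β : ℝ → Y 34} {i : Fin 2} {τ : Sg} {g : Fin 2 → ℤ} (h : HC β i τ g) {r : ℝ}
    (hr : r < 1 / 8) :
    fderiv ℝ (uu aa τ) (β r) (deriv β r) = 1 + deriv SS (EE r) * deriv EE r := by
  rw [(fderiv_near_HC h hr).self_of_nhds τ (deriv β r), h.deriv_i (by linarith),
    h.deriv_j (by linarith), h.SSd (by linarith), sg_mul_self]
  have : sg (τ (i + 1)) * (deriv SS (EE r) * (sg (τ (i + 1)) * deriv EE r))
      = (sg (τ (i + 1)) * sg (τ (i + 1))) * (deriv SS (EE r) * deriv EE r) := by ring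
  rw [this, sg_mul_self, one_mul]

lemma fderiv_uu_neg (σ : Sg) (p v : Y 34) :
    fderiv ℝ (uu aa (-σ)) p v = - fderiv ℝ (uu aa σ) p v := by
  have : uu aa (-σ) = fun q => - uu aa σ q := by
    funext q
    simp only [uu, Pi.neg_apply, sg_neg, neg_mul, Finset.sum_neg_distrib]
  rw [this, fderiv_fun_neg]
  rfl

lemma fderiv_uu_lat (σ : Sg) (g : Fin 2 → ℤ) (p : Y 34) :
    fderiv ℝ (uu aa σ) (p + lat g) = fderiv ℝ (uu aa σ) p := by
  have h1 : fderiv ℝ (fun q => uu aa σ (q + lat g)) p = fderiv ℝ (uu aa σ) (p + lat g) :=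
    fderiv_comp_add_right (lat g)
  rw [← h1]
  have h2 : (fun q => uu aa σ (q + lat g)) = fun q => uu aa σ q + ∑ i, sg (σ i) * g i := by
    funext q; exact uu_aa_add_lat σ q g
  rw [h2, fderiv_add_const]

/-- speed of the calibration along the curves -/
lemma gam_du_pos (k : KK) (r : ℝ) :
    0 < fderiv ℝ (uu aa k.2.2) (gam k r) (deriv (gam k) r) := by
  have hpos : ∀ s, 0 < 1 + deriv SS (EE s) * deriv EE s := by
    intro s
    have := mul_nonneg (SS_deriv_nonneg (EE s)) (EE_deriv_nonneg s)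
    linarith
  rcases lt_or_ge r (1 / 8) with h | h
  · have h1 := (HC_first k 0).du h
    have e : (fun r => gam k r + lat 0) = gam k := by
      funext s; rw [lat_zero, add_zero]
    simp only [lat_zero, add_zero] at h1
    rw [h1]
    exact hpos r
  · have h1 := (HC_second k 0).du (r := -r) (by linarith)
    have e : (fun r => gam k (-r) + lat 0) = fun r => gam k (-r) := by
      funext s; rw [lat_zero, add_zero]
    simp only [lat_zero, add_zero, neg_neg, fderiv_uu_neg] at h1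
    rw [deriv_comp_neg] at h1
    simp only [neg_neg, map_neg] at h1
    rw [h1]
    exact hpos _

lemma gam_hasDerivAt_uu (k : KK) (σ : Sg) (r : ℝ) :
    HasDerivAt (fun r => uu aa σ (gam k r)) (fderiv ℝ (uu aa σ) (gam k r) (deriv (gam k) r)) r := by
  have h1 : HasFDerivAt (uu aa σ) (fderiv ℝ (uu aa σ) (gam k r)) (gam k r) :=
    ((uu_aa_contDiff σ).differentiable (by simp) _).hasFDerivAt
  exact h1.comp_hasDerivAt r (((gam_contDiff k).differentiable (by simp) r).hasDerivAt)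

lemma gam_U_mono (k : KK) : StrictMono fun r => uu aa k.2.2 (gam k r) := by
  apply strictMono_of_deriv_pos
  intro r
  rw [(gam_hasDerivAt_uu k k.2.2 r).deriv]
  exact gam_du_pos k r

end Pool.Agent.W535.MG
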