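import Pool.Agent.W535.MG.Net

/-!
Classification of isometric lines in a net.
-/

namespace Pool.Agent.W535.MG

open Filter Topology

lemma sgn_cases (x : ℝ) : ∃ e : ℤˣ, sg e * x = |x| := by
  rcases le_total 0 x with h | h
  · exact ⟨1, by simp [sg, abs_of_nonneg h]⟩
  · exact ⟨-1, by simp [sg, abs_of_nonpos h]⟩

/-- isometries of the line -/
lemma isometry_real {V : ℝ → ℝ} (h : ∀ s t, |V s - V t| = |s - t|) :
    (∀ t, V t = V 0 + t) ∨ (∀ t, V t = V 0 - t) := by
  have h0 : ∀ t, V t = V 0 + t ∨ V t = V 0 - t := by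
    intro t
    have := h t 0
    rw [sub_zero] at this
    rcases abs_eq_abs.1 this with h | h
    · left; linarith
    · right; linarith
  rcases h0 1 with h1 | h1
  · left
    intro t
    rcases h0 t with h2 | h2
    · exact h2
    · have := h t 1
      rw [h1, h2] at this
      have e : V 0 - t - (V 0 + 1) = -(t + 1) := by ring
      rw [e, abs_neg] at this
      rcases abs_eq_abs.1 this with h3 | h3
      · linarith
      · have : t = 0 := by linarith
        rw [h2, this]; ring
  · right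
    intro t
    rcases h0 t with h2 | h2
    · have := h t 1
      rw [h1, h2] at this
      have e : V 0 + t - (V 0 - 1) = t + 1 := by ring
      rw [e] at this
      rcases abs_eq_abs.1 this with h3 | h3
      · linarith
      · have : t = 0 := by linarith
        rw [h2, this]; ring
    · exact h2

namespace Net

variable {X : Type*} [MetricSpace X] (N : Net X)

lemma uu_lip (σ : Sg) (x y : X) : |uu N.a σ x - uu N.a σ y| ≤ dist x y := by
  rw [abs_le]
  constructor
  · have := N.lip σ x y; linarith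
  · have := N.lip σ y x; rw [dist_comm] at this; linarith

lemma uu_cont (σ : Sg) : Continuous (uu N.a σ) := by
  have : LipschitzWith 1 (uu N.a σ) := by
    refine LipschitzWith.of_dist_le_mul fun x y => ?_
    rw [Real.dist_eq]
    simpa using N.uu_lip σ x y
  exact this.continuous

lemma a_lip (i : Fin 2) (x y : X) : |N.a i x - N.a i y| ≤ dist x y := by
  obtain ⟨e, he⟩ := sgn_cases (N.a i x - N.a i y)
  have h1 := N.uu_lip (fun l => if l = i then e else 1) x y
  have h2 := N.uu_lip (fun l => if l = i then e else -1) x y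
  rw [uu_eq N.a _ _ i, uu_eq N.a _ _ i] at h1 h2
  have hne := add_one_ne i
  simp only [if_true, hne, if_false, sg_neg] at h1 h2
  have h3 : sg (1 : ℤˣ) = 1 := by simp [sg]
  rw [h3] at h1 h2
  have h4 := le_abs_self (sg e * N.a i x + 1 * N.a (i + 1) x -
    (sg e * N.a i y + 1 * N.a (i + 1) y))
  have h5 := le_abs_self (sg e * N.a i x + -1 * N.a (i + 1) x -
    (sg e * N.a i y + -1 * N.a (i + 1) y))
  rw [← he]
  linarith

section line

variable {c : ℝ → X} (hc : Isometry c)
include hc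

lemma D_add (σ : Sg) {r s t : ℝ} (h1 : r ≤ s) (h2 : s ≤ t) :
    N.D σ (c r) (c t) = N.D σ (c r) (c s) + N.D σ (c s) (c t) := by
  unfold D
  simp only [hc.dist_eq, Real.dist_eq]
  rw [abs_of_nonpos (by linarith : r - t ≤ 0), abs_of_nonpos (by linarith : r - s ≤ 0),
    abs_of_nonpos (by linarith : s - t ≤ 0)]
  ring

lemma D_mono (σ : Sg) {s' s t t' : ℝ} (h1 : s' ≤ s) (h2 : s ≤ t) (h3 : t ≤ t') :
    N.D σ (c s) (c t) ≤ N.D σ (c s') (c t') := by
  rw [N.D_add hc σ (h1) (h2.trans h3), N.D_add hc σ h2 h3]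
  have := N.D_nonneg σ (c s') (c s)
  have := N.D_nonneg σ (c t) (c t')
  linarith

lemma exists_bdd : ∃ (σ : Sg) (C : ℝ), ∀ s t, s ≤ t → N.D σ (c s) (c t) ≤ C := by
  obtain ⟨C, hC⟩ := N.coarse
  have key : ∀ n : ℕ, ∃ σ : Sg, N.D σ (c (-n)) (c n) ≤ C := by
    intro n
    obtain ⟨e0, he0⟩ := sgn_cases (N.a 0 (c n) - N.a 0 (c (-n)))
    obtain ⟨e1, he1⟩ := sgn_cases (N.a 1 (c n) - N.a 1 (c (-n)))
    refine ⟨![e0, e1], ?_⟩
    have := hC (c n) (c (-n))
    rw [← he0, ← he1] at this
    unfold D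
    rw [dist_comm (c (-n))]
    simp only [uu, Fin.sum_univ_two, Matrix.cons_val_zero, Matrix.cons_val_one]
    linarith
  have key2 : ∃ σ : Sg, ∃ᶠ n : ℕ in atTop, N.D σ (c (-n)) (c n) ≤ C := by
    by_contra hcon
    push Not at hcon
    have : ∀ᶠ n : ℕ in atTop, ∀ σ : Sg, ¬ N.D σ (c (-n)) (c n) ≤ C := by
      rw [eventually_all]
      intro σ
      exact (hcon σ).mono fun n hn => not_le.2 hn
    obtain ⟨n, hn⟩ := this.exists
    obtain ⟨σ, hσ⟩ := key n
    exact hn σ hσ
  obtain ⟨σ, hσ⟩ := key2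
  refine ⟨σ, C, fun s t hst => ?_⟩
  obtain ⟨n, hn1, hn2⟩ := frequently_atTop.1 hσ ⌈max (|s|) (|t|)⌉₊
  have h1 : max |s| |t| ≤ n := (Nat.le_ceil _).trans (by exact_mod_cast hn1)
  have h2 : |s| ≤ n := (le_max_left _ _).trans h1
  have h3 : |t| ≤ n := (le_max_right _ _).trans h1
  refine (N.D_mono hc σ ?_ hst ?_).trans hn2
  · linarith [(abs_le.1 h2).1]
  · linarith [(abs_le.1 h3).2]

/-- limits of translates at `-∞` are calibrated lines -/
lemma limit_line [ProperSpace X] (σ : Sg) (C : ℝ)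
    (hC : ∀ s t, s ≤ t → N.D σ (c s) (c t) ≤ C) :
    ∃ (c' : ℝ → X) (g : ℕ → Fin 2 → ℤ), Isometry c' ∧
      (∀ s t, uu N.a σ (c' t) - uu N.a σ (c' s) = t - s) ∧
      ∀ t, Tendsto (fun n : ℕ => N.act (g n) (c (-n + t))) (hyperfilter ℕ : Filter ℕ)
        (𝓝 (c' t)) := by
  obtain ⟨x₀, R, hR⟩ := N.cocpt
  choose g hg using fun n : ℕ => hR (c (-n))
  have hball : ∀ t, ∃ y, Tendsto (fun n : ℕ => N.act (g n) (c (-n + t)))
      (hyperfilter ℕ : Filter ℕ) (𝓝 y) := by
    intro t
    have hK : IsCompact (Metric.closedBall x₀ (R + |t|)) := isCompact_closedBall _ _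
    have hmem : ∀ n : ℕ, N.act (g n) (c (-n + t)) ∈ Metric.closedBall x₀ (R + |t|) := by
      intro n
      rw [Metric.mem_closedBall]
      have h1 := hg n
      have h2 : dist (N.act (g n) (c (-n + t))) (N.act (g n) (c (-n))) = |t| := by
        rw [N.act_dist, hc.dist_eq, Real.dist_eq]
        congr 1; ring
      have := dist_triangle (N.act (g n) (c (-n + t))) (N.act (g n) (c (-n))) x₀
      linarith
    let 𝒰 : Ultrafilter X := (hyperfilter ℕ).map (fun n : ℕ => N.act (g n) (c (-n + t)))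
    have hU : (𝒰 : Filter X) ≤ 𝓟 (Metric.closedBall x₀ (R + |t|)) := by
      rw [le_principal_iff]
      change _ ∈ Filter.map _ _
      rw [mem_map]
      exact Filter.univ_mem' hmem
    obtain ⟨y, _, hy⟩ := hK.ultrafilter_le_nhds 𝒰 hU
    exact ⟨y, hy⟩
  choose c' hc' using hball
  refine ⟨c', g, ?_, ?_, hc'⟩
  · refine Isometry.of_dist_eq fun s t => ?_
    have h1 := (hc' s).dist (hc' t)
    have h2 : (fun n : ℕ => dist (N.act (g n) (c (-n + s))) (N.act (g n) (c (-n + t))))
        = fun _ => dist s t := by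
      funext n
      rw [N.act_dist, hc.dist_eq, Real.dist_eq, Real.dist_eq]
      congr 1; ring
    rw [h2] at h1
    exact tendsto_nhds_unique h1 tendsto_const_nhds
  · intro s t
    -- the defect function
    set F : ℝ → ℝ := fun r => r - uu N.a σ (c r) with hF
    have hFD : ∀ r r', r ≤ r' → F r' - F r = N.D σ (c r) (c r') := by
      intro r r' h
      simp only [hF, D, hc.dist_eq, Real.dist_eq]
      rw [abs_of_nonpos (by linarith : r - r' ≤ 0)]
      ring
    have hmono : Monotone F := by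
      intro r r' h
      have := N.D_nonneg σ (c r) (c r')
      rw [← hFD r r' h] at this
      linarith
    have hbdd : BddBelow (Set.range F) := by
      refine ⟨F 0 - C, ?_⟩
      rintro _ ⟨r, rfl⟩
      rcases le_total r 0 with h | h
      · have := hC r 0 h
        rw [← hFD r 0 h] at this
        linarith
      · have h0 := hC 0 0 le_rfl
        have h00 := N.D_nonneg σ (c 0) (c 0)
        have := hmono h
        linarith
    have hlim := tendsto_atBot_ciInf hmono hbdd
    have hseq : ∀ r, Tendsto (fun n : ℕ => F (-n + r)) (hyperfilter ℕ : Filter ℕ)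
        (𝓝 (⨅ i, F i)) := by
      intro r
      have h1 : Tendsto (fun n : ℕ => (-(n : ℝ) + r)) atTop atBot := by
        apply tendsto_atBot_add_const_right
        exact tendsto_neg_atTop_atBot.comp tendsto_natCast_atTop_atTop
      exact (hlim.comp h1).mono_left (Nat.hyperfilter_le_atTop)
    have h2 := (hseq t).sub (hseq s)
    have h3 : Tendsto (fun n : ℕ => uu N.a σ (N.act (g n) (c (-n + t)))
        - uu N.a σ (N.act (g n) (c (-n + s)))) (hyperfilter ℕ : Filter ℕ)
        (𝓝 (uu N.a σ (c' t) - uu N.a σ (c' s))) :=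
      (((N.uu_cont σ).tendsto _).comp (hc' t)).sub (((N.uu_cont σ).tendsto _).comp (hc' s))
    have h4 : (fun n : ℕ => uu N.a σ (N.act (g n) (c (-n + t)))
        - uu N.a σ (N.act (g n) (c (-n + s))))
        = fun n : ℕ => (t - s) - (F (-n + t) - F (-n + s)) := by
      funext n
      rw [N.uu_act, N.uu_act]
      simp only [hF]
      ring
    rw [h4] at h3
    have h5 := tendsto_nhds_unique h3 (tendsto_const_nhds.sub h2)
    rw [h5]; ring

end line

/-- calibrated lines are near a line of the net at `-∞` -/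
lemma near_line {c : ℝ → X} (hc : Isometry c) (σ : Sg)
    (hu : ∀ s t, uu N.a σ (c t) - uu N.a σ (c s) = t - s) (ε L : ℝ) (hε : 0 < ε) (hL : 0 ≤ L) :
    ∃ t₀ ≤ 0, ∃ i m x x', dist (c t₀) (N.A i x m) ≤ ε ∧ dist (c (t₀ - L)) (N.A i x' m) ≤ ε := by
  rcases N.rigid c σ hc hu with ⟨i, m, h⟩ | ⟨k, g, h⟩
  · obtain ⟨x, hx⟩ := h 0
    obtain ⟨x', hx'⟩ := h (0 - L)
    refine ⟨0, le_rfl, i, m, x, x', ?_, ?_⟩
    · rw [hx, dist_self]; exact hε.le
    · rw [hx', dist_self]; exact hε.le
  · choose r hr using h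
    set U : ℝ → ℝ := fun r => uu N.a k.2.2 (N.γ k r) with hU
    have hUm : StrictMono U := N.U_mono k
    have hUd : ∀ s t, dist (N.γ k s) (N.γ k t) ≤ |U s - U t| := by
      intro s t
      rcases le_total s t with h | h
      · refine (N.γ_dist k s t h).trans ?_
        rw [abs_sub_comm]; exact le_abs_self _
      · rw [dist_comm]
        exact (N.γ_dist k t s h).trans (le_abs_self _)
    have hV : ∀ s t, |U (r s) - U (r t)| = |s - t| := by
      intro s t
      apply le_antisymm
      · have h1 := N.uu_lip k.2.2 (c s) (c t)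
        rw [hr s, hr t, N.uu_act, N.uu_act, ← hr s, ← hr t, hc.dist_eq, Real.dist_eq] at h1
        rw [add_sub_add_right_eq_sub] at h1
        exact h1
      · have h1 := hUd (r s) (r t)
        rw [← N.act_dist g, ← hr s, ← hr t, hc.dist_eq, Real.dist_eq] at h1
        exact h1
    obtain ⟨b, i, τ⟩ := k
    rcases isometry_real hV with hplus | hminus
    · obtain ⟨R, hR⟩ := N.start b i τ ε hε
      set t₀ := min 0 (U (-R) - U (r 0)) with ht₀
      have h1 : ∀ t ≤ t₀, r t ≤ -R := by
        intro t ht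
        have : U (r t) ≤ U (-R) := by
          rw [hplus t]
          have := ht.trans (min_le_right _ _)
          linarith
        exact hUm.le_iff_le.1 this
      refine ⟨t₀, min_le_left _ _, i, 0 + g (i + 1), sg (τ i) * (r t₀ - 1 / 2) + g i,
        sg (τ i) * (r (t₀ - L) - 1 / 2) + g i, ?_, ?_⟩
      · rw [hr t₀, ← N.act_A, N.act_dist]
        exact hR _ (h1 _ le_rfl)
      · rw [hr (t₀ - L), ← N.act_A, N.act_dist]
        exact hR _ (h1 _ (by linarith))
    · -- the curve runs backwards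
      have hstop : ∃ (i' : Fin 2) (m' : ℤ) (y : ℝ → ℝ) (R : ℝ), ∀ r, R ≤ r →
          dist (N.γ (b, i, τ) r) (N.A i' (y r) m') ≤ ε := by
        cases b with
        | false =>
          obtain ⟨R, hR⟩ := N.stopJ i τ ε hε
          exact ⟨i, τ (i + 1), fun r => sg (τ i) * (r - 1 / 2), R, hR⟩
        | true =>
          obtain ⟨R, hR⟩ := N.stopT i τ ε hε
          exact ⟨i + 1, 0, fun r => sg (τ (i + 1)) * (r + 1 / 2), R, hR⟩
      obtain ⟨i', m', y, R, hR⟩ := hstop
      set t₀ := min 0 (U (r 0) - U R) with ht₀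
      have h1 : ∀ t ≤ t₀, R ≤ r t := by
        intro t ht
        have : U R ≤ U (r t) := by
          rw [hminus t]
          have := ht.trans (min_le_right _ _)
          linarith
        exact hUm.le_iff_le.1 this
      refine ⟨t₀, min_le_left _ _, i', m' + g (i' + 1), y (r t₀) + g i',
        y (r (t₀ - L)) + g i', ?_, ?_⟩
      · rw [hr t₀, ← N.act_A, N.act_dist]
        exact hR _ (h1 _ le_rfl)
      · rw [hr (t₀ - L), ← N.act_A, N.act_dist]
        exact hR _ (h1 _ (by linarith))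

lemma asymp [ProperSpace X] {c : ℝ → X} (hc : Isometry c) (σ : Sg) (C : ℝ)
    (hC : ∀ s t, s ≤ t → N.D σ (c s) (c t) ≤ C) (ε L T : ℝ) (hε : 0 < ε) (hL : 0 ≤ L) :
    ∃ s ≤ -T, ∃ i m x x', dist (c s) (N.A i x m) ≤ ε ∧ dist (c (s - L)) (N.A i x' m) ≤ ε := by
  obtain ⟨c', g, hc', hu, hlim⟩ := N.limit_line hc σ C hC
  obtain ⟨t₀, ht₀, i, m, x, x', h1, h2⟩ := N.near_line hc' σ hu (ε / 2) L (by linarith) hL
  have e1 := (Metric.tendsto_nhds.1 (hlim t₀)) (ε / 2) (by linarith)
  have e2 := (Metric.tendsto_nhds.1 (hlim (t₀ - L))) (ε / 2) (by linarith)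
  have e3 : ∀ᶠ n : ℕ in (hyperfilter ℕ : Filter ℕ), T ≤ n :=
    (Nat.hyperfilter_le_atTop) (tendsto_natCast_atTop_atTop.eventually_ge_atTop T)
  obtain ⟨n, ⟨h3, h4⟩, h5⟩ := ((e1.and e2).and e3).exists
  have key : ∀ (y : X) (p : X), dist (N.act (g n) y) p = dist y (N.act (-(g n)) p) := by
    intro y p
    rw [← N.act_dist (-(g n)) (N.act (g n) y) p, N.act_act, neg_add_cancel, N.act_zero]
  refine ⟨-n + t₀, by linarith, i, m + (-(g n)) (i + 1), x + (-(g n)) i, x' + (-(g n)) i, ?_, ?_⟩
  · have := dist_triangle (N.act (g n) (c (-n + t₀))) (c' t₀) (N.A i x m)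
    rw [key, N.act_A] at this
    linarith
  · have := dist_triangle (N.act (g n) (c (-n + (t₀ - L)))) (c' (t₀ - L)) (N.A i x' m)
    rw [key, N.act_A] at this
    have e : (-(n : ℝ) + t₀ - L) = -n + (t₀ - L) := by ring
    rw [e]
    linarith

end Net

end Pool.Agent.W535.MG
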