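import Mathlib

/-!
Riemannian metrics on `T² × S^(n-1)`, described on the universal cover `ℝ² × S^(n-1)`,
which is realised as a subset of `ℝ² × ℝ^n`.
-/

namespace Pool.Agent.W535.MG

/-- The ambient space `ℝ² × ℝ^n`. -/
abbrev Y (n : ℕ) := (Fin 2 → ℝ) × (Fin n → ℝ)

/-- Bilinear forms on `ℝ² × ℝ^n`. -/
abbrev Form (n : ℕ) := Y n →L[ℝ] Y n →L[ℝ] ℝ

/-- The submanifold `ℝ² × S^(n-1)` of `ℝ² × ℝ^n`; for `n ≥ 3` it is the universal cover of
`T² × S^(n-1) = (ℝ² × S^(n-1)) / ℤ²`. -/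
def Cover (n : ℕ) : Set (Y n) := {p | ∑ a, p.2 a ^ 2 = 1}

/-- The element of `ℤ²`, acting on `ℝ² × ℝ^n` by translation in the first factor. -/
def lat {n : ℕ} (g : Fin 2 → ℤ) : Y n := (fun i => (g i : ℝ), 0)

/-- There is a piecewise `C¹` curve in `ℝ² × S^(n-1)` from `p` to `q` whose length for the
field of bilinear forms `G` is `L`. -/
inductive HasPL {n : ℕ} (G : Y n → Form n) : Y n → Y n → ℝ → Prop
  /-- a single `C¹` curve -/
  | arc (γ : ℝ → Y n) (a b : ℝ) (hab : a ≤ b) (hγ : ContDiff ℝ 1 γ)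
      (hmem : ∀ t ∈ Set.Icc a b, γ t ∈ Cover n) :
      HasPL G (γ a) (γ b) (∫ t in a..b, √(G (γ t) (deriv γ t) (deriv γ t)))
  /-- concatenation -/
  | comp {p q r : Y n} {L L' : ℝ} : HasPL G p q L → HasPL G q r L' → HasPL G p r (L + L')

/-- The Riemannian distance: infimum of the lengths of piecewise `C¹` curves. -/
noncomputable def riemDist {n : ℕ} (G : Y n → Form n) (p q : Y n) : ℝ :=
  sInf {L | HasPL G p q L}

end Pool.Agent.W535.MG
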