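import Pool.Agent.W535.MG.Assemble

/-!
The model curves are minimal and pairwise distinct.
-/

namespace Pool.Agent.W535.MG

open Filter Topology Set

namespace Net

variable {X : Type*} [MetricSpace X] (N : Net X)

lemma γ_dist_eq (k : KK) (r r' : ℝ) :
    dist (N.γ k r) (N.γ k r') = |uu N.a k.2.2 (N.γ k r) - uu N.a k.2.2 (N.γ k r')| := by
  apply le_antisymm _ (N.uu_lip _ _ _)
  rcases le_total r r' with h | h
  · refine (N.γ_dist k r r' h).trans ?_
    rw [abs_sub_comm]; exact le_abs_self _
  · rw [dist_comm]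
    exact (N.γ_dist k r' r h).trans (le_abs_self _)

lemma model_isometry (hs : ∀ k, Function.Surjective fun r => uu N.a k.2.2 (N.γ k r))
    (j : Fin 2 ⊕ KK) : Isometry (N.model j) := by
  apply Isometry.of_dist_eq
  intro s t
  rw [Real.dist_eq]
  rcases j with i | k
  · simp only [model]
    apply le_antisymm (N.A_dist i s t 0)
    have := N.a_lip i (N.A i s 0) (N.A i t 0)
    rwa [N.a_same, N.a_same] at this
  · simp only [model]
    rw [N.γ_dist_eq]
    have h := Function.rightInverse_invFun (hs k)
    have h1 := h s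
    have h2 := h t
    simp only at h1 h2
    rw [h1, h2]

end Net

lemma U_surjective {M : PMet 34} (hM : Adapted M) (k : KK) :
    Function.Surjective fun r => uu (theNet hM).a k.2.2 ((theNet hM).γ k r) := by
  set N := theNet hM with hN
  set U : ℝ → ℝ := fun r => uu N.a k.2.2 (N.γ k r) with hU
  have hmono : StrictMono U := N.U_mono k
  have hval : ∀ r, (N.γ k r).val = gam k r := fun r => rfl
  have hcont : Continuous U := by
    have h1 : U = fun r => uu aa k.2.2 (gam k r) := rfl
    rw [h1]
    exact (uu_aa_contDiff k.2.2).continuous.comp (gam_contDiff k).continuous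
  -- growth
  have hgrow : ∀ r, |r| - (‖zz k 0‖ + 3) ≤ |U r - U 0| := by
    intro r
    have h1 := abs_le_norm_zz k r
    have h2 : ‖zz k r‖ ≤ |U r - U 0| + 2 + ‖zz k 0‖ := by
      rw [pi_norm_le_iff_of_nonneg (by positivity)]
      intro l
      have a1 := N.a_lip l (N.γ k r) (N.γ k 0)
      rw [N.γ_dist_eq] at a1
      have a2 := abs_aa_sub l (gam k r)
      have a3 := abs_aa_sub l (gam k 0)
      have a4 : |zz k 0 l| ≤ ‖zz k 0‖ := norm_le_pi_norm (zz k 0) l
      have a1' : |aa l (gam k r) - aa l (gam k 0)| ≤ |U r - U 0| := a1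
      have e : zz k r l = (aa l (gam k r) - aa l (gam k 0)) - (aa l (gam k r) - (gam k r).1 l)
        + (aa l (gam k 0) - (gam k 0).1 l) + zz k 0 l := by
        simp only [gam]; ring
      rw [Real.norm_eq_abs, e]
      have b1 := abs_add_le ((aa l (gam k r) - aa l (gam k 0)) - (aa l (gam k r) - (gam k r).1 l)
        + (aa l (gam k 0) - (gam k 0).1 l)) (zz k 0 l)
      have b2 := abs_add_le ((aa l (gam k r) - aa l (gam k 0)) -
        (aa l (gam k r) - (gam k r).1 l)) (aa l (gam k 0) - (gam k 0).1 l)
      have b3 := abs_sub (aa l (gam k r) - aa l (gam k 0)) (aa l (gam k r) - (gam k r).1 l)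
      linarith
    linarith
  apply hcont.surjective
  · rw [tendsto_atTop]
    intro B
    filter_upwards [eventually_ge_atTop (max 0 (B - U 0 + (‖zz k 0‖ + 3)))] with r hr
    have h0 : 0 ≤ r := (le_max_left _ _).trans hr
    have h1 : B - U 0 + (‖zz k 0‖ + 3) ≤ r := (le_max_right _ _).trans hr
    have h2 := hgrow r
    have h3 : U 0 ≤ U r := hmono.monotone h0
    rw [abs_of_nonneg h0, abs_of_nonneg (by linarith)] at h2
    linarith
  · rw [tendsto_atBot]
    intro B
    filter_upwards [eventually_le_atBot (min 0 (B - U 0 - (‖zz k 0‖ + 3)))] with r hr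
    have h0 : r ≤ 0 := hr.trans (min_le_left _ _)
    have h1 : r ≤ B - U 0 - (‖zz k 0‖ + 3) := hr.trans (min_le_right _ _)
    have h2 := hgrow r
    have h3 : U r ≤ U 0 := hmono.monotone h0
    rw [abs_of_nonpos h0, abs_of_nonpos (by linarith)] at h2
    linarith

/-- distinctness of the model curves -/
lemma model_distinct {M : PMet 34} (hM : Adapted M) {j j' : Fin 2 ⊕ KK} {s t : ℝ}
    {g : Fin 2 → ℤ} (h : ((theNet hM).model j s).val = ((theNet hM).model j' t).val + lat g) :
    j = j' := by
  rcases j with i | k <;> rcases j' with i' | k'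
  · have h' : lin i s 0 = lin i' t 0 + lat g := h
    rw [lin_add_lat] at h'
    have h2 : eb (Sum.inl i) = eb (Sum.inl i') := congrArg Prod.snd h'
    have h3 := congrFun h2 (lab (Sum.inl i))
    rw [eb_same] at h3
    by_contra hne
    have hne' : (Sum.inl i : Idx) ≠ Sum.inl i' := by
      intro e
      exact hne (by rw [Sum.inl.inj e])
    rw [eb_ne hne'] at h3
    exact one_ne_zero h3
  · exfalso
    have h' : lin i s 0 = gam k' _ + lat g := h
    exact gam_ne_lin _ _ _ _ _ _ h'.symm
  · exfalso
    have h' : gam k _ = lin i' t 0 + lat g := h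
    rw [lin_add_lat] at h'
    apply gam_ne_lin k _ 0 i' _ _ 
    rw [lat_zero, add_zero]
    exact h'
  · have h' : gam k _ = gam k' _ + lat g := h
    have h2 := gam_inj (g := 0) (g' := g) (by rw [lat_zero, add_zero]; exact h')
    rw [h2.1]

/-- exactly eighteen minimal geodesics -/
theorem exists_eighteen : ∃ (M : PMet 34) (C : Fin 18 → ℝ → Y 34),
    (∀ j, (∀ t, C j t ∈ Cover 34) ∧ ∀ s t, riemDist M.G (C j s) (C j t) = |s - t|) ∧
    (∀ j j' s t g, C j s = C j' t + lat g → j = j') ∧
    ∀ c : ℝ → Y 34, (∀ t, c t ∈ Cover 34) → (∀ s t, riemDist M.G (c s) (c t) = |s - t|) →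
      ∃ (j : Fin 18) (g : Fin 2 → ℤ) (e : ℝ) (b : ℝ), (e = 1 ∨ e = -1) ∧
        ∀ t, c t = C j (e * t + b) + lat g := by
  obtain ⟨M, hM⟩ := exists_adapted
  have hcard : Fintype.card (Fin 2 ⊕ KK) = 18 := by simp [KK, Sg]
  let eqv : (Fin 2 ⊕ KK) ≃ Fin 18 := Fintype.equivFinOfCardEq hcard
  refine ⟨M, fun j t => ((theNet hM).model (eqv.symm j) t).val, ?_, ?_, ?_⟩
  · intro j
    refine ⟨fun t => XX.mem _, fun s t => ?_⟩
    have h1 := ((theNet hM).model_isometry (U_surjective hM) (eqv.symm j)).dist_eq s t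
    rw [XX.dist_def, Real.dist_eq] at h1
    exact h1
  · intro j j' s t g h
    exact eqv.symm.injective (model_distinct hM h)
  · intro c hc1 hc2
    have hiso : Isometry (fun t => (XX.mk (c t) (hc1 t) : XX M)) := by
      apply Isometry.of_dist_eq
      intro s t
      rw [XX.dist_def, Real.dist_eq]
      exact hc2 s t
    obtain ⟨j, g, e, b, h⟩ := (theNet hM).finitely_many hiso
    refine ⟨eqv j, g, sg e, b, ?_, fun t => ?_⟩
    · rcases Int.units_eq_one_or e with h | h
      · left; simp [sg, h]
      · right; simp [sg, h]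
    · have := congrArg XX.val (h t)
      simp only [XX.val_mk] at this
      rw [this]
      simp only [Equiv.symm_apply_apply]
      rfl

end Pool.Agent.W535.MG
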