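import Pool.Agent.W535.MG.Classify

/-!
Every isometric line is calibrated, hence a curve of the net.
-/

namespace Pool.Agent.W535.MG

open Filter Topology

namespace Net

variable {X : Type*} [MetricSpace X] (N : Net X)

lemma uu_neg (σ : Sg) (x : X) : uu N.a (-σ) x = - uu N.a σ x := by
  simp only [uu, Pi.neg_apply, sg_neg, neg_mul, Finset.sum_neg_distrib]

/-- the flip of one sign -/
def flip (σ : Sg) (l : Fin 2) : Sg := fun l' => if l' = l then -σ l' else σ l'

lemma uu_flip (σ : Sg) (l : Fin 2) (x : X) :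
    uu N.a (flip σ l) x = uu N.a σ x - 2 * (sg (σ l) * N.a l x) := by
  rw [uu_eq N.a _ _ l, uu_eq N.a _ _ l]
  simp only [flip, if_true, add_one_ne, if_false, sg_neg]
  ring

lemma D_flip_nonneg (σ : Sg) (l : Fin 2) (x y : X) :
    0 ≤ N.D σ x y + 2 * (sg (σ l) * (N.a l y - N.a l x)) := by
  have := N.D_nonneg (flip σ l) x y
  unfold D at *
  rw [N.uu_flip, N.uu_flip] at this
  linarith

section line

variable {c : ℝ → X}

lemma asymp_top [ProperSpace X] (hc : Isometry c) (σ : Sg) (C : ℝ)
    (hC : ∀ s t, s ≤ t → N.D σ (c s) (c t) ≤ C) (ε L T : ℝ) (hε : 0 < ε) (hL : 0 ≤ L) :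
    ∃ t, T ≤ t ∧ ∃ i m x x', dist (c t) (N.A i x m) ≤ ε ∧ dist (c (t + L)) (N.A i x' m) ≤ ε := by
  have hc' : Isometry (fun t => c (-t)) := hc.comp (IsometryEquiv.neg ℝ).isometry
  obtain ⟨s, hs, i, m, x, x', h1, h2⟩ := N.asymp hc' (-σ) C (by
    intro s t hst
    have := hC (-t) (-s) (by linarith)
    unfold D at *
    rw [N.uu_neg, N.uu_neg, dist_comm]
    linarith) ε L T hε hL
  refine ⟨-s, by linarith, i, m, x, x', h1, ?_⟩
  have e : -s + L = -(s - L) := by ring
  rw [e]
  exact h2

/-- the main estimate -/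
lemma small_excess [ProperSpace X] (hc : Isometry c) (σ : Sg) (C : ℝ)
    (hC : ∀ s t, s ≤ t → N.D σ (c s) (c t) ≤ C) (ε T : ℝ) (hε : 0 < ε) (hε1 : ε ≤ 1 / 8)
    (hT0 : 0 ≤ T) :
    ∃ σ' : Sg, N.D σ' (c (-T)) (c T) ≤ 5 * ε := by
  have hC0 : 0 ≤ C := (N.D_nonneg σ (c 0) (c 0)).trans (hC 0 0 le_rfl)
  choose f1 hf1 using fun p : Sg × Fin 2 => N.same p.1 p.2 ε hε
  choose f2 hf2 using fun p : Sg × Fin 2 => N.trans p.1 p.2 ε hε
  obtain ⟨R₁, hR₁⟩ := Finite.exists_le f1
  obtain ⟨R₂, hR₂⟩ := Finite.exists_le f2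
  set R := max (max R₁ R₂) 0 with hR
  have hR1 : ∀ p, f1 p ≤ R := fun p => (hR₁ p).trans ((le_max_left _ _).trans (le_max_left _ _))
  have hR2 : ∀ p, f2 p ≤ R := fun p => (hR₂ p).trans ((le_max_right _ _).trans (le_max_left _ _))
  have hR0 : 0 ≤ R := le_max_right _ _
  set L := R + 2 * C + 2 with hL
  have hL0 : 0 ≤ L := by linarith
  obtain ⟨s, hs, i, m, x, x', p1, p2⟩ := N.asymp hc σ C hC ε L (max T 0) hε hL0
  obtain ⟨t, ht, l, n, y, y', q1, q2⟩ := N.asymp_top hc σ C hC ε L (max T 0) hε hL0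
  have hT1 : s ≤ -T := by linarith [le_max_left T 0]
  have hT2 : T ≤ t := by linarith [le_max_left T 0]
  have hst : s ≤ t := by linarith [le_max_right T 0]
  -- signed displacement estimates
  have hdisp : ∀ (l' : Fin 2) (r r' : ℝ), r ≤ r' →
      -(C / 2) ≤ sg (σ l') * (N.a l' (c r') - N.a l' (c r)) := by
    intro l' r r' h
    have h1 := N.D_flip_nonneg σ l' (c r) (c r')
    have h2 := hC r r' h
    linarith
  have hsmall : ∀ (l' : Fin 2) (p q : X), dist p q ≤ ε → |sg (σ l') * (N.a l' p - N.a l' q)| ≤ ε := by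
    intro l' p q h
    rw [abs_mul, abs_sg, one_mul]
    exact (N.a_lip l' p q).trans h
  have hue : ∀ (p q : X), dist p q ≤ ε → |uu N.a σ p - uu N.a σ q| ≤ ε :=
    fun p q h => (N.uu_lip σ p q).trans h
  -- displacement along the first line
  have hx : L - C - 2 * ε ≤ sg (σ i) * (x - x') := by
    have h1 := hC (s - L) s (by linarith)
    unfold D at h1
    rw [hc.dist_eq, Real.dist_eq, abs_of_nonpos (by linarith : s - L - s ≤ 0)] at h1
    have h2 := (abs_le.1 (hue _ _ p1)).2
    have h3 := (abs_le.1 (hue _ _ p2)).1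
    rw [N.uu_A] at h2 h3
    linarith
  have hy : L - C - 2 * ε ≤ sg (σ l) * (y' - y) := by
    have h1 := hC t (t + L) (by linarith)
    unfold D at h1
    rw [hc.dist_eq, Real.dist_eq, abs_of_nonpos (by linarith : t - (t + L) ≤ 0)] at h1
    have h2 := (abs_le.1 (hue _ _ q1)).1
    have h3 := (abs_le.1 (hue _ _ q2)).2
    rw [N.uu_A] at h2 h3
    linarith
  have hmono' : ∀ σ' (t' : ℝ), t ≤ t' → N.D σ' (c (-T)) (c T) ≤ N.D σ' (c (s - L)) (c t') := by
    intro σ' t' ht'
    exact N.D_mono hc σ' (by linarith) (by linarith) (by linarith)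
  rcases eq_or_eq_add_one i l with hl | hl
  · subst hl
    -- same type
    have h1 : R ≤ sg (σ l) * (y - x') := by
      have a1 := hdisp l s t hst
      have a2 := (abs_le.1 (hsmall l _ _ p1)).1
      have a3 := (abs_le.1 (hsmall l _ _ q1)).2
      rw [N.a_same] at a2 a3
      have a2' := (abs_le.1 (hsmall l _ _ p1)).2
      have a3' := (abs_le.1 (hsmall l _ _ q1)).1
      rw [N.a_same] at a2' a3'
      nlinarith
    by_cases hcase : 0 ≤ sg (σ (l + 1)) * ((n : ℝ) - m)
    · refine ⟨σ, ?_⟩
      have a1 := hf1 (σ, l) x' y m n ((hR1 _).trans h1) hcase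
      have a2 := N.D_close (σ := σ) p2 q1
      have a3 := hmono' σ t le_rfl
      linarith
    · push Not at hcase
      refine ⟨flip σ (l + 1), ?_⟩
      have e1 : flip σ (l + 1) l = σ l := by
        simp only [flip]
        rw [if_neg]
        exact (add_one_ne l).symm
      have e2 : flip σ (l + 1) (l + 1) = -σ (l + 1) := by simp [flip]
      have a1 := hf1 (flip σ (l + 1), l) x' y m n (by
        simp only [e1]
        exact (hR1 _).trans h1) (by
        simp only [e2, sg_neg]
        linarith)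
      have a2 := N.D_close (σ := flip σ (l + 1)) p2 q1
      have a3 := hmono' (flip σ (l + 1)) t le_rfl
      linarith
  · subst hl
    refine ⟨σ, ?_⟩
    have h1 : R ≤ sg (σ i) * (n - x') := by
      have a1 := hdisp i s t hst
      have a2 := abs_le.1 (hsmall i _ _ p1)
      have a3 := abs_le.1 (hsmall i _ _ q1)
      rw [N.a_same] at a2
      have e : N.a i (N.A (i + 1) y n) = n := by
        have := N.a_other (i + 1) y n
        rwa [add_one_add_one] at this
      rw [e] at a3
      nlinarith [a2.1, a2.2, a3.1, a3.2]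
    have h2 : R ≤ sg (σ (i + 1)) * (y' - m) := by
      have a1 := hdisp (i + 1) s t hst
      have a2 := abs_le.1 (hsmall (i + 1) _ _ p1)
      have a3 := abs_le.1 (hsmall (i + 1) _ _ q1)
      rw [N.a_other] at a2
      rw [N.a_same] at a3
      nlinarith [a2.1, a2.2, a3.1, a3.2]
    have a1 := hf2 (σ, i) x' y' m n ((hR2 _).trans h1) ((hR2 _).trans h2)
    have a2 := N.D_close (σ := σ) p2 q2
    have a3 := hmono' σ (t + L) (by linarith)
    linarith

/-- every isometric line is calibrated by some `u_σ` -/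
lemma calibrated [ProperSpace X] (hc : Isometry c) :
    ∃ σ : Sg, ∀ s t, uu N.a σ (c t) - uu N.a σ (c s) = t - s := by
  obtain ⟨σ, C, hC⟩ := N.exists_bdd hc
  have key : ∀ n : ℕ, ∃ σ' : Sg, N.D σ' (c (-n)) (c n) ≤ 5 * (1 / (8 * (n + 1))) := by
    intro n
    have h1 : (0 : ℝ) < 8 * (n + 1) := by positivity
    exact N.small_excess hc σ C hC (1 / (8 * (n + 1))) n (by positivity)
      (by
        apply one_div_le_one_div_of_le (by norm_num)
        have : (0 : ℝ) ≤ n := Nat.cast_nonneg n
        linarith) (Nat.cast_nonneg n)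
  have key2 : ∃ σ : Sg, ∃ᶠ n : ℕ in atTop, N.D σ (c (-n)) (c n) ≤ 5 * (1 / (8 * (n + 1))) := by
    by_contra hcon
    push Not at hcon
    have : ∀ᶠ n : ℕ in atTop, ∀ σ : Sg, ¬ N.D σ (c (-n)) (c n) ≤ 5 * (1 / (8 * (n + 1))) := by
      rw [eventually_all]
      intro σ
      exact (hcon σ).mono fun n hn => not_le.2 hn
    obtain ⟨n, hn⟩ := this.exists
    obtain ⟨σ, hσ⟩ := key n
    exact hn σ hσ
  obtain ⟨σ, hσ⟩ := key2
  have hzero : ∀ s t, s ≤ t → N.D σ (c s) (c t) = 0 := by
    intro s t hst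
    apply le_antisymm _ (N.D_nonneg σ _ _)
    apply le_of_forall_pos_le_add
    intro ε hε
    obtain ⟨n, hn1, hn2⟩ := frequently_atTop.1 hσ (max ⌈max (|s|) (|t|)⌉₊ ⌈1 / ε⌉₊)
    have hn1a : ⌈max (|s|) (|t|)⌉₊ ≤ n := (le_max_left _ _).trans hn1
    have hn1b : ⌈1 / ε⌉₊ ≤ n := (le_max_right _ _).trans hn1
    have h1 : max |s| |t| ≤ n := (Nat.le_ceil _).trans (by exact_mod_cast hn1a)
    have h2 : |s| ≤ n := (le_max_left _ _).trans h1
    have h3 : |t| ≤ n := (le_max_right _ _).trans h1
    have h4 : 1 / ε ≤ n := (Nat.le_ceil _).trans (by exact_mod_cast hn1b)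
    have h5 := N.D_mono hc σ (s' := -n) (t' := n) (by linarith [(abs_le.1 h2).1]) hst
      (by linarith [(abs_le.1 h3).2])
    have h6 : (5 : ℝ) * (1 / (8 * (n + 1))) ≤ ε := by
      rw [div_le_iff₀ hε] at h4
      rw [mul_one_div, div_le_iff₀ (by positivity)]
      nlinarith
    linarith
  refine ⟨σ, fun s t => ?_⟩
  rcases le_total s t with h | h
  · have := hzero s t h
    unfold D at this
    rw [hc.dist_eq, Real.dist_eq, abs_of_nonpos (by linarith : s - t ≤ 0)] at this
    linarith
  · have := hzero t s h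
    unfold D at this
    rw [hc.dist_eq, Real.dist_eq, abs_of_nonpos (by linarith : t - s ≤ 0)] at this
    linarith

/-- classification up to parametrisation -/
theorem classify [ProperSpace X] (hc : Isometry c) :
    (∃ i m, ∀ t, ∃ x, c t = N.A i x m) ∨ (∃ k g, ∀ t, ∃ r, c t = N.act g (N.γ k r)) := by
  obtain ⟨σ, hσ⟩ := N.calibrated hc
  exact N.rigid c σ hc hσ

/-- the model curves: two lines and the heteroclinics parametrised by their calibration -/
noncomputable def model (j : Fin 2 ⊕ KK) : ℝ → X :=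
  match j with
  | Sum.inl i => fun t => N.A i t 0
  | Sum.inr k => fun t => N.γ k (Function.invFun (fun r => uu N.a k.2.2 (N.γ k r)) t)

/-- Every isometric line is one of finitely many model curves, up to the group action and an
isometric change of parameter. -/
theorem finitely_many [ProperSpace X] (hc : Isometry c) :
    ∃ (j : Fin 2 ⊕ KK) (g : Fin 2 → ℤ) (e : ℤˣ) (b : ℝ),
      ∀ t, c t = N.act g (N.model j (sg e * t + b)) := by
  rcases N.classify hc with ⟨i, m, h⟩ | ⟨k, g, h⟩
  · choose x hx using h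
    have hV : ∀ s t, |x s - x t| = |s - t| := by
      intro s t
      apply le_antisymm
      · have := N.a_lip i (c s) (c t)
        rw [hx s, hx t, N.a_same, N.a_same, ← hx s, ← hx t, hc.dist_eq, Real.dist_eq] at this
        exact this
      · have := N.A_dist i (x s) (x t) m
        rw [← hx s, ← hx t, hc.dist_eq, Real.dist_eq] at this
        exact this
    have hg : ∀ y : ℝ, N.A i y m = N.act (fun l => if l = i then 0 else m) (N.A i y 0) := by
      intro y
      rw [N.act_A]
      simp
    rcases isometry_real hV with hp | hm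
    · refine ⟨Sum.inl i, fun l => if l = i then 0 else m, 1, x 0, fun t => ?_⟩
      simp only [model]
      rw [hx t, hg, hp t]
      simp [sg, add_comm]
    · refine ⟨Sum.inl i, fun l => if l = i then 0 else m, -1, x 0, fun t => ?_⟩
      simp only [model]
      rw [hx t, hg, hm t]
      congr 2
      simp [sg]; ring
  · choose r hr using h
    set U : ℝ → ℝ := fun r => uu N.a k.2.2 (N.γ k r) with hU
    have hUm : StrictMono U := N.U_mono k
    have hUd : ∀ s t, dist (N.γ k s) (N.γ k t) ≤ |U s - U t| := by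
      intro s t
      rcases le_total s t with h | h
      · refine (N.γ_dist k s t h).trans ?_
        rw [abs_sub_comm]; exact le_abs_self _
      · rw [dist_comm]
        exact (N.γ_dist k t s h).trans (le_abs_self _)
    have hV : ∀ s t, |U (r s) - U (r t)| = |s - t| := by
      intro s t
      apply le_antisymm
      · have h1 := N.uu_lip k.2.2 (c s) (c t)
        rw [hr s, hr t, N.uu_act, N.uu_act, ← hr s, ← hr t, hc.dist_eq, Real.dist_eq] at h1
        rw [add_sub_add_right_eq_sub] at h1
        exact h1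
      · have h1 := hUd (r s) (r t)
        rw [← N.act_dist g, ← hr s, ← hr t, hc.dist_eq, Real.dist_eq] at h1
        exact h1
    rcases isometry_real hV with hp | hm
    · refine ⟨Sum.inr k, g, 1, U (r 0), fun t => ?_⟩
      have e : sg 1 * t + U (r 0) = U (r t) := by
        rw [hp t]; simp [sg, add_comm]
      simp only [model]
      rw [e, Function.leftInverse_invFun hUm.injective (r t)]
      exact hr t
    · refine ⟨Sum.inr k, g, -1, U (r 0), fun t => ?_⟩
      have e : sg (-1) * t + U (r 0) = U (r t) := by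
        rw [hm t]; simp [sg]; ring
      simp only [model]
      rw [e, Function.leftInverse_invFun hUm.injective (r t)]
      exact hr t

end line

end Net

end Pool.Agent.W535.MG
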