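import Pool.Agent.W535.MG.Per

/-!
Local sections of the constraint sets.
-/

namespace Pool.Agent.W535.MG

open Filter Topology Set

/-- square of a covector -/
noncomputable def sqf (φ : Y 34 →L[ℝ] ℝ) : Form 34 := φ.smulRight φ

@[simp] lemma sqf_apply (φ : Y 34 →L[ℝ] ℝ) (v w : Y 34) : sqf φ v w = φ v * φ w := by
  simp [sqf]

lemma sqf_contDiff {φ : Y 34 → (Y 34 →L[ℝ] ℝ)} (h : ContDiff ℝ (⊤ : ℕ∞) φ) :
    ContDiff ℝ (⊤ : ℕ∞) fun p => sqf (φ p) := by
  unfold sqf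
  exact h.smulRight h

/-- scalar multiple of the square of a covector -/
noncomputable def msq (a : ℝ) (φ : Y 34 →L[ℝ] ℝ) : Form 34 := (a • φ).smulRight φ

@[simp] lemma msq_apply (a : ℝ) (φ : Y 34 →L[ℝ] ℝ) (v w : Y 34) :
    msq a φ v w = a * (φ v * φ w) := by
  simp [msq, mul_assoc]

lemma msq_contDiff {a : Y 34 → ℝ} (h : ContDiff ℝ (⊤ : ℕ∞) a) (φ : Y 34 →L[ℝ] ℝ) :
    ContDiff ℝ (⊤ : ℕ∞) fun p => msq (a p) φ := by
  unfold msq
  exact (h.smul contDiff_const).smulRight contDiff_const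

/-- residual form `|v - φ(v) X|²` -/
noncomputable def Res (φ : Y 34 →L[ℝ] ℝ) (X : Y 34) : Form 34 :=
  ∑ i, sqf (e1 i - X.1 i • φ) + ∑ a, sqf (e2 a - X.2 a • φ)

lemma Res_apply (φ : Y 34 →L[ℝ] ℝ) (X v w : Y 34) :
    Res φ X v w = ∑ i, (v.1 i - X.1 i * φ v) * (w.1 i - X.1 i * φ w)
      + ∑ a, (v.2 a - X.2 a * φ v) * (w.2 a - X.2 a * φ w) := by
  simp [Res]

lemma Res_symm (φ : Y 34 →L[ℝ] ℝ) (X v w : Y 34) : Res φ X v w = Res φ X w v := by
  rw [Res_apply, Res_apply]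
  congr 1
  · exact Finset.sum_congr rfl fun i _ => mul_comm _ _
  · exact Finset.sum_congr rfl fun i _ => mul_comm _ _

lemma Res_nonneg (φ : Y 34 →L[ℝ] ℝ) (X v : Y 34) : 0 ≤ Res φ X v v := by
  rw [Res_apply]
  exact add_nonneg (Finset.sum_nonneg fun _ _ => mul_self_nonneg _)
    (Finset.sum_nonneg fun _ _ => mul_self_nonneg _)

lemma Res_zero_of {φ : Y 34 →L[ℝ] ℝ} {X v : Y 34} (h : v = φ v • X) : Res φ X v v = 0 := by
  rw [Res_apply]
  have h1 : ∀ i, v.1 i = φ v * X.1 i := fun i => congrFun (congrArg Prod.fst h) i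
  have h2 : ∀ i, v.2 i = φ v * X.2 i := fun i => congrFun (congrArg Prod.snd h) i
  rw [Finset.sum_eq_zero, Finset.sum_eq_zero, add_zero]
  · intro a _; rw [h2 a]; ring
  · intro a _; rw [h1 a]; ring

lemma sq_sum_eq_zero_of_Res {φ : Y 34 →L[ℝ] ℝ} {X v : Y 34} (h0 : φ v = 0)
    (h : Res φ X v v = 0) : v = 0 := by
  rw [Res_apply, h0] at h
  simp only [mul_zero, sub_zero] at h
  have h1 : 0 ≤ ∑ i, v.1 i * v.1 i := Finset.sum_nonneg fun _ _ => mul_self_nonneg _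
  have h2 : 0 ≤ ∑ i, v.2 i * v.2 i := Finset.sum_nonneg fun _ _ => mul_self_nonneg _
  have h3 : ∑ i, v.1 i * v.1 i = 0 := by linarith
  have h4 : ∑ i, v.2 i * v.2 i = 0 := by linarith
  rw [Finset.sum_eq_zero_iff_of_nonneg (fun _ _ => mul_self_nonneg _)] at h3 h4
  apply Prod.ext
  · funext i
    exact mul_self_eq_zero.1 (h3 i (Finset.mem_univ i))
  · funext i
    exact mul_self_eq_zero.1 (h4 i (Finset.mem_univ i))

/-- a form dominating the square of `φ` plus the residual is positive definite -/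
lemma pos_of_Res {φ : Y 34 →L[ℝ] ℝ} {X v : Y 34} (hv : v ≠ 0) :
    0 < φ v ^ 2 + Res φ X v v := by
  have h1 := Res_nonneg φ X v
  rcases h1.lt_or_eq with h | h
  · positivity
  · have : φ v ≠ 0 := fun h0 => hv (sq_sum_eq_zero_of_Res h0 h.symm)
    positivity

lemma Res_contDiff (φ : Y 34 →L[ℝ] ℝ) {X : Y 34 → Y 34} (h : ContDiff ℝ (⊤ : ℕ∞) X) :
    ContDiff ℝ (⊤ : ℕ∞) fun p => Res φ (X p) := by
  unfold Res
  apply ContDiff.add
  · apply ContDiff.sum
    intro i _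
    apply sqf_contDiff
    have h1 : ContDiff ℝ (⊤ : ℕ∞) fun p => (X p).1 i := (e1 i).contDiff.comp h
    exact contDiff_const.sub (h1.smul contDiff_const)
  · apply ContDiff.sum
    intro i _
    apply sqf_contDiff
    have h1 : ContDiff ℝ (⊤ : ℕ∞) fun p => (X p).2 i := (e2 i).contDiff.comp h
    exact contDiff_const.sub (h1.smul contDiff_const)

/-- the Euclidean form -/
noncomputable def B0 : Form 34 := Res (e1 0) 0

lemma B0_apply (v w : Y 34) : B0 v w = ∑ i, v.1 i * w.1 i + ∑ a, v.2 a * w.2 a := by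
  simp [B0, Res_apply]

lemma norm_sq_le_B0 (v : Y 34) : ‖v‖ ^ 2 ≤ B0 v v := by
  rw [B0_apply]
  have h1 : 0 ≤ ∑ i, v.1 i * v.1 i := Finset.sum_nonneg fun _ _ => mul_self_nonneg _
  have h2 : 0 ≤ ∑ i, v.2 i * v.2 i := Finset.sum_nonneg fun _ _ => mul_self_nonneg _
  have h3 : ‖v.1‖ ≤ √(∑ i, v.1 i * v.1 i) := by
    rw [pi_norm_le_iff_of_nonneg (Real.sqrt_nonneg _)]
    intro i
    apply Real.le_sqrt_of_sq_le
    rw [Real.norm_eq_abs, sq_abs, sq]
    exact Finset.single_le_sum (f := fun i => v.1 i * v.1 i) (fun _ _ => mul_self_nonneg _)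
      (Finset.mem_univ i)
  have h4 : ‖v.2‖ ≤ √(∑ i, v.2 i * v.2 i) := by
    rw [pi_norm_le_iff_of_nonneg (Real.sqrt_nonneg _)]
    intro i
    apply Real.le_sqrt_of_sq_le
    rw [Real.norm_eq_abs, sq_abs, sq]
    exact Finset.single_le_sum (f := fun i => v.2 i * v.2 i) (fun _ _ => mul_self_nonneg _)
      (Finset.mem_univ i)
  have h5 : ‖v‖ ≤ √(∑ i, v.1 i * v.1 i + ∑ i, v.2 i * v.2 i) := by
    rw [Prod.norm_def, max_le_iff]
    exact ⟨h3.trans (Real.sqrt_le_sqrt (by linarith)), h4.trans (Real.sqrt_le_sqrt (by linarith))⟩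
  calc ‖v‖ ^ 2 ≤ √(∑ i, v.1 i * v.1 i + ∑ i, v.2 i * v.2 i) ^ 2 :=
        pow_le_pow_left₀ (norm_nonneg _) h5 2
    _ = _ := Real.sq_sqrt (by positivity)

/-- multiples of the Euclidean form -/
noncomputable def BB (c : ℝ) : Form 34 := ∑ i, msq c (e1 i) + ∑ a, msq c (e2 a)

lemma BB_apply (c : ℝ) (v w : Y 34) : BB c v w = c * B0 v w := by
  rw [B0_apply]
  simp [BB, Finset.mul_sum, mul_add]

lemma BB_contDiff {c : Y 34 → ℝ} (h : ContDiff ℝ (⊤ : ℕ∞) c) :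
    ContDiff ℝ (⊤ : ℕ∞) fun p => BB (c p) := by
  unfold BB
  exact (ContDiff.sum fun i _ => msq_contDiff h _).add (ContDiff.sum fun i _ => msq_contDiff h _)

/-- weights as function on `Fin 34` -/
noncomputable def lam (i : Fin 2) (a : Fin 34) : ℝ := lamx i (lab.symm a)

/-- the tangential quadratic field -/
noncomputable def VV (i : Fin 2) (s : Fin 34 → ℝ) : Fin 34 → ℝ := fun a =>
  lam i a * s a - (∑ b, lam i b * s b ^ 2) * s a

/-- the field near the lines of type `i` -/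
noncomputable def Xl (i : Fin 2) (p : Y 34) : Y 34 := (Pi.single i 1, VV i p.2)

lemma Xl_contDiff (i : Fin 2) : ContDiff ℝ (⊤ : ℕ∞) (Xl i) := by
  apply ContDiff.prodMk contDiff_const
  rw [contDiff_pi]
  intro a
  unfold VV
  fun_prop

/-- the form near the lines -/
noncomputable def Gline (i : Fin 2) (p : Y 34) : Form 34 := sqf (e1 i) + Res (e1 i) (Xl i p)

lemma Gline_contDiff (i : Fin 2) : ContDiff ℝ (⊤ : ℕ∞) (Gline i) :=
  contDiff_const.add (Res_contDiff _ (Xl_contDiff i))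

lemma Gline_apply (i : Fin 2) (p v : Y 34) :
    Gline i p v v = v.1 i ^ 2 + Res (e1 i) (Xl i p) v v := by
  simp [Gline, sq]

/-- parameter function of a half curve -/
noncomputable def rh (i : Fin 2) (τ : Sg) (g : Fin 2 → ℤ) (p : Y 34) : ℝ :=
  sg (τ i) * (p.1 i - g i) + 1 / 2

/-- the form near a half curve -/
noncomputable def Ghalf (β : ℝ → Y 34) (i : Fin 2) (τ : Sg) (g : Fin 2 → ℤ) (p : Y 34) : Form 34 :=
  msq (1 + deriv SS (p.1 (i + 1)) * cc (rh i τ g p)) (e1 i)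
  + msq ((1 + deriv SS (p.1 (i + 1)) * cc (rh i τ g p)) *
    (deriv SS (p.1 (i + 1)) / cc (rh i τ g p))) (e1 (i + 1))
  + Res (e1 i) (sg (τ i) • deriv β (rh i τ g p))

lemma Ghalf_apply (β : ℝ → Y 34) (i : Fin 2) (τ : Sg) (g : Fin 2 → ℤ) (p v : Y 34) :
    Ghalf β i τ g p v v = (1 + deriv SS (p.1 (i + 1)) * cc (rh i τ g p)) *
      (v.1 i ^ 2 + deriv SS (p.1 (i + 1)) / cc (rh i τ g p) * v.1 (i + 1) ^ 2)
      + Res (e1 i) (sg (τ i) • deriv β (rh i τ g p)) v v := by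
  simp only [Ghalf, _root_.add_apply, msq_apply, e1_apply]
  ring

lemma HC.Ghalf_contDiff {β : ℝ → Y 34} {i : Fin 2} {τ : Sg} {g : Fin 2 → ℤ}
    (h : HC β i τ g) : ContDiff ℝ (⊤ : ℕ∞) (Ghalf β i τ g) := by
  have h1 : ContDiff ℝ (⊤ : ℕ∞) (rh i τ g) := by unfold rh; fun_prop
  have h2 : ContDiff ℝ (⊤ : ℕ∞) fun p : Y 34 => deriv SS (p.1 (i + 1)) :=
    SS_deriv_contDiff.comp (by fun_prop)
  have h3 : ContDiff ℝ (⊤ : ℕ∞) fun p : Y 34 => cc (rh i τ g p) := cc_contDiff.comp h1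
  have h4 : ContDiff ℝ (⊤ : ℕ∞) (deriv β) := (contDiff_infty_iff_deriv.1 h.smooth).2
  have h5 : ContDiff ℝ (⊤ : ℕ∞) fun p : Y 34 => sg (τ i) • deriv β (rh i τ g p) :=
    (h4.comp h1).const_smul _
  unfold Ghalf
  have h6 : ContDiff ℝ (⊤ : ℕ∞) fun p : Y 34 =>
      1 + deriv SS (p.1 (i + 1)) * cc (rh i τ g p) := contDiff_const.add (h2.mul h3)
  exact ((msq_contDiff h6 _).add (msq_contDiff (h6.mul (h2.div h3 (fun p => (cc_pos _).ne')))
    _)).add (Res_contDiff _ h5)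

/-- the algebraic inequality behind the half curve form -/
lemma alg_ineq {S c A B e e' : ℝ} (hS : 0 ≤ S) (hc : 0 < c) (he : e * e = 1) (he' : e' * e' = 1) :
    (e * A + e' * (S * B)) ^ 2 ≤ (1 + S * c) * (A ^ 2 + S / c * B ^ 2) := by
  have h : (1 + S * c) * (A ^ 2 + S / c * B ^ 2) - (e * A + e' * (S * B)) ^ 2
      = S / c * (c * A - e * e' * B) ^ 2 := by
    field_simp
    have e2 : e ^ 2 = 1 := by rw [sq]; exact he
    have e2' : e' ^ 2 = 1 := by rw [sq]; exact he'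
    ring_nf
    rw [e2, e2']
    ring
  have h2 : 0 ≤ S / c * (c * A - e * e' * B) ^ 2 := by positivity
  linarith

/-- the constraint sets -/
def TT (p : Y 34) : Set (Form 34) := {B |
  (∀ v w, B v w = B w v) ∧ (∀ v, v ≠ 0 → 0 < B v v) ∧
  (∀ (σ : Sg) v, (fderiv ℝ (uu aa σ) p v) ^ 2 ≤ B v v) ∧
  (∀ i x m, p = lin i x m → B (Pi.single i 1, 0) (Pi.single i 1, 0) ≤ 1) ∧
  (∀ k r g, p = gam k r + lat g → B (deriv (gam k) r) (deriv (gam k) r)
    ≤ (fderiv ℝ (uu aa k.2.2) p (deriv (gam k) r)) ^ 2)}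

lemma TT_convex (p : Y 34) : Convex ℝ (TT p) := by
  intro B hB B' hB' a b ha hb hab
  have happ : ∀ v w, (a • B + b • B') v w = a * B v w + b * B' v w := by
    intro v w; simp
  refine ⟨?_, ?_, ?_, ?_, ?_⟩
  · intro v w
    rw [happ, happ, hB.1 v w, hB'.1 v w]
  · intro v hv
    rw [happ]
    have h1 := hB.2.1 v hv
    have h2 := hB'.2.1 v hv
    rcases ha.lt_or_eq with h | h
    · have := mul_pos h h1
      have := mul_nonneg hb h2.le
      linarith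
    · rw [← h] at hab ⊢
      have : b = 1 := by linarith
      rw [this]
      linarith
  · intro σ v
    rw [happ]
    have h1 := hB.2.2.1 σ v
    have h2 := hB'.2.2.1 σ v
    calc (fderiv ℝ (uu aa σ) p v) ^ 2 = a * (fderiv ℝ (uu aa σ) p v) ^ 2
          + b * (fderiv ℝ (uu aa σ) p v) ^ 2 := by rw [← add_mul, hab, one_mul]
      _ ≤ _ := by gcongr
  · intro i x m h
    rw [happ]
    have h1 := hB.2.2.2.1 i x m h
    have h2 := hB'.2.2.2.1 i x m h
    calc _ ≤ a * 1 + b * 1 := by gcongr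
      _ = 1 := by rw [← add_mul, hab, one_mul]
  · intro k r g h
    rw [happ]
    have h1 := hB.2.2.2.2 k r g h
    have h2 := hB'.2.2.2.2 k r g h
    calc _ ≤ a * (fderiv ℝ (uu aa k.2.2) p (deriv (gam k) r)) ^ 2
          + b * (fderiv ℝ (uu aa k.2.2) p (deriv (gam k) r)) ^ 2 := by gcongr
      _ = _ := by rw [← add_mul, hab, one_mul]

lemma lin_add_lat (i : Fin 2) (x : ℝ) (m : ℤ) (g : Fin 2 → ℤ) :
    lin i x m + lat g = lin i (x + g i) (m + g (i + 1)) := by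
  apply Prod.ext
  · funext l
    rcases eq_or_eq_add_one i l with h | h
    · simp [lin, lat, h]
    · simp [lin, lat, h]
  · simp [lin, lat]

lemma TT_add_lat_sub (p : Y 34) (g : Fin 2 → ℤ) : TT p ⊆ TT (p + lat g) := by
  intro B hB
  refine ⟨hB.1, hB.2.1, ?_, ?_, ?_⟩
  · intro σ v
    rw [fderiv_uu_lat]
    exact hB.2.2.1 σ v
  · intro i x m h
    apply hB.2.2.2.1 i (x + (-g) i) (m + (-g) (i + 1))
    rw [← lin_add_lat, ← h, lat_neg]
    abel
  · intro k r g' h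
    rw [fderiv_uu_lat]
    apply hB.2.2.2.2 k r (g' + (-g))
    rw [lat_add, ← add_assoc, ← h, lat_neg]
    abel

lemma TT_add_lat (p : Y 34) (g : Fin 2 → ℤ) : TT (p + lat g) = TT p := by
  apply Subset.antisymm _ (TT_add_lat_sub p g)
  have := TT_add_lat_sub (p + lat g) (-g)
  rwa [lat_neg, add_neg_cancel_right] at this

end Pool.Agent.W535.MG
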