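import Mathlib

/-!
Auxiliary real functions.
-/

namespace Pool.Agent.W535.MG

open Filter Topology Set
open Real (smoothTransition)

/-- bump times identity -/
noncomputable def psi (y : ℝ) : ℝ := y * smoothTransition (9 / 8 - 8 * y ^ 2)

lemma psi_zero {y : ℝ} (h : 3 / 8 ≤ |y|) : psi y = 0 := by
  unfold psi
  rw [smoothTransition.zero_of_nonpos, mul_zero]
  have : (3 / 8 : ℝ) ^ 2 ≤ y ^ 2 := by
    rw [← sq_abs y]
    exact pow_le_pow_left₀ (by norm_num) h 2
  linarith

lemma psi_id {y : ℝ} (h : |y| ≤ 1 / 8) : psi y = y := by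
  unfold psi
  rw [smoothTransition.one_of_one_le, mul_one]
  have : y ^ 2 ≤ (1 / 8 : ℝ) ^ 2 := by
    rw [← sq_abs y]
    exact pow_le_pow_left₀ (abs_nonneg _) h 2
  linarith

lemma psi_neg (y : ℝ) : psi (-y) = - psi y := by
  unfold psi
  rw [neg_sq]; ring

lemma abs_psi_le (y : ℝ) : |psi y| ≤ |y| := by
  unfold psi
  rw [abs_mul]
  have h1 := smoothTransition.nonneg (9 / 8 - 8 * y ^ 2)
  have h2 := smoothTransition.le_one (9 / 8 - 8 * y ^ 2)
  rw [abs_of_nonneg h1]
  exact mul_le_of_le_one_right (abs_nonneg _) h2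

lemma sT_contDiff {m : ℕ∞} : ContDiff ℝ m smoothTransition := smoothTransition.contDiff

lemma psi_contDiff : ContDiff ℝ (⊤ : ℕ∞) psi := by
  unfold psi
  exact contDiff_id.mul (sT_contDiff.comp (contDiff_const.sub (contDiff_const.mul (contDiff_id.pow 2))))

/-- the smooth staircase -/
noncomputable def SS (x : ℝ) : ℝ := x - psi (x - round x)

lemma SS_loc {x : ℝ} {n : ℤ} (h : |x - n| ≤ 5 / 8) : SS x = x - psi (x - n) := by
  rw [abs_le] at h
  unfold SS
  rcases lt_or_ge (x - n) (-(1 / 2)) with h1 | h1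
  · have hr : round x = n - 1 := by
      rw [round_eq_iff]
      push_cast
      constructor <;> linarith
    rw [hr, psi_zero, psi_zero]
    · rw [abs_of_nonpos (by linarith)]; linarith
    · push_cast
      rw [abs_of_nonneg (by linarith)]; linarith
  · rcases lt_or_ge (x - n) (1 / 2) with h2 | h2
    · have hr : round x = n := by
        rw [round_eq_iff]
        constructor <;> linarith
      rw [hr]
    · have hr : round x = n + 1 := by
        rw [round_eq_iff]
        push_cast
        constructor <;> linarith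
      rw [hr, psi_zero, psi_zero]
      · rw [abs_of_nonneg (by linarith)]; linarith
      · push_cast
        rw [abs_of_nonpos (by linarith)]; linarith

lemma SS_add_int (x : ℝ) (n : ℤ) : SS (x + n) = SS x + n := by
  unfold SS
  rw [round_add_intCast]
  push_cast
  rw [add_sub_add_right_eq_sub]; ring

lemma SS_neg (x : ℝ) : SS (-x) = - SS x := by
  have h1 : |x - round x| ≤ 5 / 8 := (abs_sub_round x).trans (by norm_num)
  have h2 : |-x - ((-round x : ℤ) : ℝ)| ≤ 5 / 8 := by
    push_cast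
    rw [← abs_neg]
    convert h1 using 2
    ring
  rw [SS_loc h1, SS_loc h2]
  push_cast
  have : -x - -(round x : ℝ) = -(x - round x) := by ring
  rw [this, psi_neg]; ring

lemma SS_flat {x : ℝ} {n : ℤ} (h : |x - n| ≤ 1 / 8) : SS x = n := by
  rw [SS_loc (h.trans (by norm_num)), psi_id h]; ring

lemma SS_id {x : ℝ} {n : ℤ} (h1 : 3 / 8 ≤ |x - n|) (h2 : |x - n| ≤ 5 / 8) : SS x = x := by
  rw [SS_loc h2, psi_zero h1, sub_zero]

lemma abs_SS_sub (x : ℝ) : |SS x - x| ≤ 1 := by
  unfold SS
  have : x - psi (x - round x) - x = - psi (x - round x) := by ring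
  rw [this, abs_neg]
  exact ((abs_psi_le _).trans (abs_sub_round x)).trans (by norm_num)

lemma SS_eventually (x₀ : ℝ) : ∀ᶠ x in 𝓝 x₀, SS x = x - psi (x - round x₀) := by
  have h1 : |x₀ - round x₀| < 5 / 8 := (abs_sub_round x₀).trans_lt (by norm_num)
  have h2 : ∀ᶠ x : ℝ in 𝓝 x₀, |x - (round x₀ : ℝ)| < 5 / 8 := by
    apply Filter.Tendsto.eventually_lt_const h1
    exact Continuous.tendsto (by fun_prop) _
  exact h2.mono fun x hx => SS_loc hx.le

lemma SS_contDiff : ContDiff ℝ (⊤ : ℕ∞) SS := by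
  rw [contDiff_iff_contDiffAt]
  intro x₀
  have h1 : ContDiffAt ℝ (⊤ : ℕ∞) (fun x => x - psi (x - round x₀)) x₀ :=
    (contDiff_id.sub (psi_contDiff.comp (contDiff_id.sub contDiff_const))).contDiffAt
  exact h1.congr_of_eventuallyEq (SS_eventually x₀)

lemma sT_deriv_nonneg (x : ℝ) : 0 ≤ deriv smoothTransition x :=
  smoothTransition.monotone.deriv_nonneg

lemma SS_deriv_nonneg (x₀ : ℝ) : 0 ≤ deriv SS x₀ := by
  have h1 : deriv SS x₀ = deriv (fun x => x - psi (x - round x₀)) x₀ :=
    Filter.EventuallyEq.deriv_eq (SS_eventually x₀)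
  rw [h1]
  set y := x₀ - round x₀ with hy
  have h2 : HasDerivAt smoothTransition (deriv smoothTransition (9 / 8 - 8 * y ^ 2))
      (9 / 8 - 8 * y ^ 2) :=
    ((sT_contDiff (m := 1)).differentiable (by norm_num) _).hasDerivAt
  have h3 : HasDerivAt (fun x : ℝ => 9 / 8 - 8 * (x - round x₀) ^ 2) (-(16 * y)) x₀ := by
    have := ((((hasDerivAt_id x₀).sub_const (round x₀ : ℝ)).pow 2).const_mul 8).const_sub (9 / 8)
    refine this.congr_deriv ?_
    simp only [id, hy, Nat.cast_ofNat, Nat.add_one_sub_one, pow_one, mul_one]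
    ring
  have h4 : HasDerivAt (fun x : ℝ => smoothTransition (9 / 8 - 8 * (x - round x₀) ^ 2))
      (deriv smoothTransition (9 / 8 - 8 * y ^ 2) * (-(16 * y))) x₀ := by
    have := HasDerivAt.comp x₀ (show HasDerivAt smoothTransition
      (deriv smoothTransition (9 / 8 - 8 * y ^ 2))
      ((fun x : ℝ => 9 / 8 - 8 * (x - round x₀) ^ 2) x₀) from h2) h3
    exact this
  have h5 : HasDerivAt (fun x : ℝ => x - (x - round x₀) *
      smoothTransition (9 / 8 - 8 * (x - round x₀) ^ 2))
      (1 - (1 * smoothTransition (9 / 8 - 8 * y ^ 2)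
        + y * (deriv smoothTransition (9 / 8 - 8 * y ^ 2) * (-(16 * y))))) x₀ :=
    (hasDerivAt_id x₀).sub (((hasDerivAt_id x₀).sub_const _).mul h4)
  have h6 : deriv (fun x => x - psi (x - round x₀)) x₀ = _ := h5.deriv
  rw [h6]
  have h7 := smoothTransition.le_one (9 / 8 - 8 * y ^ 2)
  have h8 := sT_deriv_nonneg (9 / 8 - 8 * y ^ 2)
  nlinarith [mul_nonneg h8 (sq_nonneg y)]

lemma SS_deriv_flat {x : ℝ} {n : ℤ} (h : |x - n| < 1 / 8) : deriv SS x = 0 := by
  have h1 : SS =ᶠ[𝓝 x] fun _ => (n : ℝ) := by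
    have : ∀ᶠ y : ℝ in 𝓝 x, |y - (n : ℝ)| < 1 / 8 := by
      apply Filter.Tendsto.eventually_lt_const h
      exact Continuous.tendsto (by fun_prop) _
    exact this.mono fun y hy => SS_flat hy.le
  rw [h1.deriv_eq, deriv_const]

lemma SS_deriv_contDiff : ContDiff ℝ (⊤ : ℕ∞) (deriv SS) := by
  have := SS_contDiff
  exact (contDiff_infty_iff_deriv.1 this).2

lemma SS_deriv_add_int (x : ℝ) (n : ℤ) : deriv SS (x + n) = deriv SS x := by
  have h1 : deriv (fun y => SS (y + n)) x = deriv SS (x + n) := deriv_comp_add_const SS n x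
  rw [← h1]
  have h2 : (fun y => SS (y + n)) = fun y => SS y + n := by
    funext y; exact SS_add_int y n
  rw [h2, deriv_add_const]

lemma SS_deriv_neg (x : ℝ) : deriv SS (-x) = deriv SS x := by
  have h1 : deriv (fun y => SS (-y)) x = - deriv SS (-x) := deriv_comp_neg SS x
  have h2 : (fun y => SS (-y)) = fun y => - SS y := by
    funext y; exact SS_neg y
  rw [h2] at h1
  have h3 : deriv (fun y => - SS y) x = - deriv SS x := deriv.fun_neg
  rw [h3] at h1
  linarith

/-- first coordinate profile -/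
noncomputable def EE (r : ℝ) : ℝ := (r + 1 / 2) * smoothTransition (4 * r + 2)

lemma EE_zero {r : ℝ} (h : r ≤ -(1 / 2)) : EE r = 0 := by
  unfold EE
  rw [smoothTransition.zero_of_nonpos (by linarith), mul_zero]

lemma EE_lin {r : ℝ} (h : -(1 / 4) ≤ r) : EE r = r + 1 / 2 := by
  unfold EE
  rw [smoothTransition.one_of_one_le (by linarith), mul_one]

lemma EE_contDiff : ContDiff ℝ (⊤ : ℕ∞) EE := by
  unfold EE
  exact (contDiff_id.add contDiff_const).mul
    (sT_contDiff.comp ((contDiff_const.mul contDiff_id).add contDiff_const))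

lemma EE_hasDerivAt (r : ℝ) : HasDerivAt EE
    (1 * smoothTransition (4 * r + 2) + (r + 1 / 2) * (deriv smoothTransition (4 * r + 2) * (4 * 1)))
    r := by
  have h2 : HasDerivAt smoothTransition (deriv smoothTransition (4 * r + 2)) (4 * r + 2) :=
    ((sT_contDiff (m := 1)).differentiable (by norm_num) _).hasDerivAt
  have h3 : HasDerivAt (fun r : ℝ => 4 * r + 2) (4 * 1) r :=
    ((hasDerivAt_id r).const_mul 4).add_const 2
  have h4 := HasDerivAt.comp r (show HasDerivAt smoothTransition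
    (deriv smoothTransition (4 * r + 2)) ((fun r : ℝ => 4 * r + 2) r) from h2) h3
  exact ((hasDerivAt_id r).add_const (1 / 2 : ℝ)).mul h4

lemma EE_mono : Monotone EE := by
  intro r r' h
  rcases le_total r (-(1 / 2)) with h1 | h1
  · rw [EE_zero h1]
    rcases le_total r' (-(1 / 2)) with h2 | h2
    · rw [EE_zero h2]
    · exact mul_nonneg (by linarith) (smoothTransition.nonneg _)
  · unfold EE
    apply mul_le_mul (by linarith) (smoothTransition.monotone (by linarith))
      (smoothTransition.nonneg _) (by linarith)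

lemma EE_deriv_nonneg (r : ℝ) : 0 ≤ deriv EE r := EE_mono.deriv_nonneg

lemma EE_deriv_pos {r : ℝ} (h : -(1 / 2) < r) : 0 < deriv EE r := by
  rw [(EE_hasDerivAt r).deriv]
  have h1 := smoothTransition.pos_of_pos (show 0 < 4 * r + 2 by linarith)
  have h2 := sT_deriv_nonneg (4 * r + 2)
  have h3 : 0 ≤ (r + 1 / 2) * (deriv smoothTransition (4 * r + 2) * (4 * 1)) :=
    mul_nonneg (by linarith) (by linarith)
  linarith

lemma EE_deriv_contDiff : ContDiff ℝ (⊤ : ℕ∞) (deriv EE) :=
  (contDiff_infty_iff_deriv.1 EE_contDiff).2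

lemma EE_nonneg (r : ℝ) : 0 ≤ EE r := by
  rcases le_total r (-(1 / 2)) with h1 | h1
  · rw [EE_zero h1]
  · exact mul_nonneg (by linarith) (smoothTransition.nonneg _)

lemma EE_small {r : ℝ} (h : r < -(3 / 8)) : EE r < 1 / 8 := by
  rcases le_total r (-(1 / 2)) with h1 | h1
  · rw [EE_zero h1]; norm_num
  · unfold EE
    have h2 := smoothTransition.le_one (4 * r + 2)
    have h3 := smoothTransition.nonneg (4 * r + 2)
    nlinarith

/-- positive modification of `deriv EE` -/
noncomputable def cc (r : ℝ) : ℝ := deriv EE r + smoothTransition (-8 * r - 3)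

lemma cc_pos (r : ℝ) : 0 < cc r := by
  unfold cc
  rcases lt_or_ge (-(1 / 2)) r with h | h
  · have := EE_deriv_pos h
    have := smoothTransition.nonneg (-8 * r - 3)
    linarith
  · have := EE_deriv_nonneg r
    have := smoothTransition.pos_of_pos (show 0 < -8 * r - 3 by linarith)
    linarith

lemma cc_eq {r : ℝ} (h : -(3 / 8) ≤ r) : cc r = deriv EE r := by
  unfold cc
  rw [smoothTransition.zero_of_nonpos (by linarith), add_zero]

lemma cc_contDiff : ContDiff ℝ (⊤ : ℕ∞) cc := by
  unfold cc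
  exact EE_deriv_contDiff.add
    (sT_contDiff.comp ((contDiff_const.mul contDiff_id).sub contDiff_const))

lemma SS_deriv_EE {r : ℝ} (h : r < -(3 / 8)) : deriv SS (EE r) = 0 := by
  apply SS_deriv_flat (n := 0)
  rw [Int.cast_zero, sub_zero, abs_of_nonneg (EE_nonneg r)]
  exact EE_small h

/-- transition in the sphere factor -/
noncomputable def kap (r : ℝ) : ℝ := smoothTransition (8 * r + 1 / 2)

lemma kap_zero {r : ℝ} (h : r ≤ -(1 / 16)) : kap r = 0 :=
  smoothTransition.zero_of_nonpos (by linarith)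

lemma kap_one {r : ℝ} (h : 1 / 16 ≤ r) : kap r = 1 :=
  smoothTransition.one_of_one_le (by linarith)

lemma kap_pos {r : ℝ} (h : -(1 / 16) < r) : 0 < kap r :=
  smoothTransition.pos_of_pos (by linarith)

lemma kap_nonneg (r : ℝ) : 0 ≤ kap r := smoothTransition.nonneg _

lemma kap_contDiff : ContDiff ℝ (⊤ : ℕ∞) kap :=
  sT_contDiff.comp ((contDiff_const.mul contDiff_id).add contDiff_const)

/-- cutoff near a pole -/
noncomputable def thet (x : ℝ) : ℝ := smoothTransition (10 * x - 5)

lemma thet_zero {x : ℝ} (h : x ≤ 1 / 2) : thet x = 0 :=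
  smoothTransition.zero_of_nonpos (by linarith)

lemma thet_one {x : ℝ} (h : 3 / 5 ≤ x) : thet x = 1 :=
  smoothTransition.one_of_one_le (by linarith)

lemma thet_mem (x : ℝ) : 0 ≤ thet x ∧ thet x ≤ 1 :=
  ⟨smoothTransition.nonneg _, smoothTransition.le_one _⟩

lemma thet_contDiff : ContDiff ℝ (⊤ : ℕ∞) thet :=
  sT_contDiff.comp ((contDiff_const.mul contDiff_id).sub contDiff_const)

end Pool.Agent.W535.MG
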