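import Pool.Agent.W535.MG.Defs

/-!
Elementary metric geometry of periodic Riemannian metrics on `ℝ² × S^(n-1)`.
-/

namespace Pool.Agent.W535.MG

open Filter Topology Set

variable {n : ℕ}

/-- Periodic metrics which are positive definite on the ambient space. -/
structure PMet (n : ℕ) where
  G : Y n → Form n
  smooth : ContDiff ℝ (⊤ : ℕ∞) G
  symm : ∀ p v w, G p v w = G p w v
  pos : ∀ p v, v ≠ 0 → 0 < G p v v
  per : ∀ p g, G (p + lat g) = G p

lemma cover_add_lat {p : Y n} (g : Fin 2 → ℤ) : p + lat g ∈ Cover n ↔ p ∈ Cover n := by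
  simp [Cover, lat]

lemma lat_add (g h : Fin 2 → ℤ) : (lat (g + h) : Y n) = lat g + lat h := by
  ext i <;> simp [lat]

lemma lat_zero : (lat 0 : Y n) = 0 := by
  ext i <;> simp [lat]

lemma lat_neg (g : Fin 2 → ℤ) : (lat (-g) : Y n) = - lat g := by
  ext i <;> simp [lat]

lemma isClosed_cover : IsClosed (Cover n) := by
  apply isClosed_eq
  · fun_prop
  · fun_prop

namespace PMet

variable (M : PMet n)

lemma cont : Continuous M.G := M.smooth.continuous

lemma nonneg (p v : Y n) : 0 ≤ M.G p v v := by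
  by_cases h : v = 0
  · simp [h]
  · exact (M.pos p v h).le

lemma speed_cont {γ : ℝ → Y n} (hγ : ContDiff ℝ 1 γ) :
    Continuous fun t => √(M.G (γ t) (deriv γ t) (deriv γ t)) := by
  have h1 : Continuous (deriv γ) := hγ.continuous_deriv le_rfl
  have h2 : Continuous γ := hγ.continuous
  exact Real.continuous_sqrt.comp (((M.cont.comp h2).clm_apply h1).clm_apply h1)

lemma mem_of_hasPL {p q : Y n} {L : ℝ} (h : HasPL M.G p q L) : p ∈ Cover n ∧ q ∈ Cover n := by
  induction h with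
  | arc γ a b hab hγ hmem => exact ⟨hmem a ⟨le_rfl, hab⟩, hmem b ⟨hab, le_rfl⟩⟩
  | comp _ _ h1 h2 => exact ⟨h1.1, h2.2⟩

lemma len_nonneg {p q : Y n} {L : ℝ} (h : HasPL M.G p q L) : 0 ≤ L := by
  induction h with
  | arc γ a b hab hγ hmem =>
    exact intervalIntegral.integral_nonneg hab fun t _ => Real.sqrt_nonneg _
  | comp _ _ h1 h2 => exact add_nonneg h1 h2

/-- calibration -/
lemma calib {f : Y n → ℝ} (hf : ContDiff ℝ 1 f)
    (h : ∀ p ∈ Cover n, ∀ v, (fderiv ℝ f p v) ^ 2 ≤ M.G p v v) {p q : Y n} {L : ℝ}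
    (hL : HasPL M.G p q L) : f q - f p ≤ L := by
  induction hL with
  | arc γ a b hab hγ hmem =>
    have hd : ∀ t, HasDerivAt (fun t => f (γ t)) (fderiv ℝ f (γ t) (deriv γ t)) t := by
      intro t
      have h1 : HasFDerivAt f (fderiv ℝ f (γ t)) (γ t) :=
        ((hf.differentiable one_ne_zero) (γ t)).hasFDerivAt
      have h2 : HasDerivAt γ (deriv γ t) t := ((hγ.differentiable one_ne_zero) t).hasDerivAt
      exact h1.comp_hasDerivAt t h2
    have hcont : Continuous fun t => fderiv ℝ f (γ t) (deriv γ t) :=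
      ((hf.continuous_fderiv one_ne_zero).comp hγ.continuous).clm_apply
        (hγ.continuous_deriv le_rfl)
    have h3 : ∫ t in a..b, fderiv ℝ f (γ t) (deriv γ t) = f (γ b) - f (γ a) :=
      intervalIntegral.integral_eq_sub_of_hasDerivAt (fun t _ => hd t)
        (hcont.intervalIntegrable a b)
    rw [← h3]
    apply intervalIntegral.integral_mono_on hab (hcont.intervalIntegrable a b)
      ((M.speed_cont hγ).intervalIntegrable a b)
    intro t ht
    exact Real.le_sqrt_of_sq_le (h (γ t) (hmem t ht) (deriv γ t))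
  | comp _ _ h1 h2 => linarith

lemma reverse {p q : Y n} {L : ℝ} (h : HasPL M.G p q L) : HasPL M.G q p L := by
  induction h with
  | arc γ a b hab hγ hmem =>
    have h1 := HasPL.arc (G := M.G) (fun t => γ (-t)) (-b) (-a) (by linarith)
      (hγ.comp contDiff_neg) (by
        intro t ht
        exact hmem (-t) ⟨by linarith [ht.2], by linarith [ht.1]⟩)
    simp only [neg_neg] at h1
    convert h1 using 1
    have h2 : ∀ t, deriv (fun t => γ (-t)) t = - deriv γ (-t) := fun t => deriv_comp_neg γ t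
    simp only [h2]
    have h3 := intervalIntegral.integral_comp_neg (a := -b) (b := -a)
      (fun t => √(M.G (γ t) (deriv γ t) (deriv γ t)))
    simp only [neg_neg] at h3
    rw [← h3]
    apply intervalIntegral.integral_congr
    intro t _
    simp
  | comp _ _ h1 h2 =>
    rw [add_comm]
    exact HasPL.comp h2 h1

lemma translate (g : Fin 2 → ℤ) {p q : Y n} {L : ℝ} (h : HasPL M.G p q L) :
    HasPL M.G (p + lat g) (q + lat g) L := by
  induction h with
  | arc γ a b hab hγ hmem =>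
    have h1 := HasPL.arc (G := M.G) (fun t => γ t + lat g) a b hab
      (hγ.add contDiff_const) (by
        intro t ht
        rw [cover_add_lat]
        exact hmem t ht)
    simp only [deriv_add_const, M.per] at h1
    exact h1
  | comp _ _ h1 h2 => exact HasPL.comp h1 h2

/-- the compact fundamental domain -/
def dom (n : ℕ) : Set (Y n) := {p | p ∈ Cover n ∧ ∀ i, p.1 i ∈ Icc (0 : ℝ) 1}

lemma abs_le_one_of_cover {p : Y n} (hp : p ∈ Cover n) (a : Fin n) : |p.2 a| ≤ 1 := by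
  rw [← sq_le_one_iff_abs_le_one, ← (show ∑ a, p.2 a ^ 2 = 1 from hp)]
  exact Finset.single_le_sum (f := fun a => p.2 a ^ 2) (fun a _ => sq_nonneg _)
    (Finset.mem_univ a)

lemma isCompact_slab (R : ℝ) : IsCompact {p : Y n | p ∈ Cover n ∧ ∀ i, |p.1 i| ≤ R} := by
  have hcl : IsClosed {p : Y n | p ∈ Cover n ∧ ∀ i, |p.1 i| ≤ R} := by
    have h1 : IsClosed {p : Y n | ∀ i, |p.1 i| ≤ R} := by
      have : {p : Y n | ∀ i, |p.1 i| ≤ R} = ⋂ i, {p : Y n | |p.1 i| ≤ R} := by
        ext p; simp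
      rw [this]
      apply isClosed_iInter
      intro i
      apply isClosed_le
      · fun_prop
      · fun_prop
    exact isClosed_cover.inter h1
  apply Metric.isCompact_of_isClosed_isBounded hcl
  rw [isBounded_iff_forall_norm_le]
  refine ⟨max (max R 1) 0, ?_⟩
  rintro p ⟨hp, hp1⟩
  rw [Prod.norm_def, max_le_iff]
  constructor
  · rw [pi_norm_le_iff_of_nonneg (le_max_right _ _)]
    intro i
    exact (hp1 i).trans ((le_max_left _ _).trans (le_max_left _ _))
  · rw [pi_norm_le_iff_of_nonneg (le_max_right _ _)]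
    intro a
    exact (abs_le_one_of_cover hp a).trans ((le_max_right _ _).trans (le_max_left _ _))

lemma exists_trans (p : Y n) : ∃ g : Fin 2 → ℤ, ∀ i, |(p + lat g).1 i| ≤ 1 := by
  refine ⟨fun i => -⌊p.1 i⌋, fun i => ?_⟩
  have h1 := Int.floor_le (p.1 i)
  have h2 := Int.lt_floor_add_one (p.1 i)
  simp only [lat, Prod.fst_add, Pi.add_apply, Int.cast_neg]
  rw [abs_le]
  constructor <;> linarith

lemma exists_upper : ∃ B : ℝ, 0 < B ∧ ∀ p ∈ Cover n, ∀ v, M.G p v v ≤ B * ‖v‖ ^ 2 := by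
  obtain ⟨B, hB⟩ := (isCompact_slab (n := n) 1).exists_bound_of_continuousOn
    (f := M.G) M.cont.continuousOn
  refine ⟨max B 1, lt_max_of_lt_right one_pos, fun p hp v => ?_⟩
  obtain ⟨g, hg⟩ := exists_trans p
  have h1 := hB (p + lat g) ⟨(cover_add_lat g).2 hp, hg⟩
  rw [M.per] at h1
  have h2 : M.G p v v ≤ ‖M.G p‖ * ‖v‖ * ‖v‖ :=
    (le_abs_self _).trans ((M.G p).le_opNorm₂ v v)
  have h3 : ‖M.G p‖ ≤ max B 1 := h1.trans (le_max_left _ _)
  have h4 : ‖M.G p‖ * ‖v‖ * ‖v‖ ≤ max B 1 * ‖v‖ ^ 2 := by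
    rw [mul_assoc, ← sq]
    exact mul_le_mul_of_nonneg_right h3 (sq_nonneg _)
  exact h2.trans h4

lemma exists_lower : ∃ c : ℝ, 0 < c ∧ ∀ p ∈ Cover n, ∀ v, c * ‖v‖ ^ 2 ≤ M.G p v v := by
  have hK : IsCompact ({p : Y n | p ∈ Cover n ∧ ∀ i, |p.1 i| ≤ 1} ×ˢ Metric.sphere (0 : Y n) 1) :=
    (isCompact_slab 1).prod (isCompact_sphere _ _)
  have hcont : Continuous fun q : Y n × Y n => M.G q.1 q.2 q.2 :=
    ((M.cont.comp continuous_fst).clm_apply continuous_snd).clm_apply continuous_snd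
  rcases Set.eq_empty_or_nonempty
    ({p : Y n | p ∈ Cover n ∧ ∀ i, |p.1 i| ≤ 1} ×ˢ Metric.sphere (0 : Y n) 1) with he | hne
  · refine ⟨1, one_pos, fun p hp v => ?_⟩
    by_cases hv : v = 0
    · simp [hv]
    · exfalso
      obtain ⟨g, hg⟩ := exists_trans p
      have : ((p + lat g, ‖v‖⁻¹ • v) : Y n × Y n) ∈
          ({p : Y n | p ∈ Cover n ∧ ∀ i, |p.1 i| ≤ 1} ×ˢ Metric.sphere (0 : Y n) 1) := by
        refine ⟨⟨(cover_add_lat g).2 hp, hg⟩, ?_⟩
        rw [mem_sphere_zero_iff_norm, norm_smul, norm_inv, norm_norm,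
          inv_mul_cancel₀ (norm_ne_zero_iff.2 hv)]
      rw [he] at this
      exact this
  · obtain ⟨q, hq, hmin⟩ := hK.exists_isMinOn hne hcont.continuousOn
    refine ⟨M.G q.1 q.2 q.2, ?_, fun p hp v => ?_⟩
    · apply M.pos
      intro h
      have := hq.2
      rw [h, mem_sphere_zero_iff_norm, norm_zero] at this
      exact zero_ne_one this
    · by_cases hv : v = 0
      · simp [hv]
      · obtain ⟨g, hg⟩ := exists_trans p
        have hmem : ((p + lat g, ‖v‖⁻¹ • v) : Y n × Y n) ∈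
            ({p : Y n | p ∈ Cover n ∧ ∀ i, |p.1 i| ≤ 1} ×ˢ Metric.sphere (0 : Y n) 1) := by
          refine ⟨⟨(cover_add_lat g).2 hp, hg⟩, ?_⟩
          rw [mem_sphere_zero_iff_norm, norm_smul, norm_inv, norm_norm,
            inv_mul_cancel₀ (norm_ne_zero_iff.2 hv)]
        have h1 := hmin hmem
        simp only [mem_ofPred_eq, M.per] at h1
        have h2 : M.G p (‖v‖⁻¹ • v) (‖v‖⁻¹ • v) = ‖v‖⁻¹ ^ 2 * M.G p v v := by
          simp [sq, mul_assoc]
        rw [h2] at h1
        have hv' : 0 < ‖v‖ := norm_pos_iff.2 hv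
        have h3 : M.G q.1 q.2 q.2 * ‖v‖ ^ 2 ≤ ‖v‖⁻¹ ^ 2 * M.G p v v * ‖v‖ ^ 2 :=
          mul_le_mul_of_nonneg_right h1 (sq_nonneg _)
        have h4 : ‖v‖⁻¹ ^ 2 * M.G p v v * ‖v‖ ^ 2 = M.G p v v := by
          field_simp
        linarith

end PMet

end Pool.Agent.W535.MG
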