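import Pool.Agent.W535.MG.Geo

/-!
The distance is a proper metric, with explicit comparison to the ambient distance.
-/

namespace Pool.Agent.W535.MG

open Filter Topology Set

variable {n : ℕ}

/-- radial projection to the unit sphere -/
noncomputable def nrm (w : Fin n → ℝ) : Fin n → ℝ := (√(∑ a, w a ^ 2))⁻¹ • w

lemma nrm_contDiffAt {w : Fin n → ℝ} (hw : 0 < ∑ a, w a ^ 2) {m : WithTop ℕ∞} :
    ContDiffAt ℝ m (nrm (n := n)) w := by
  have h1 : ContDiffAt ℝ m (fun w : Fin n → ℝ => ∑ a, w a ^ 2) w := by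
    apply ContDiff.contDiffAt
    fun_prop
  have h2 : ContDiffAt ℝ m (fun w : Fin n → ℝ => (√(∑ a, w a ^ 2))⁻¹) w :=
    (h1.sqrt hw.ne').inv (Real.sqrt_pos.2 hw).ne'
  exact h2.smul contDiffAt_id

lemma nrm_mem {w : Fin n → ℝ} (hw : 0 < ∑ a, w a ^ 2) : ∑ a, nrm w a ^ 2 = 1 := by
  simp only [nrm, Pi.smul_apply, smul_eq_mul, mul_pow]
  rw [← Finset.mul_sum, inv_pow, Real.sq_sqrt hw.le, inv_mul_cancel₀ hw.ne']

lemma nrm_of_cover {w : Fin n → ℝ} (hw : ∑ a, w a ^ 2 = 1) : nrm w = w := by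
  simp [nrm, hw]

lemma isOpen_omega : IsOpen {w : Fin n → ℝ | 0 < ∑ a, w a ^ 2} := by
  apply isOpen_lt
  · fun_prop
  · fun_prop

lemma exists_fderiv_bound : ∃ C : ℝ, 0 ≤ C ∧ ∀ w : Fin n → ℝ, ‖w‖ ≤ 1 → 1 / 2 ≤ ∑ a, w a ^ 2 →
    ‖fderiv ℝ (nrm (n := n)) w‖ ≤ C := by
  have hK : IsCompact {w : Fin n → ℝ | ‖w‖ ≤ 1 ∧ 1 / 2 ≤ ∑ a, w a ^ 2} := by
    have h1 : IsClosed {w : Fin n → ℝ | 1 / 2 ≤ ∑ a, w a ^ 2} := by
      apply isClosed_le
      · fun_prop
      · fun_prop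
    have h2 : {w : Fin n → ℝ | ‖w‖ ≤ 1 ∧ 1 / 2 ≤ ∑ a, w a ^ 2}
        = Metric.closedBall 0 1 ∩ {w : Fin n → ℝ | 1 / 2 ≤ ∑ a, w a ^ 2} := by
      ext w
      simp
    rw [h2]
    exact (isCompact_closedBall _ _).inter_right h1
  have hcont : ContinuousOn (fderiv ℝ (nrm (n := n)))
      {w : Fin n → ℝ | ‖w‖ ≤ 1 ∧ 1 / 2 ≤ ∑ a, w a ^ 2} := by
    have h1 : ContDiffOn ℝ 1 (nrm (n := n)) {w : Fin n → ℝ | 0 < ∑ a, w a ^ 2} :=
      fun w hw => (nrm_contDiffAt hw).contDiffWithinAt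
    refine (h1.continuousOn_fderiv_of_isOpen isOpen_omega le_rfl).mono ?_
    rintro w ⟨_, hw⟩
    exact lt_of_lt_of_le (by norm_num) hw
  obtain ⟨C, hC⟩ := hK.exists_bound_of_continuousOn hcont
  exact ⟨max C 0, le_max_right _ _, fun w h1 h2 => (hC w ⟨h1, h2⟩).trans (le_max_left _ _)⟩

lemma seg_sq {s s' : Fin n → ℝ} (hs : ∑ a, s a ^ 2 = 1) (hs' : ∑ a, s' a ^ 2 = 1) (t : ℝ) :
    ∑ a, (s + t • (s' - s)) a ^ 2 = 1 - 2 * t * (1 - t) * (1 - ∑ a, s a * s' a) := by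
  have : ∀ a, (s + t • (s' - s)) a ^ 2
      = (1 - t) ^ 2 * s a ^ 2 + t ^ 2 * s' a ^ 2 + 2 * t * (1 - t) * (s a * s' a) := by
    intro a
    simp only [Pi.add_apply, Pi.smul_apply, Pi.sub_apply, smul_eq_mul]
    ring
  simp only [this, Finset.sum_add_distrib, ← Finset.mul_sum, hs, hs']
  ring

lemma seg_half {s s' : Fin n → ℝ} (hs : ∑ a, s a ^ 2 = 1) (hs' : ∑ a, s' a ^ 2 = 1)
    (h : 0 ≤ ∑ a, s a * s' a) (t : ℝ) : 1 / 2 ≤ ∑ a, (s + t • (s' - s)) a ^ 2 := by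
  rw [seg_sq hs hs']
  have h1 : 0 ≤ 1 - ∑ a, s a * s' a := by
    have : ∑ a, (s a - s' a) ^ 2 = 2 * (1 - ∑ a, s a * s' a) := by
      have e : ∀ a, (s a - s' a) ^ 2 = s a ^ 2 + s' a ^ 2 - 2 * (s a * s' a) := fun a => by ring
      simp only [e, Finset.sum_sub_distrib, Finset.sum_add_distrib, ← Finset.mul_sum, hs, hs']
      ring
    have h2 : 0 ≤ ∑ a, (s a - s' a) ^ 2 := Finset.sum_nonneg fun _ _ => sq_nonneg _
    linarith
  have h2 : t * (1 - t) ≤ 1 / 4 := by nlinarith [sq_nonneg (t - 1 / 2)]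
  nlinarith

namespace PMet

variable (M : PMet n)

lemma exists_near : ∃ C : ℝ, 0 < C ∧ ∀ p ∈ Cover n, ∀ q ∈ Cover n, 0 ≤ ∑ a, p.2 a * q.2 a →
    ∃ L ≤ C * ‖q - p‖, HasPL M.G p q L := by
  obtain ⟨B, hB0, hB⟩ := M.exists_upper
  obtain ⟨C, hC0, hC⟩ := exists_fderiv_bound (n := n)
  refine ⟨√B * (C + 1), by positivity, fun p hp q hq hpq => ?_⟩
  let w : ℝ → Fin n → ℝ := fun t => p.2 + t • (q.2 - p.2)
  let γ : ℝ → Y n := fun t => (p.1 + t • (q.1 - p.1), nrm (w t))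
  have hw : ∀ t, 1 / 2 ≤ ∑ a, w t a ^ 2 := seg_half hp hq hpq
  have hw0 : ∀ t, 0 < ∑ a, w t a ^ 2 := fun t => lt_of_lt_of_le (by norm_num) (hw t)
  have hwd : ∀ t, HasDerivAt w (q.2 - p.2) t := by
    intro t
    have := ((hasDerivAt_id t).smul_const (q.2 - p.2)).const_add p.2
    rw [one_smul] at this
    exact this
  have hwc : ContDiff ℝ 1 w := contDiff_const.add (contDiff_id.smul contDiff_const)
  have hγ : ContDiff ℝ 1 γ := by
    apply ContDiff.prodMk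
    · exact contDiff_const.add (contDiff_id.smul contDiff_const)
    · rw [contDiff_iff_contDiffAt]
      intro t
      exact (nrm_contDiffAt (hw0 t)).comp t hwc.contDiffAt
  have hmem : ∀ t ∈ Icc (0 : ℝ) 1, γ t ∈ Cover n := fun t _ => nrm_mem (hw0 t)
  have h0 : γ 0 = p := by
    ext i
    · simp [γ]
    · simp only [γ, w, zero_smul, add_zero]
      rw [nrm_of_cover hp]
  have h1 : γ 1 = q := by
    ext i
    · simp [γ]
    · simp only [γ, w, one_smul, add_sub_cancel]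
      rw [nrm_of_cover hq]
  have hd : ∀ t, deriv γ t = (q.1 - p.1, fderiv ℝ nrm (w t) (q.2 - p.2)) := by
    intro t
    have e1 : HasDerivAt (fun t : ℝ => p.1 + t • (q.1 - p.1)) (q.1 - p.1) t := by
      have := ((hasDerivAt_id t).smul_const (q.1 - p.1)).const_add p.1
      simpa using this
    have e2 : HasDerivAt (fun t => nrm (w t)) (fderiv ℝ nrm (w t) (q.2 - p.2)) t := by
      have h3 : HasFDerivAt nrm (fderiv ℝ nrm (w t)) (w t) :=
        ((nrm_contDiffAt (m := 1) (hw0 t)).differentiableAt one_ne_zero).hasFDerivAt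
      exact h3.comp_hasDerivAt t (hwd t)
    exact (e1.prodMk e2).deriv
  have hle1 : ‖q.1 - p.1‖ ≤ ‖q - p‖ := norm_fst_le (q - p)
  have hle2 : ‖q.2 - p.2‖ ≤ ‖q - p‖ := norm_snd_le (q - p)
  have hwn : ∀ t ∈ Icc (0 : ℝ) 1, ‖w t‖ ≤ 1 := by
    intro t ht
    rw [pi_norm_le_iff_of_nonneg zero_le_one]
    intro a
    have e : w t a = (1 - t) * p.2 a + t * q.2 a := by
      simp only [w, Pi.add_apply, Pi.smul_apply, Pi.sub_apply, smul_eq_mul]; ring
    rw [Real.norm_eq_abs, e]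
    have a1 := abs_le_one_of_cover hp a
    have a2 := abs_le_one_of_cover hq a
    calc |(1 - t) * p.2 a + t * q.2 a| ≤ |(1 - t) * p.2 a| + |t * q.2 a| := abs_add_le _ _
      _ = (1 - t) * |p.2 a| + t * |q.2 a| := by
        rw [abs_mul, abs_mul, abs_of_nonneg (by linarith [ht.2] : 0 ≤ 1 - t),
          abs_of_nonneg ht.1]
      _ ≤ (1 - t) * 1 + t * 1 := by
        gcongr
        · linarith [ht.2]
        · exact ht.1
      _ = 1 := by ring
  have hspeed : ∀ t ∈ Icc (0 : ℝ) 1,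
      √(M.G (γ t) (deriv γ t) (deriv γ t)) ≤ √B * (C + 1) * ‖q - p‖ := by
    intro t ht
    have b1 : ‖deriv γ t‖ ≤ (C + 1) * ‖q - p‖ := by
      rw [hd t, Prod.norm_def, max_le_iff]
      constructor
      · refine hle1.trans ?_
        have : 0 ≤ C * ‖q - p‖ := by positivity
        show ‖q - p‖ ≤ (C + 1) * ‖q - p‖
        linarith
      · have b2 := (fderiv ℝ nrm (w t)).le_opNorm (q.2 - p.2)
        have b3 := hC (w t) (hwn t ht) (hw t)
        calc ‖(fderiv ℝ nrm (w t)) (q.2 - p.2)‖ ≤ ‖fderiv ℝ nrm (w t)‖ * ‖q.2 - p.2‖ := b2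
          _ ≤ C * ‖q - p‖ := by gcongr
          _ ≤ (C + 1) * ‖q - p‖ := by gcongr; linarith
    calc √(M.G (γ t) (deriv γ t) (deriv γ t)) ≤ √(B * ‖deriv γ t‖ ^ 2) :=
          Real.sqrt_le_sqrt (hB _ (hmem t ht) _)
      _ = √B * ‖deriv γ t‖ := by
        rw [Real.sqrt_mul hB0.le, Real.sqrt_sq (norm_nonneg _)]
      _ ≤ √B * ((C + 1) * ‖q - p‖) := by gcongr
      _ = √B * (C + 1) * ‖q - p‖ := by ring
  have harc := HasPL.arc (G := M.G) γ 0 1 zero_le_one hγ hmem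
  rw [h0, h1] at harc
  refine ⟨_, ?_, harc⟩
  have := intervalIntegral.integral_mono_on zero_le_one
    ((M.speed_cont hγ).intervalIntegrable 0 1)
    (continuous_const.intervalIntegrable (μ := MeasureTheory.volume) 0 1) hspeed
  simpa using this

lemma single_mem (a : Fin n) (e : ℝ) (he : e ^ 2 = 1) (z : Fin 2 → ℝ) :
    ((z, Pi.single a e) : Y n) ∈ Cover n := by
  have : ∑ b, (Pi.single a e : Fin n → ℝ) b ^ 2 = 1 := by
    rw [Finset.sum_eq_single a]
    · simp [he]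
    · intro b _ hb
      simp [Pi.single_eq_of_ne hb]
    · intro h
      exact absurd (Finset.mem_univ a) h
  exact this

lemma exists_path (a₀ a₁ : Fin n) (h01 : a₀ ≠ a₁) : ∃ C : ℝ, 0 < C ∧
    ∀ p ∈ Cover n, ∀ q ∈ Cover n, ∃ L ≤ C * (‖q.1 - p.1‖ + 8), HasPL M.G p q L := by
  obtain ⟨C, hC0, hC⟩ := M.exists_near
  refine ⟨C, hC0, ?_⟩
  have hnorm : ∀ (z : Fin 2 → ℝ) (s s' : Fin n → ℝ), ((z, s) : Y n) ∈ Cover n →
      ((z, s') : Y n) ∈ Cover n → ‖((z, s') : Y n) - (z, s)‖ ≤ 2 := by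
    intro z s s' hs hs'
    rw [Prod.mk_sub_mk, sub_self, Prod.norm_def, norm_zero, max_eq_right (norm_nonneg _)]
    rw [pi_norm_le_iff_of_nonneg zero_le_two]
    intro a
    have a1 := abs_le_one_of_cover hs a
    have a2 := abs_le_one_of_cover hs' a
    calc ‖(s' - s) a‖ = |s' a - s a| := rfl
      _ ≤ |s' a| + |s a| := abs_sub _ _
      _ ≤ 2 := by
        have a1' : |s a| ≤ 1 := a1
        have a2' : |s' a| ≤ 1 := a2
        linarith
  -- connect a point to the point over the base vector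
  have key : ∀ (z : Fin 2 → ℝ) (s : Fin n → ℝ), ((z, s) : Y n) ∈ Cover n →
      ∃ L ≤ C * 4, HasPL M.G (z, s) (z, Pi.single a₀ 1) L := by
    intro z s hs
    set e : ℝ := if 0 ≤ s a₁ then 1 else -1 with he
    have he2 : e ^ 2 = 1 := by rw [he]; split_ifs <;> norm_num
    have hse : 0 ≤ s a₁ * e := by
      rw [he]; split_ifs with h
      · linarith
      · push Not at h; linarith
    have m1 := single_mem (n := n) a₁ e he2 z
    have m2 := single_mem (n := n) a₀ 1 (one_pow 2) z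
    obtain ⟨L1, hL1, p1⟩ := hC (z, s) hs (z, Pi.single a₁ e) m1 (by
      simp only [Pi.single_apply, mul_ite, mul_zero, Finset.sum_ite_eq', Finset.mem_univ, if_true]
      exact hse)
    obtain ⟨L2, hL2, p2⟩ := hC (z, Pi.single a₁ e) m1 (z, Pi.single a₀ 1) m2 (by
      apply le_of_eq
      symm
      apply Finset.sum_eq_zero
      intro a _
      simp only [Pi.single_apply]
      by_cases h : a = a₀
      · subst h; simp [h01]
      · simp [h])
    refine ⟨L1 + L2, ?_, HasPL.comp p1 p2⟩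
    have n1 := hnorm z s _ hs m1
    have n2 := hnorm z _ _ m1 m2
    have q1 : C * ‖((z, Pi.single a₁ e) : Y n) - (z, s)‖ ≤ C * 2 := by gcongr
    have q2 : C * ‖((z, Pi.single a₀ 1) : Y n) - (z, Pi.single a₁ e)‖ ≤ C * 2 := by gcongr
    linarith
  intro p hp q hq
  obtain ⟨L1, hL1, p1⟩ := key p.1 p.2 hp
  obtain ⟨L2, hL2, p2⟩ := key q.1 q.2 hq
  obtain ⟨L3, hL3, p3⟩ := hC (p.1, Pi.single a₀ 1) (single_mem a₀ 1 (one_pow 2) _)
    (q.1, Pi.single a₀ 1) (single_mem a₀ 1 (one_pow 2) _) (by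
      apply Finset.sum_nonneg
      intro a _
      exact mul_self_nonneg _)
  refine ⟨L1 + (L3 + L2), ?_, HasPL.comp p1 (HasPL.comp p3 (M.reverse p2))⟩
  have e : ‖((q.1, Pi.single a₀ 1) : Y n) - (p.1, Pi.single a₀ 1)‖ = ‖q.1 - p.1‖ := by
    rw [Prod.mk_sub_mk, sub_self, Prod.norm_def, norm_zero, max_eq_left (norm_nonneg _)]
  rw [e] at hL3
  linarith

lemma dist_le {p q : Y n} {L : ℝ} (h : HasPL M.G p q L) : riemDist M.G p q ≤ L :=
  csInf_le ⟨0, fun _ hL => M.len_nonneg hL⟩ h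

lemma dist_nonneg (p q : Y n) : 0 ≤ riemDist M.G p q :=
  Real.sInf_nonneg fun _ hL => M.len_nonneg hL

lemma dist_self {p : Y n} (hp : p ∈ Cover n) : riemDist M.G p p = 0 := by
  apply le_antisymm _ (M.dist_nonneg p p)
  have h := HasPL.arc (G := M.G) (fun _ => p) 0 0 le_rfl contDiff_const (fun _ _ => hp)
  have := M.dist_le h
  simpa using this

lemma dist_comm (p q : Y n) : riemDist M.G p q = riemDist M.G q p := by
  unfold riemDist
  congr 1
  ext L
  exact ⟨fun h => M.reverse h, fun h => M.reverse h⟩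

lemma dist_translate (g : Fin 2 → ℤ) (p q : Y n) :
    riemDist M.G (p + lat g) (q + lat g) = riemDist M.G p q := by
  unfold riemDist
  congr 1
  ext L
  refine ⟨fun h => ?_, fun h => M.translate g h⟩
  have := M.translate (-g) h
  rw [lat_neg] at this
  simpa using this

variable {a₀ a₁ : Fin n}

lemma nonempty_len (h01 : a₀ ≠ a₁) {p q : Y n} (hp : p ∈ Cover n) (hq : q ∈ Cover n) :
    {L | HasPL M.G p q L}.Nonempty := by
  obtain ⟨C, _, hC⟩ := M.exists_path a₀ a₁ h01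
  obtain ⟨L, _, h⟩ := hC p hp q hq
  exact ⟨L, h⟩

lemma dist_triangle (h01 : a₀ ≠ a₁) {p q r : Y n} (hp : p ∈ Cover n) (hq : q ∈ Cover n)
    (hr : r ∈ Cover n) : riemDist M.G p r ≤ riemDist M.G p q + riemDist M.G q r := by
  apply le_of_forall_pos_le_add
  intro ε hε
  obtain ⟨L1, h1, h1'⟩ := exists_lt_of_csInf_lt (M.nonempty_len h01 hp hq)
    (show riemDist M.G p q < riemDist M.G p q + ε / 2 by linarith)
  obtain ⟨L2, h2, h2'⟩ := exists_lt_of_csInf_lt (M.nonempty_len h01 hq hr)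
    (show riemDist M.G q r < riemDist M.G q r + ε / 2 by linarith)
  have := M.dist_le (HasPL.comp h1 h2)
  linarith

lemma calib_dist (h01 : a₀ ≠ a₁) {f : Y n → ℝ} (hf : ContDiff ℝ 1 f)
    (h : ∀ p ∈ Cover n, ∀ v, (fderiv ℝ f p v) ^ 2 ≤ M.G p v v) {p q : Y n}
    (hp : p ∈ Cover n) (hq : q ∈ Cover n) : f q - f p ≤ riemDist M.G p q :=
  le_csInf (M.nonempty_len h01 hp hq) fun _ hL => M.calib hf h hL

lemma exists_norm_le (h01 : a₀ ≠ a₁) : ∃ C : ℝ, 0 < C ∧ ∀ p ∈ Cover n, ∀ q ∈ Cover n,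
    ‖q - p‖ ≤ C * riemDist M.G p q := by
  obtain ⟨c, hc0, hc⟩ := M.exists_lower
  refine ⟨(√c)⁻¹, by positivity, fun p hp q hq => ?_⟩
  have hsc : 0 < √c := Real.sqrt_pos.2 hc0
  have hlin : ∀ φ : Y n →L[ℝ] ℝ, (∀ v, |φ v| ≤ ‖v‖) → |φ (q - p)| ≤ (√c)⁻¹ * riemDist M.G p q := by
    have aux : ∀ φ : Y n →L[ℝ] ℝ, (∀ v, |φ v| ≤ ‖v‖) →
        φ (q - p) ≤ (√c)⁻¹ * riemDist M.G p q := by
      intro φ hφ
      have h1 := M.calib_dist h01 (f := fun x => (√c • φ) x) (√c • φ).contDiff (by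
        intro x hx v
        rw [ContinuousLinearMap.fderiv]
        have e1 : ((√c • φ) v) ^ 2 = c * (φ v) ^ 2 := by
          simp only [_root_.smul_apply, smul_eq_mul, mul_pow]
          rw [Real.sq_sqrt hc0.le]
        rw [e1]
        refine le_trans ?_ (hc x hx v)
        have : (φ v) ^ 2 ≤ ‖v‖ ^ 2 := by
          rw [← sq_abs (φ v)]
          exact pow_le_pow_left₀ (abs_nonneg _) (hφ v) 2
        gcongr) hp hq
      simp only [_root_.smul_apply, smul_eq_mul] at h1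
      rw [← mul_sub, ← map_sub] at h1
      rw [inv_mul_eq_div, le_div_iff₀ hsc]
      linarith
    intro φ hφ
    rw [abs_le]
    constructor
    · have := aux (-φ) (by intro v; simpa using hφ v)
      simp only [_root_.neg_apply] at this
      linarith
    · exact aux φ hφ
  have hD : 0 ≤ (√c)⁻¹ * riemDist M.G p q := mul_nonneg (by positivity) (M.dist_nonneg p q)
  rw [Prod.norm_def, max_le_iff]
  constructor
  · rw [pi_norm_le_iff_of_nonneg hD]
    intro i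
    exact hlin ((ContinuousLinearMap.proj i).comp (ContinuousLinearMap.fst ℝ _ _)) (by
      intro v
      exact (norm_le_pi_norm v.1 i).trans (norm_fst_le v))
  · rw [pi_norm_le_iff_of_nonneg hD]
    intro i
    exact hlin ((ContinuousLinearMap.proj i).comp (ContinuousLinearMap.snd ℝ _ _)) (by
      intro v
      exact (norm_le_pi_norm v.2 i).trans (norm_snd_le v))

end PMet

end Pool.Agent.W535.MG
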