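import Pool.Agent.W535.MG.Network

/-!
Local structure of the network and of the calibrating functions.
-/

namespace Pool.Agent.W535.MG

open Filter Topology Set

/-- union of the lines -/
def Lines : Set (Y 34) := {p | ∃ i x m, p = lin i x m}

/-- the network -/
def NN : Set (Y 34) := {p | p ∈ Lines ∨ ∃ k r g, p = gam k r + lat g}

lemma mem_lines_iff (p : Y 34) :
    p ∈ Lines ↔ ∃ i, p.2 = eb (Sum.inl i) ∧ p.1 (i + 1) ∈ range ((↑) : ℤ → ℝ) := by
  constructor
  · rintro ⟨i, x, m, rfl⟩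
    exact ⟨i, rfl, m, by simp [lin]⟩
  · rintro ⟨i, h1, m, hm⟩
    refine ⟨i, p.1 i, m, ?_⟩
    apply Prod.ext
    · funext l
      rcases eq_or_eq_add_one i l with h | h
      · simp [lin, h]
      · simp [lin, h, hm]
    · exact h1

lemma isClosed_range_int : IsClosed (range ((↑) : ℤ → ℝ)) :=
  Int.isClosedEmbedding_coe_real.isClosed_range

lemma isClosed_lines : IsClosed Lines := by
  have : Lines = ⋃ i : Fin 2, {p : Y 34 | p.2 = eb (Sum.inl i) ∧
      p.1 (i + 1) ∈ range ((↑) : ℤ → ℝ)} := by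
    ext p
    rw [mem_lines_iff]
    simp
  rw [this]
  apply isClosed_iUnion_of_finite
  intro i
  apply IsClosed.inter
  · exact isClosed_eq continuous_snd continuous_const
  · exact isClosed_range_int.preimage (by fun_prop : Continuous fun p : Y 34 => p.1 (i + 1))

lemma tendsto_end (i : Fin 2) (x : KK × Bool) :
    Tendsto (fun r => nrm (wv i x (Real.exp r))) atBot (𝓝 (eb (Sum.inl i))) := by
  have h1 : nrm (wv i x 0) = eb (Sum.inl i) := by
    have : wv i x 0 = eb (Sum.inl i) := by simp [wv]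
    rw [nrm_of_cover, this]
    rw [wv_sq]; ring
  have h2 : ContinuousAt (fun t : ℝ => nrm (wv i x t)) 0 := by
    have h3 : ContinuousAt (nrm (n := 34)) (wv i x 0) :=
      (nrm_contDiffAt (m := 0) (wv_sq_pos i x 0)).continuousAt
    have h4 : ContinuousAt (fun t : ℝ => wv i x t) 0 := by
      unfold wv
      fun_prop
    exact ContinuousAt.comp (f := fun t : ℝ => wv i x t) h3 h4
  have h5 := h2.tendsto
  rw [h1] at h5
  exact h5.comp Real.tendsto_exp_atBot

/-- compactness principle -/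
lemma eventually_ne_of_bounded (p₀ : Y 34) (R : ℝ) (Bad : KK → (Fin 2 → ℤ) → Set ℝ)
    (hcl : ∀ k g, IsClosed (Bad k g)) (hne : ∀ k g, ∀ r ∈ Bad k g, p₀ ≠ gam k r + lat g) :
    ∀ᶠ p in 𝓝 p₀, ∀ k g r, |r| ≤ R → r ∈ Bad k g → p ≠ gam k r + lat g := by
  -- bound on the plane component
  have hZ : ∀ k : KK, ∃ Z : ℝ, ∀ r ∈ Icc (-R) R, ‖zz k r‖ ≤ Z := fun k =>
    isCompact_Icc.exists_bound_of_continuousOn (zz_contDiff k).continuous.continuousOn
  choose Z hZ using hZ
  obtain ⟨Z₀, hZ₀⟩ := Finite.exists_le Z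
  set B : ℤ := ⌈‖p₀‖ + 1 + Z₀⌉ with hB
  have hfin : (Icc (fun _ : Fin 2 => -B) (fun _ => B)).Finite := Set.finite_Icc _ _
  have h1 : ∀ k : KK, ∀ g ∈ Icc (fun _ : Fin 2 => -B) (fun _ => B),
      ∀ᶠ p in 𝓝 p₀, p ∉ (fun r => gam k r + lat g) '' (Bad k g ∩ Icc (-R) R) := by
    intro k g _
    have hc : IsCompact ((fun r => gam k r + lat g) '' (Bad k g ∩ Icc (-R) R)) := by
      apply IsCompact.image (isCompact_Icc.inter_left (hcl k g))
      exact (gam_contDiff k).continuous.add continuous_const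
    apply hc.isClosed.isOpen_compl.mem_nhds
    rintro ⟨r, ⟨hr1, _⟩, hr2⟩
    exact hne k g r hr1 hr2.symm
  have h2 : ∀ᶠ p in 𝓝 p₀, ∀ k : KK, ∀ g ∈ Icc (fun _ : Fin 2 => -B) (fun _ => B),
      p ∉ (fun r => gam k r + lat g) '' (Bad k g ∩ Icc (-R) R) := by
    rw [eventually_all]
    intro k
    rw [eventually_all_finite hfin]
    exact h1 k
  have h3 : ∀ᶠ p in 𝓝 p₀, dist p p₀ < 1 := Metric.ball_mem_nhds _ one_pos
  filter_upwards [h2, h3] with p hp hp1 k g r hr hbad heq
  refine hp k g ?_ ⟨r, ⟨hbad, abs_le.1 hr⟩, heq.symm⟩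
  have hg : ∀ i, |(g i : ℝ)| ≤ ‖p₀‖ + 1 + Z₀ := by
    intro i
    have e : (g i : ℝ) = p.1 i - zz k r i := by
      rw [heq]; simp [gam, lat]
    rw [e]
    have a1 : |p.1 i| ≤ ‖p‖ := (norm_le_pi_norm p.1 i).trans (norm_fst_le p)
    have a2 : |zz k r i| ≤ Z₀ :=
      (norm_le_pi_norm (zz k r) i).trans ((hZ k r (abs_le.1 hr)).trans (hZ₀ k))
    have a3 : ‖p‖ ≤ ‖p₀‖ + 1 := by
      have := norm_le_norm_add_norm_sub' p p₀
      rw [dist_eq_norm] at hp1
      linarith
    have := abs_sub (p.1 i) (zz k r i)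
    linarith
  have hgB : ∀ i, |(g i : ℝ)| ≤ B := fun i => (hg i).trans (Int.le_ceil _)
  constructor
  · intro i
    have := (abs_le.1 (hgB i)).1
    exact_mod_cast this
  · intro i
    have := (abs_le.1 (hgB i)).2
    exact_mod_cast this

lemma HC.far {β : ℝ → Y 34} {i : Fin 2} {τ : Sg} {g : Fin 2 → ℤ} (h : HC β i τ g) {r : ℝ}
    (hr : r ≤ -(1 / 2)) : 3 / 5 < (β r).2 (lab (Sum.inl i)) ∧ (β r).1 (i + 1) = g (i + 1) := by
  obtain ⟨x, _, hx⟩ := h.axis
  constructor
  · rw [hx r (by linarith)]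
    exact nrm_wv_inl_gt i x (Real.exp_pos r).le (Real.exp_le_one_iff.2 (by linarith))
  · rw [h.zj r (by linarith), EE_zero hr, mul_zero, zero_add]

lemma coord_cont (a : Fin 34) : Continuous fun p : Y 34 => p.2 a := by fun_prop

lemma coord1_cont (i : Fin 2) : Continuous fun p : Y 34 => p.1 i := by fun_prop

lemma exists_bound_of_not_line {p₀ : Y 34} (hp₀ : p₀ ∉ Lines) :
    ∃ R : ℝ, ∀ᶠ p in 𝓝 p₀, ∀ k r g, p = gam k r + lat g → |r| ≤ R := by
  by_cases hA : ∃ i, p₀.2 = eb (Sum.inl i)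
  · obtain ⟨i, hi⟩ := hA
    have hnot : p₀.1 (i + 1) ∉ range ((↑) : ℤ → ℝ) := by
      intro h
      exact hp₀ ((mem_lines_iff p₀).2 ⟨i, hi, h⟩)
    have e1 : ∀ᶠ p : Y 34 in 𝓝 p₀, p.1 (i + 1) ∉ range ((↑) : ℤ → ℝ) :=
      (coord1_cont (i + 1)).tendsto p₀ (isClosed_range_int.isOpen_compl.mem_nhds hnot)
    have e2 : ∀ᶠ p : Y 34 in 𝓝 p₀, p.2 (lab (Sum.inl (i + 1))) < 3 / 5 := by
      apply ((coord_cont (lab (Sum.inl (i + 1)))).tendsto p₀).eventually_lt_const
      rw [hi, eb_ne (by simp)]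
      norm_num
    have key : ∀ (β : ℝ → Y 34) i' τ g', HC β i' τ g' → ∀ r ≤ -(1 / 2),
        (β r).1 (i + 1) ∉ range ((↑) : ℤ → ℝ) → ¬ ((β r).2 (lab (Sum.inl (i + 1))) < 3 / 5) := by
      intro β i' τ g' hβ r hr h1 h2
      obtain ⟨f1, f2⟩ := hβ.far hr
      rcases eq_or_eq_add_one i i' with h | h
      · rw [h] at f2
        exact h1 ⟨_, f2.symm⟩
      · rw [h] at f1
        linarith
    refine ⟨1, ?_⟩
    filter_upwards [e1, e2] with p hp1 hp2 k r g hpk
    by_contra hr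
    push Not at hr
    rcases lt_abs.1 hr with hr | hr
    · refine key _ _ _ _ (HC_second k g) (-r) (by linarith) ?_ ?_
      · simp only [neg_neg]; rw [← hpk]; exact hp1
      · simp only [neg_neg]; rw [← hpk]; exact hp2
    · refine key _ _ _ _ (HC_first k g) r (by linarith) ?_ ?_
      · rw [← hpk]; exact hp1
      · rw [← hpk]; exact hp2
  · push Not at hA
    have hδ : ∃ δ : ℝ, 0 < δ ∧ ∀ i, 2 * δ ≤ dist p₀.2 (eb (Sum.inl i)) := by
      have h0 : 0 < dist p₀.2 (eb (Sum.inl 0)) := dist_pos.2 (hA 0)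
      have h1 : 0 < dist p₀.2 (eb (Sum.inl 1)) := dist_pos.2 (hA 1)
      refine ⟨min (dist p₀.2 (eb (Sum.inl 0))) (dist p₀.2 (eb (Sum.inl 1))) / 2, by positivity, ?_⟩
      intro i
      fin_cases i
      · have := min_le_left (dist p₀.2 (eb (Sum.inl 0))) (dist p₀.2 (eb (Sum.inl 1)))
        simp only [Fin.zero_eta]
        linarith
      · have := min_le_right (dist p₀.2 (eb (Sum.inl 0))) (dist p₀.2 (eb (Sum.inl 1)))
        simp only [Fin.mk_one]
        linarith
    obtain ⟨δ, hδ0, hδ⟩ := hδ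
    have hR : ∀ q : Fin 2 × (KK × Bool), ∃ R : ℝ, ∀ r ≤ -R,
        dist (nrm (wv q.1 q.2 (Real.exp r))) (eb (Sum.inl q.1)) < δ := by
      intro q
      have := (tendsto_end q.1 q.2).eventually (Metric.ball_mem_nhds _ hδ0)
      obtain ⟨R, hR⟩ := eventually_atBot.1 this
      exact ⟨-R, fun r hr => hR r (by linarith)⟩
    choose R hR using hR
    obtain ⟨R₀, hR₀⟩ := Finite.exists_le R
    have key : ∀ (β : ℝ → Y 34) i' τ g', HC β i' τ g' → ∀ r ≤ -(max R₀ 1),
        ¬ dist (β r).2 p₀.2 < δ := by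
      intro β i' τ g' hβ r hr hd
      obtain ⟨x, _, hx⟩ := hβ.axis
      rw [hx r (by linarith [le_max_right R₀ 1])] at hd
      have h1 := hR (i', x) r (by linarith [le_max_left R₀ 1, hR₀ (i', x)])
      have h2 := hδ i'
      have h3 := dist_triangle p₀.2 (nrm (wv i' x (Real.exp r))) (eb (Sum.inl i'))
      rw [dist_comm p₀.2 (nrm (wv i' x (Real.exp r)))] at h3
      simp only at h1
      linarith
    refine ⟨max R₀ 1, ?_⟩
    have e1 : ∀ᶠ p : Y 34 in 𝓝 p₀, dist p.2 p₀.2 < δ :=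
      continuous_snd.tendsto p₀ (Metric.ball_mem_nhds _ hδ0)
    filter_upwards [e1] with p hp1 k r g hpk
    by_contra hr
    push Not at hr
    rcases lt_abs.1 hr with hr | hr
    · refine key _ _ _ _ (HC_second k g) (-r) (by linarith) ?_
      simp only [neg_neg]; rw [← hpk]; exact hp1
    · refine key _ _ _ _ (HC_first k g) r (by linarith) ?_
      rw [← hpk]; exact hp1

/-- local uniqueness near points off the lines -/
lemma eventually_good {p₀ : Y 34} (hp₀ : p₀ ∉ Lines) (Good : KK → (Fin 2 → ℤ) → ℝ → Prop)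
    (hcl : ∀ k g, IsOpen {r | Good k g r}) (hg : ∀ k g r, p₀ = gam k r + lat g → Good k g r) :
    ∀ᶠ p in 𝓝 p₀, ∀ k r g, p = gam k r + lat g → Good k g r := by
  obtain ⟨R, hR⟩ := exists_bound_of_not_line hp₀
  have h := eventually_ne_of_bounded p₀ R (fun k g => {r | ¬ Good k g r})
    (fun k g => (hcl k g).isClosed_compl) (fun k g r hr heq => hr (hg k g r heq))
  filter_upwards [hR, h] with p h1 h2 k r g hp
  by_contra hbad
  exact h2 k g r (h1 k r g hp) hbad hp

lemma eventually_not_lines {p₀ : Y 34} (hp₀ : p₀ ∉ Lines) : ∀ᶠ p in 𝓝 p₀, p ∉ Lines :=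
  isClosed_lines.isOpen_compl.mem_nhds hp₀

lemma gam_not_lines (k : KK) (r : ℝ) (g : Fin 2 → ℤ) : gam k r + lat g ∉ Lines := by
  rintro ⟨i, x, m, h⟩
  exact gam_ne_lin k r g i x m h

lemma local_unique (k₀ : KK) (r₀ : ℝ) (g₀ : Fin 2 → ℤ) (δ : ℝ) (hδ : 0 < δ) :
    ∀ᶠ p in 𝓝 (gam k₀ r₀ + lat g₀), ∀ k r g, p = gam k r + lat g →
      k = k₀ ∧ g = g₀ ∧ |r - r₀| < δ := by
  apply eventually_good (gam_not_lines k₀ r₀ g₀)
  · intro k g
    by_cases h : k = k₀ ∧ g = g₀
    · obtain ⟨h1, h2⟩ := h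
      simp only [h1, h2, true_and]
      exact isOpen_lt (by fun_prop) (by fun_prop)
    · have : {r : ℝ | k = k₀ ∧ g = g₀ ∧ |r - r₀| < δ} = ∅ := by
        ext r
        simp only [mem_ofPred_eq, mem_empty_iff_false, iff_false]
        rintro ⟨h1, h2, _⟩
        exact h ⟨h1, h2⟩
      rw [this]
      exact isOpen_empty
  · intro k g r h
    obtain ⟨h1, h2, h3⟩ := gam_inj h
    exact ⟨h1.symm, h3.symm, by rw [h2]; simpa using hδ⟩

lemma isClosed_NN : IsClosed NN := by
  rw [← isOpen_compl_iff, isOpen_iff_mem_nhds]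
  intro p₀ hp₀
  have h1 : p₀ ∉ Lines := fun h => hp₀ (Or.inl h)
  have h2 := eventually_good h1 (fun _ _ _ => False) (fun _ _ => by simp) (by
    intro k g r h
    exact hp₀ (Or.inr ⟨k, r, g, h⟩))
  filter_upwards [eventually_not_lines h1, h2] with p hp1 hp2 hp
  rcases hp with h | ⟨k, r, g, h⟩
  · exact hp1 h
  · exact hp2 k r g h

/-- near a point of a line only far pieces of curves with an end there -/
lemma near_lin (i : Fin 2) (x : ℝ) (m : ℤ) : ∀ᶠ p in 𝓝 (lin i x m),
    (∀ i' x' m', p = lin i' x' m' → i' = i ∧ m' = m) ∧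
    (∀ k r g, p = gam k r + lat g → (r < -1 ∧ k.2.1 = i) ∨ (1 < r ∧ l2 k = i)) := by
  have e1 := eventually_ne_of_bounded (lin i x m) 1 (fun _ _ => univ) (fun _ _ => isClosed_univ)
    (fun k g r _ h => gam_ne_lin k r g i x m h.symm)
  have e2 : ∀ᶠ p : Y 34 in 𝓝 (lin i x m), p.2 (lab (Sum.inl (i + 1))) < 3 / 5 := by
    apply ((coord_cont (lab (Sum.inl (i + 1)))).tendsto _).eventually_lt_const
    simp only [lin]
    rw [eb_ne (by simp)]
    norm_num
  have e3 : ∀ᶠ p : Y 34 in 𝓝 (lin i x m), |p.1 (i + 1) - m| < 1 := by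
    have hc : Continuous fun p : Y 34 => |p.1 (i + 1) - m| := by fun_prop
    apply (hc.tendsto _).eventually_lt_const
    simp [lin]
  filter_upwards [e1, e2, e3] with p h1 h2 h3
  constructor
  · intro i' x' m' hp
    have hi : i' = i := by
      rcases eq_or_eq_add_one i i' with h | h
      · exact h
      · exfalso
        rw [hp, h] at h2
        simp only [lin, eb_same] at h2
        norm_num at h2
    subst hi
    refine ⟨rfl, ?_⟩
    rw [hp] at h3
    simp only [lin, add_one_ne, if_false] at h3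
    have : |m' - m| < 1 := by
      have h4 : |((m' - m : ℤ) : ℝ)| < 1 := by push_cast; exact h3
      exact_mod_cast h4
    have := Int.abs_lt_one_iff.1 this
    linarith
  · intro k r g hp
    have hr : ¬ |r| ≤ 1 := fun h => h1 k g r h (mem_univ r) hp
    push Not at hr
    rcases lt_abs.1 hr with hr | hr
    · right
      refine ⟨hr, ?_⟩
      rcases eq_or_eq_add_one i (l2 k) with h | h
      · exact h
      · exfalso
        have := ((HC_second k g).far (r := -r) (by linarith)).1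
        simp only [neg_neg] at this
        rw [← hp, h] at this
        linarith
    · left
      refine ⟨by linarith, ?_⟩
      rcases eq_or_eq_add_one i k.2.1 with h | h
      · exact h
      · exfalso
        have := ((HC_first k g).far (r := r) (by linarith)).1
        rw [← hp, h] at this
        linarith

lemma abs_le_norm_zz (k : KK) (r : ℝ) : |r| - 1 / 2 ≤ ‖zz k r‖ := by
  have hi : ∀ l, |zz k r l| ≤ ‖zz k r‖ := fun l => norm_le_pi_norm (zz k r) l
  obtain ⟨b, i, σ⟩ := k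
  cases b with
  | false =>
    refine le_trans ?_ (hi i)
    simp only [zz, if_true, Bool.false_eq_true, if_false]
    rw [abs_mul, abs_sg, one_mul]
    have := abs_sub_abs_le_abs_sub r (1 / 2)
    rw [abs_of_nonneg (by norm_num : (0 : ℝ) ≤ 1 / 2)] at this
    exact this
  | true =>
    rcases le_total r 0 with h | h
    · refine le_trans ?_ (hi i)
      simp only [zz, if_true]
      rw [abs_neg, abs_mul, abs_sg, one_mul, EE_lin (by linarith), abs_of_nonpos h,
        abs_of_nonneg (by linarith)]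
      linarith
    · refine le_trans ?_ (hi (i + 1))
      simp only [zz, add_one_ne, if_false, if_true]
      rw [abs_mul, abs_sg, one_mul, EE_lin (by linarith), abs_of_nonneg h,
        abs_of_nonneg (by linarith)]
      linarith

lemma isClosed_curve (k : KK) (g : Fin 2 → ℤ) : IsClosed {p : Y 34 | ∃ r, p = gam k r + lat g} := by
  rw [← isOpen_compl_iff, isOpen_iff_mem_nhds]
  intro p₀ hp₀
  classical
  have e1 := eventually_ne_of_bounded p₀ (‖p₀‖ + 1 + ‖(lat g : Y 34)‖ + 1)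
    (fun k' g' => if k' = k ∧ g' = g then univ else ∅)
    (fun k' g' => by split_ifs; exacts [isClosed_univ, isClosed_empty])
    (fun k' g' r hr h => by
      by_cases hc : k' = k ∧ g' = g
      · obtain ⟨rfl, rfl⟩ := hc
        exact hp₀ ⟨r, h⟩
      · simp [hc] at hr)
  have e2 : ∀ᶠ p in 𝓝 p₀, dist p p₀ < 1 := Metric.ball_mem_nhds _ one_pos
  filter_upwards [e1, e2] with p h1 h2
  rintro ⟨r, hr⟩
  refine h1 k g r ?_ (by simp) hr
  have a1 := abs_le_norm_zz k r
  have a2 : ‖zz k r‖ ≤ ‖p‖ + ‖(lat g : Y 34)‖ := by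
    have : gam k r = p - lat g := by rw [hr]; simp
    have h3 : ‖zz k r‖ ≤ ‖gam k r‖ := norm_fst_le (gam k r)
    rw [this] at h3
    exact h3.trans (norm_sub_le _ _)
  have a3 : ‖p‖ ≤ ‖p₀‖ + 1 := by
    have := norm_le_norm_add_norm_sub' p p₀
    rw [dist_eq_norm] at h2
    linarith
  linarith

end Pool.Agent.W535.MG
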