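import Pool.Agent.W535.MG.Geo2

/-!
The proper metric space attached to a periodic metric on `ℝ² × S^33`.
-/

namespace Pool.Agent.W535.MG

open Filter Topology Set

/-- `ℝ² × S^33` with the Riemannian distance of `M`. -/
def XX (_ : PMet 34) : Type := {p : Y 34 // p ∈ Cover 34}

namespace XX

variable {M : PMet 34}

/-- the underlying point -/
def val (x : XX M) : Y 34 := Subtype.val x

lemma mem (x : XX M) : x.val ∈ Cover 34 := Subtype.prop x

/-- constructor -/
def mk (p : Y 34) (hp : p ∈ Cover 34) : XX M := ⟨p, hp⟩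

@[simp] lemma val_mk (p : Y 34) (hp : p ∈ Cover 34) : (mk p hp : XX M).val = p := rfl

lemma ext {x y : XX M} (h : x.val = y.val) : x = y := Subtype.ext h

lemma zero_ne_one34 : (0 : Fin 34) ≠ 1 := by decide

noncomputable instance : MetricSpace (XX M) where
  dist x y := riemDist M.G x.val y.val
  dist_self x := M.dist_self x.mem
  dist_comm x y := M.dist_comm _ _
  dist_triangle x y z := M.dist_triangle zero_ne_one34 x.mem y.mem z.mem
  eq_of_dist_eq_zero := by
    intro x y h
    obtain ⟨C, hC0, hC⟩ := M.exists_norm_le zero_ne_one34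
    have h1 := hC x.val x.mem y.val y.mem
    have h2 : riemDist M.G x.val y.val = 0 := h
    rw [h2, mul_zero] at h1
    have h3 : y.val - x.val = 0 := norm_le_zero_iff.1 h1
    exact XX.ext (sub_eq_zero.1 h3).symm

lemma dist_def (x y : XX M) : dist x y = riemDist M.G x.val y.val := rfl

lemma inner_nonneg {p q : Y 34} (hp : p ∈ Cover 34) (hq : q ∈ Cover 34) (h : ‖q - p‖ ≤ 1 / 5) :
    0 ≤ ∑ a, p.2 a * q.2 a := by
  have e : ∀ a, p.2 a * q.2 a = (p.2 a ^ 2 + q.2 a ^ 2) / 2 - (q.2 a - p.2 a) ^ 2 / 2 :=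
    fun a => by ring
  have h1 : ∑ a, (q.2 a - p.2 a) ^ 2 ≤ ∑ _a : Fin 34, (1 / 5 : ℝ) ^ 2 := by
    apply Finset.sum_le_sum
    intro a _
    have : |q.2 a - p.2 a| ≤ 1 / 5 :=
      ((norm_le_pi_norm (q - p).2 a).trans (norm_snd_le (q - p))).trans h
    rw [← sq_abs]
    exact pow_le_pow_left₀ (abs_nonneg _) this 2
  have hp' : ∑ a, p.2 a ^ 2 = 1 := hp
  have hq' : ∑ a, q.2 a ^ 2 = 1 := hq
  simp only [e, Finset.sum_sub_distrib, ← Finset.sum_div, Finset.sum_add_distrib, hp', hq']
  simp only [Finset.sum_const, Finset.card_univ, Fintype.card_fin] at h1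
  norm_num at h1 ⊢
  linarith

lemma exists_dist_le : ∃ C : ℝ, 0 < C ∧ ∀ x y : XX M, ‖y.val - x.val‖ ≤ 1 / 5 →
    dist x y ≤ C * ‖y.val - x.val‖ := by
  obtain ⟨C, hC0, hC⟩ := M.exists_near
  refine ⟨C, hC0, fun x y h => ?_⟩
  obtain ⟨L, hL, hL'⟩ := hC x.val x.mem y.val y.mem (inner_nonneg x.mem y.mem h)
  exact (M.dist_le hL').trans hL

lemma exists_norm_le : ∃ C : ℝ, 0 < C ∧ ∀ x y : XX M, ‖y.val - x.val‖ ≤ C * dist x y := by
  obtain ⟨C, hC0, hC⟩ := M.exists_norm_le zero_ne_one34
  exact ⟨C, hC0, fun x y => hC _ x.mem _ y.mem⟩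

lemma isInducing_val : IsInducing (val : XX M → Y 34) := by
  rw [isInducing_iff_nhds]
  intro x
  apply le_antisymm
  · obtain ⟨C, hC0, hC⟩ := exists_norm_le (M := M)
    rw [← Filter.tendsto_iff_comap]
    rw [Metric.tendsto_nhds_nhds]
    intro ε hε
    refine ⟨ε / C, by positivity, fun {y} hy => ?_⟩
    rw [dist_eq_norm]
    have := hC x y
    rw [_root_.dist_comm] at hy
    calc ‖y.val - x.val‖ ≤ C * dist x y := this
      _ < C * (ε / C) := by gcongr
      _ = ε := by field_simp
  · obtain ⟨C, hC0, hC⟩ := exists_dist_le (M := M)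
    rw [(Metric.nhds_basis_ball (x := x)).ge_iff]
    intro ε hε
    rw [mem_comap]
    refine ⟨Metric.ball x.val (min (1 / 5) (ε / C)), Metric.ball_mem_nhds _ (by positivity), ?_⟩
    intro y hy
    simp only [mem_preimage, Metric.mem_ball, dist_eq_norm] at hy
    rw [Metric.mem_ball, _root_.dist_comm]
    have h1 := hC x y (hy.le.trans (min_le_left _ _))
    calc dist x y ≤ C * ‖y.val - x.val‖ := h1
      _ < C * (ε / C) := by
        have := hy.trans_le (min_le_right _ _)
        gcongr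
      _ = ε := by field_simp

lemma isClosedEmbedding_val : IsClosedEmbedding (val : XX M → Y 34) := by
  refine ⟨⟨isInducing_val, fun x y h => XX.ext h⟩, ?_⟩
  have : range (val : XX M → Y 34) = Cover 34 := by
    ext p
    constructor
    · rintro ⟨x, rfl⟩
      exact x.mem
    · intro hp
      exact ⟨mk p hp, rfl⟩
  rw [this]
  exact isClosed_cover

lemma continuous_val : Continuous (val : XX M → Y 34) := isInducing_val.continuous

instance : ProperSpace (XX M) := by
  refine ⟨fun x r => ?_⟩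
  obtain ⟨C, hC0, hC⟩ := exists_norm_le (M := M)
  have h1 := isClosedEmbedding_val (M := M) |>.isCompact_preimage
    (PMet.isCompact_slab (n := 34) (‖x.val‖ + C * r))
  refine h1.of_isClosed_subset Metric.isClosed_closedBall ?_
  intro y hy
  rw [Metric.mem_closedBall, _root_.dist_comm] at hy
  refine ⟨y.mem, fun i => ?_⟩
  have h2 : ‖y.val‖ ≤ ‖x.val‖ + ‖y.val - x.val‖ := by
    have := norm_add_le x.val (y.val - x.val)
    simpa using this
  have h3 : C * dist x y ≤ C * r := by gcongr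
  have h4 := hC x y
  have h5 : |y.val.1 i| ≤ ‖y.val‖ := (norm_le_pi_norm y.val.1 i).trans (norm_fst_le y.val)
  linarith

end XX

end Pool.Agent.W535.MG
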