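import Pool.Agent.W535.MG.Sections
import Pool.Agent.W535.MG.Space
import Pool.Agent.W535.MG.Final

/-!
The metric and its net.
-/

namespace Pool.Agent.W535.MG

open Filter Topology Set
open scoped Manifold ContDiff

/-- metrics adapted to the network -/
structure Adapted (M : PMet 34) : Prop where
  calib : ∀ p (σ : Sg) v, (fderiv ℝ (uu aa σ) p v) ^ 2 ≤ M.G p v v
  strict : ∀ p, p ∉ NN → ∃ om : ℝ, 0 < om ∧ ∀ᶠ q in 𝓝 p, ∀ (σ : Sg) v,
    (fderiv ℝ (uu aa σ) q v) ^ 2 + om * ‖v‖ ^ 2 ≤ M.G q v v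
  line : ∀ i x m, M.G (lin i x m) (Pi.single i 1, 0) (Pi.single i 1, 0) ≤ 1
  curve : ∀ k r, M.G (gam k r) (deriv (gam k) r) (deriv (gam k) r)
    ≤ (fderiv ℝ (uu aa k.2.2) (gam k r) (deriv (gam k) r)) ^ 2

lemma exists_section : ∃ f : Y 34 → Form 34, ContDiff ℝ (⊤ : ℕ∞) f ∧ ∀ p, f p ∈ TT p := by
  obtain ⟨g, hg⟩ := exists_contMDiffMap_forall_mem_convex_of_local (n := ⊤) 𝓘(ℝ, Y 34)
    (t := TT) TT_convex (fun p₀ => by
      obtain ⟨U, hU, f, hf, hfm⟩ := local_section p₀
      exact ⟨U, hU, f, hf.contMDiff.contMDiffOn, hfm⟩)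
  exact ⟨g, g.contMDiff.contDiff, hg⟩

lemma NN_add_lat (p : Y 34) (g : Fin 2 → ℤ) : p + lat g ∈ NN ↔ p ∈ NN := by
  have key : ∀ (p : Y 34) (g : Fin 2 → ℤ), p ∈ NN → p + lat g ∈ NN := by
    rintro p g (⟨i, x, m, rfl⟩ | ⟨k, r, g', rfl⟩)
    · left
      exact ⟨i, _, _, lin_add_lat i x m g⟩
    · right
      exact ⟨k, r, g' + g, by rw [lat_add, add_assoc]⟩
  constructor
  · intro h
    have := key _ (-g) h
    rwa [lat_neg, add_neg_cancel_right] at this
  · exact key p g

lemma exists_omega : ∃ om : Y 34 → ℝ, ContDiff ℝ (⊤ : ℕ∞) om ∧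
    (∀ p, 0 ≤ om p ∧ (om p = 0 ↔ p ∈ NN)) ∧ ∀ p g, om (p + lat g) = om p := by
  obtain ⟨f, hf1, hf2, hf3⟩ := isClosed_NN.isOpen_compl.exists_contDiff_support_eq (n := ⊤)
  have hnn : ∀ p, 0 ≤ f p := fun p => (hf3 ⟨p, rfl⟩).1
  have hz : ∀ p, f p = 0 ↔ p ∈ NN := by
    intro p
    have : p ∈ Function.support f ↔ p ∈ NNᶜ := by rw [hf1]
    rw [Function.mem_support, mem_compl_iff] at this
    exact not_iff_not.1 this
  obtain ⟨F, h1, h2, h3⟩ := exists_periodic (f := f) hf2
    (t := fun p => {x : ℝ | 0 ≤ x ∧ (x = 0 ↔ p ∈ NN)}) (by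
      intro p x hx y hy a b ha hb hab
      have hx1 : 0 ≤ x := hx.1
      have hy1 : 0 ≤ y := hy.1
      refine ⟨by simp only [smul_eq_mul]; positivity, ?_⟩
      simp only [smul_eq_mul]
      constructor
      · intro h
        by_contra hp
        have hx0 : x ≠ 0 := fun h => hp (hx.2.1 h)
        have hy0 : y ≠ 0 := fun h => hp (hy.2.1 h)
        have hx2 : 0 < x := lt_of_le_of_ne hx1 hx0.symm
        have hy2 : 0 < y := lt_of_le_of_ne hy1 hy0.symm
        rcases ha.lt_or_eq with h' | h'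
        · have := mul_pos h' hx2
          have := mul_nonneg hb hy1
          linarith
        · have hb1 : b = 1 := by linarith
          rw [← h', hb1] at h
          linarith
      · intro hp
        rw [hx.2.2 hp, hy.2.2 hp]; ring) (by
      intro p g
      ext x
      simp only [mem_ofPred_eq, NN_add_lat]) (fun p => ⟨hnn p, hz p⟩)
  exact ⟨F, h1, h2, h3⟩

theorem exists_adapted : ∃ M : PMet 34, Adapted M := by
  obtain ⟨f, hf1, hf2⟩ := exists_section
  obtain ⟨F, hF1, hF2, hF3⟩ := exists_periodic hf1 TT_convex TT_add_lat hf2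
  obtain ⟨om, hom1, hom2, hom3⟩ := exists_omega
  have happ : ∀ p v w, (F p + BB (om p)) v w = F p v w + om p * B0 v w := by
    intro p v w
    rw [_root_.add_apply, _root_.add_apply, BB_apply]
  have hB0 : ∀ v : Y 34, 0 ≤ B0 v v := fun v => (sq_nonneg _).trans (norm_sq_le_B0 v)
  refine ⟨⟨fun p => F p + BB (om p), hF1.add (BB_contDiff hom1), ?_, ?_, ?_⟩, ?_, ?_, ?_, ?_⟩
  · intro p v w
    rw [happ, happ, (hF2 p).1 v w, B0, Res_symm]
  · intro p v hv
    rw [happ]
    have h1 := (hF2 p).2.1 v hv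
    have h2 := mul_nonneg (hom2 p).1 (hB0 v)
    linarith
  · intro p g
    show F (p + lat g) + BB (om (p + lat g)) = F p + BB (om p)
    rw [hF3, hom3]
  · intro p σ v
    simp only
    rw [happ]
    have h1 := (hF2 p).2.2.1 σ v
    have h2 := mul_nonneg (hom2 p).1 (hB0 v)
    linarith
  · intro p hp
    have h0 : 0 < om p := lt_of_le_of_ne (hom2 p).1 (fun h => hp ((hom2 p).2.1 h.symm))
    refine ⟨om p / 2, by positivity, ?_⟩
    have h1 : ∀ᶠ q in 𝓝 p, om p / 2 < om q :=
      (hom1.continuous.tendsto p).eventually_const_lt (by linarith)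
    filter_upwards [h1] with q hq σ v
    rw [happ]
    have h2 := (hF2 q).2.2.1 σ v
    have h3 : om p / 2 * ‖v‖ ^ 2 ≤ om q * B0 v v :=
      mul_le_mul hq.le (norm_sq_le_B0 v) (sq_nonneg _) (by linarith)
    linarith
  · intro i x m
    simp only
    rw [happ]
    have h1 := (hF2 (lin i x m)).2.2.2.1 i x m rfl
    have h2 : om (lin i x m) = 0 := (hom2 _).2.2 (Or.inl ⟨i, x, m, rfl⟩)
    rw [h2, zero_mul, add_zero]
    exact h1
  · intro k r
    simp only
    rw [happ]
    have e : gam k r = gam k r + lat 0 := by rw [lat_zero, add_zero]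
    have h1 := (hF2 (gam k r)).2.2.2.2 k r 0 e
    have h2 : om (gam k r) = 0 := (hom2 _).2.2 (Or.inr ⟨k, r, 0, e⟩)
    rw [h2, zero_mul, add_zero]
    exact h1

section rigid

variable {M : PMet 34} (hM : Adapted M)
include hM

lemma uu_lip_XX (σ : Sg) (x y : XX M) : uu aa σ y.val - uu aa σ x.val ≤ dist x y :=
  M.calib_dist XX.zero_ne_one34 ((uu_aa_contDiff σ).of_le (by simp)) (fun p _ v => hM.calib p σ v)
    x.mem y.mem

/-- calibrated lines stay in the network -/
lemma mem_NN {c : ℝ → XX M} (hc : Isometry c) (σ : Sg)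
    (hu : ∀ s t, uu aa σ (c t).val - uu aa σ (c s).val = t - s) (t₀ : ℝ) :
    (c t₀).val ∈ NN := by
  by_contra hp
  set p₀ := (c t₀).val with hp₀
  obtain ⟨om, hom, hst⟩ := hM.strict p₀ hp
  have hcu : Continuous (uu aa σ) := (uu_aa_contDiff σ).continuous
  have hnear : ∀ᶠ q in 𝓝 p₀, |uu aa σ q - uu aa σ p₀| < 1 := by
    have hc' : Continuous fun q => |uu aa σ q - uu aa σ p₀| := by fun_prop
    apply (hc'.tendsto p₀).eventually_lt_const
    simp
  obtain ⟨f, hf1, hf2, hf3, hf4, hf5⟩ :=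
    exists_contDiff_tsupport_subset (n := ⊤) (hst.and hnear : _ ∈ 𝓝 p₀)
  have hf3' : ContDiff ℝ 1 f := hf3.of_le (by simp)
  have hfd : Continuous (fderiv ℝ f) := hf3'.continuous_fderiv one_ne_zero
  have hud : Continuous (fderiv ℝ (uu aa σ)) := (uu_aa_contDiff σ).continuous_fderiv (by simp)
  obtain ⟨C, hC⟩ := hf2.isCompact.exists_bound_of_continuousOn hfd.continuousOn
  obtain ⟨C', hC'⟩ := hf2.isCompact.exists_bound_of_continuousOn hud.continuousOn
  set K := max (max C C') 1 with hK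
  have hK0 : 0 < K := lt_max_of_lt_right one_pos
  have hK1 : ∀ q ∈ tsupport f, ‖fderiv ℝ f q‖ ≤ K := fun q hq =>
    (hC q hq).trans ((le_max_left _ _).trans (le_max_left _ _))
  have hK2 : ∀ q ∈ tsupport f, ‖fderiv ℝ (uu aa σ) q‖ ≤ K := fun q hq =>
    (hC' q hq).trans ((le_max_right _ _).trans (le_max_left _ _))
  set ε := min 1 (om / (3 * K ^ 2)) with hε
  have hε0 : 0 < ε := by positivity
  have hε1 : ε ≤ 1 := min_le_left _ _
  have hε2 : 3 * K ^ 2 * ε ≤ om := by
    have : ε ≤ om / (3 * K ^ 2) := min_le_right _ _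
    rw [le_div_iff₀ (by positivity)] at this
    linarith
  have hg : ContDiff ℝ 1 fun q => uu aa σ q + ε * f q :=
    ((uu_aa_contDiff σ).of_le (by simp)).add (contDiff_const.mul hf3')
  have hcal : ∀ q ∈ Cover 34, ∀ v,
      (fderiv ℝ (fun q => uu aa σ q + ε * f q) q v) ^ 2 ≤ M.G q v v := by
    intro q _ v
    have hd1 : HasFDerivAt (uu aa σ) (fderiv ℝ (uu aa σ) q) q :=
      ((uu_aa_contDiff σ).differentiable (by simp) q).hasFDerivAt
    have hd2 : HasFDerivAt f (fderiv ℝ f q) q :=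
      (hf3'.differentiable one_ne_zero q).hasFDerivAt
    have hd3 := (hd1.add (hd2.const_mul ε)).fderiv
    have hd4 : fderiv ℝ (fun q => uu aa σ q + ε * f q) q v
        = fderiv ℝ (uu aa σ) q v + ε * fderiv ℝ f q v := by
      have : fderiv ℝ (fun q => uu aa σ q + ε * f q) q
          = fderiv ℝ (uu aa σ) q + ε • fderiv ℝ f q := hd3
      rw [this]; simp
    rw [hd4]
    by_cases hq : q ∈ tsupport f
    · obtain ⟨h1, _⟩ := hf1 hq
      have h2 := h1 σ v
      have b1 : |fderiv ℝ (uu aa σ) q v| ≤ K * ‖v‖ :=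
        ((fderiv ℝ (uu aa σ) q).le_opNorm v).trans
          (mul_le_mul_of_nonneg_right (hK2 q hq) (norm_nonneg _))
      have b2 : |fderiv ℝ f q v| ≤ K * ‖v‖ :=
        ((fderiv ℝ f q).le_opNorm v).trans
          (mul_le_mul_of_nonneg_right (hK1 q hq) (norm_nonneg _))
      have b3 : |fderiv ℝ (uu aa σ) q v * fderiv ℝ f q v| ≤ (K * ‖v‖) * (K * ‖v‖) := by
        rw [abs_mul]
        exact mul_le_mul b1 b2 (abs_nonneg _) (by positivity)
      have b4 : (fderiv ℝ f q v) ^ 2 ≤ (K * ‖v‖) ^ 2 := by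
        rw [← sq_abs]
        exact pow_le_pow_left₀ (abs_nonneg _) b2 2
      have b5 := le_abs_self (fderiv ℝ (uu aa σ) q v * fderiv ℝ f q v)
      have b6 : (fderiv ℝ (uu aa σ) q v + ε * fderiv ℝ f q v) ^ 2
          = (fderiv ℝ (uu aa σ) q v) ^ 2 + 2 * ε * (fderiv ℝ (uu aa σ) q v * fderiv ℝ f q v)
            + ε ^ 2 * (fderiv ℝ f q v) ^ 2 := by ring
      rw [b6]
      have b7 : 2 * ε * (fderiv ℝ (uu aa σ) q v * fderiv ℝ f q v)
          ≤ 2 * ε * ((K * ‖v‖) * (K * ‖v‖)) := by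
        apply mul_le_mul_of_nonneg_left _ (by positivity)
        linarith
      have b8 : ε ^ 2 * (fderiv ℝ f q v) ^ 2 ≤ ε * (K * ‖v‖) ^ 2 := by
        apply mul_le_mul _ b4 (sq_nonneg _) hε0.le
        rw [sq]
        exact mul_le_of_le_one_left hε0.le hε1
      have b9 : 2 * ε * ((K * ‖v‖) * (K * ‖v‖)) + ε * (K * ‖v‖) ^ 2 ≤ om * ‖v‖ ^ 2 := by
        have : 2 * ε * ((K * ‖v‖) * (K * ‖v‖)) + ε * (K * ‖v‖) ^ 2
            = (3 * K ^ 2 * ε) * ‖v‖ ^ 2 := by ring
        rw [this]
        exact mul_le_mul_of_nonneg_right hε2 (sq_nonneg _)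
      linarith
    · have hz : fderiv ℝ f q = 0 := by
        have h1 : f =ᶠ[𝓝 q] fun _ => (0 : ℝ) := by
          have := (isClosed_tsupport f).isOpen_compl.mem_nhds hq
          filter_upwards [this] with y hy
          exact image_eq_zero_of_notMem_tsupport hy
        rw [h1.fderiv_eq]
        simp
      rw [hz]
      simp only [_root_.zero_apply, mul_zero, add_zero]
      exact hM.calib q σ v
  have h1 := M.calib_dist XX.zero_ne_one34 hg hcal (c (t₀ - 1)).mem (c t₀).mem
  have h2 : riemDist M.G (c (t₀ - 1)).val (c t₀).val = 1 := by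
    have := hc.dist_eq (t₀ - 1) t₀
    rw [XX.dist_def, Real.dist_eq] at this
    rw [this]
    norm_num
  have h3 := hu (t₀ - 1) t₀
  have h4 : f (c (t₀ - 1)).val = 0 := by
    apply image_eq_zero_of_notMem_tsupport
    intro hmem
    have h5 := (hf1 hmem).2
    rw [← hp₀] at h3
    have : uu aa σ (c (t₀ - 1)).val - uu aa σ p₀ = -1 := by linarith
    rw [this] at h5
    norm_num at h5
  rw [h2, h4, ← hp₀, hf5] at h1
  rw [← hp₀] at h3
  linarith

lemma rigid_XX {c : ℝ → XX M} (hc : Isometry c) (σ : Sg)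
    (hu : ∀ s t, uu aa σ (c t).val - uu aa σ (c s).val = t - s) :
    (∃ i m, ∀ t, ∃ x, (c t).val = lin i x m) ∨
      (∃ k g, ∀ t, ∃ r, (c t).val = gam k r + lat g) := by
  have hN := mem_NN hM hc σ hu
  have hcont : Continuous fun t => (c t).val := XX.continuous_val.comp hc.continuous
  by_cases hcase : ∃ t₀, (c t₀).val ∉ Lines
  · right
    obtain ⟨t₀, ht₀⟩ := hcase
    rcases hN t₀ with h | ⟨k, r₀, g, h⟩
    · exact absurd h ht₀
    refine ⟨k, g, ?_⟩
    set T : Set ℝ := {t | ∃ r, (c t).val = gam k r + lat g} with hT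
    have hcl : IsClosed T := (isClosed_curve k g).preimage hcont
    have hop : IsOpen T := by
      rw [isOpen_iff_mem_nhds]
      rintro t ⟨r, hr⟩
      have e1 := local_unique k r g 1 one_pos
      have e2 := eventually_not_lines (gam_not_lines k r g)
      rw [← hr] at e1 e2
      have e3 := hcont.tendsto t (e1.and e2)
      filter_upwards [e3] with t' ht'
      rcases hN t' with h' | ⟨k', r', g', h'⟩
      · exact absurd h' ht'.2
      · obtain ⟨a1, a2, _⟩ := ht'.1 k' r' g' h'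
        rw [a1, a2] at h'
        exact ⟨r', h'⟩
    have huniv : T = univ := IsClopen.eq_univ ⟨hcl, hop⟩ ⟨t₀, r₀, h⟩
    intro t
    have : t ∈ T := by rw [huniv]; exact mem_univ t
    exact this
  · left
    push Not at hcase
    obtain ⟨i, x₀, m, h0⟩ := hcase 0
    refine ⟨i, m, ?_⟩
    set T : Set ℝ := {t | ∃ x, (c t).val = lin i x m} with hT
    have hcl : IsClosed T := by
      have : T = (fun t => (c t).val) ⁻¹' {p : Y 34 | p.2 = eb (Sum.inl i) ∧ p.1 (i + 1) = m} := by
        ext t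
        constructor
        · rintro ⟨x, hx⟩
          constructor
          · show (c t).val.2 = _
            rw [hx]; rfl
          · show (c t).val.1 (i + 1) = _
            rw [hx]; simp [lin]
        · rintro ⟨h1, h2⟩
          refine ⟨(c t).val.1 i, ?_⟩
          apply Prod.ext
          · funext l
            rcases eq_or_eq_add_one i l with h | h
            · simp [lin, h]
            · simp only [lin, h, add_one_ne, if_false]
              exact h2
          · exact h1
      rw [this]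
      apply IsClosed.preimage hcont
      apply IsClosed.inter
      · exact isClosed_eq continuous_snd continuous_const
      · exact isClosed_eq (coord1_cont (i + 1)) continuous_const
    have hop : IsOpen T := by
      rw [isOpen_iff_mem_nhds]
      rintro t ⟨x, hx⟩
      have e1 := near_lin i x m
      rw [← hx] at e1
      have e3 := hcont.tendsto t e1
      filter_upwards [e3] with t' ht'
      obtain ⟨i', x', m', h'⟩ := hcase t'
      obtain ⟨a1, a2⟩ := ht'.1 i' x' m' h'
      rw [a1, a2] at h'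
      exact ⟨x', h'⟩
    have huniv : T = univ := IsClopen.eq_univ ⟨hcl, hop⟩ ⟨0, x₀, h0⟩
    intro t
    have : t ∈ T := by rw [huniv]; exact mem_univ t
    exact this

end rigid

end Pool.Agent.W535.MG
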