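import Mathlib

/-!
Abstract part of the construction of a closed manifold with finitely many minimal geodesics:
a metric space with a cocompact `ℤ²`-action, two calibrating coordinates and a network of
asymptotic curves; every isometric line is then one of the curves of the network.
-/

namespace Pool.Agent.W535.MG

open Filter Topology

/-- sign vectors -/
abbrev Sg := Fin 2 → ℤˣ

/-- real value of a sign -/
def sg (e : ℤˣ) : ℝ := ((e : ℤ) : ℝ)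

lemma sg_mul_self (e : ℤˣ) : sg e * sg e = 1 := by
  rcases Int.units_eq_one_or e with h | h <;> simp [sg, h]

lemma sg_neg (e : ℤˣ) : sg (-e) = - sg e := by simp [sg]

lemma abs_sg (e : ℤˣ) : |sg e| = 1 := by
  rcases Int.units_eq_one_or e with h | h <;> simp [sg, h]

/-- index set of the heteroclinic curves -/
abbrev KK := Bool × Fin 2 × Sg

lemma sum_fin2 (i : Fin 2) (f : Fin 2 → ℝ) : ∑ l, f l = f i + f (i + 1) := by
  fin_cases i
  · simp [Fin.sum_univ_two]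
  · simp [Fin.sum_univ_two, add_comm]

lemma add_one_add_one (i : Fin 2) : i + 1 + 1 = i := by
  fin_cases i <;> rfl

lemma add_one_ne (i : Fin 2) : i + 1 ≠ i := by
  fin_cases i <;> decide

lemma eq_or_eq_add_one (i l : Fin 2) : l = i ∨ l = i + 1 := by
  fin_cases i <;> fin_cases l <;> simp

/-- The calibrating function `u_σ = σ₀ a₀ + σ₁ a₁`. -/
def uu {X : Type*} (a : Fin 2 → X → ℝ) (σ : Sg) (x : X) : ℝ := ∑ i, sg (σ i) * a i x

lemma uu_eq {X : Type*} (a : Fin 2 → X → ℝ) (σ : Sg) (x : X) (i : Fin 2) :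
    uu a σ x = sg (σ i) * a i x + sg (σ (i + 1)) * a (i + 1) x := sum_fin2 i _

/-- The abstract structure. -/
structure Net (X : Type*) [MetricSpace X] where
  act : (Fin 2 → ℤ) → X → X
  act_dist : ∀ g x y, dist (act g x) (act g y) = dist x y
  act_act : ∀ g h x, act g (act h x) = act (g + h) x
  act_zero : ∀ x, act 0 x = x
  a : Fin 2 → X → ℝ
  a_act : ∀ i g x, a i (act g x) = a i x + g i
  lip : ∀ (σ : Sg) (x y : X), uu a σ y - uu a σ x ≤ dist x y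
  cocpt : ∃ (x₀ : X) (R : ℝ), ∀ x, ∃ g, dist (act g x) x₀ ≤ R
  A : Fin 2 → ℝ → ℤ → X
  A_dist : ∀ i x y m, dist (A i x m) (A i y m) ≤ |x - y|
  a_same : ∀ i x m, a i (A i x m) = x
  a_other : ∀ i x m, a (i + 1) (A i x m) = m
  act_A : ∀ g i x m, act g (A i x m) = A i (x + g i) (m + g (i + 1))
  coarse : ∃ C, ∀ x y, dist x y ≤ |a 0 x - a 0 y| + |a 1 x - a 1 y| + C
  γ : KK → ℝ → X
  U_mono : ∀ k : KK, StrictMono (fun r => uu a k.2.2 (γ k r))
  γ_dist : ∀ (k : KK) r r', r ≤ r' →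
    dist (γ k r) (γ k r') ≤ uu a k.2.2 (γ k r') - uu a k.2.2 (γ k r)
  start : ∀ (b : Bool) (i : Fin 2) (σ : Sg) (ε : ℝ), 0 < ε → ∃ R, ∀ r, r ≤ -R →
    dist (γ (b, i, σ) r) (A i (sg (σ i) * (r - 1 / 2)) 0) ≤ ε
  stopJ : ∀ (i : Fin 2) (σ : Sg) (ε : ℝ), 0 < ε → ∃ R, ∀ r, R ≤ r →
    dist (γ (false, i, σ) r) (A i (sg (σ i) * (r - 1 / 2)) (σ (i + 1))) ≤ ε
  stopT : ∀ (i : Fin 2) (σ : Sg) (ε : ℝ), 0 < ε → ∃ R, ∀ r, R ≤ r →
    dist (γ (true, i, σ) r) (A (i + 1) (sg (σ (i + 1)) * (r + 1 / 2)) 0) ≤ ε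
  rigid : ∀ (c : ℝ → X) (σ : Sg), Isometry c →
    (∀ s t, uu a σ (c t) - uu a σ (c s) = t - s) →
    (∃ i m, ∀ t, ∃ x, c t = A i x m) ∨ (∃ k g, ∀ t, ∃ r, c t = act g (γ k r))

namespace Net

variable {X : Type*} [MetricSpace X] (N : Net X)

/-- excess -/
def D (σ : Sg) (x y : X) : ℝ := dist x y - (uu N.a σ y - uu N.a σ x)

lemma D_nonneg (σ : Sg) (x y : X) : 0 ≤ N.D σ x y := by
  have := N.lip σ x y
  unfold D; linarith

lemma D_tri (σ : Sg) (x y z : X) : N.D σ x z ≤ N.D σ x y + N.D σ y z := by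
  have := dist_triangle x y z
  unfold D; linarith

lemma D_le (σ : Sg) (x y : X) : N.D σ x y ≤ 2 * dist x y := by
  have := N.lip σ y x
  rw [dist_comm] at this
  unfold D; linarith

lemma uu_act (σ : Sg) (g : Fin 2 → ℤ) (x : X) :
    uu N.a σ (N.act g x) = uu N.a σ x + ∑ i, sg (σ i) * g i := by
  simp only [uu, N.a_act, ← Finset.sum_add_distrib]
  refine Finset.sum_congr rfl fun i _ => by ring

lemma D_act (σ : Sg) (g : Fin 2 → ℤ) (x y : X) :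
    N.D σ (N.act g x) (N.act g y) = N.D σ x y := by
  simp only [D, N.act_dist, N.uu_act]; ring

lemma uu_A (σ : Sg) (i : Fin 2) (x : ℝ) (m : ℤ) :
    uu N.a σ (N.A i x m) = sg (σ i) * x + sg (σ (i + 1)) * m := by
  rw [uu_eq N.a σ _ i, N.a_same, N.a_other]

lemma D_line (σ : Sg) (i : Fin 2) (x y : ℝ) (m : ℤ) (h : 0 ≤ sg (σ i) * (y - x)) :
    N.D σ (N.A i x m) (N.A i y m) ≤ 0 := by
  have h1 := N.A_dist i x y m
  have h2 : |x - y| = sg (σ i) * (y - x) := by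
    rw [← abs_of_nonneg h, abs_mul, abs_sg, one_mul, abs_sub_comm]
  unfold D
  rw [N.uu_A, N.uu_A]
  linarith

lemma D_γ (k : KK) {r r' : ℝ} (h : r ≤ r') : N.D k.2.2 (N.γ k r) (N.γ k r') ≤ 0 := by
  have := N.γ_dist k r r' h
  unfold D; linarith

lemma D_close {σ : Sg} {x x' y y' : X} {ε : ℝ} (hx : dist x x' ≤ ε) (hy : dist y y' ≤ ε) :
    N.D σ x y ≤ N.D σ x' y' + 4 * ε := by
  have h1 := N.D_tri σ x x' y
  have h2 := N.D_tri σ x' y' y
  have h3 := N.D_le σ x x'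
  have h4 := N.D_le σ y' y
  rw [dist_comm] at h4
  linarith

lemma sg_mul_sg_mul (e : ℤˣ) (x : ℝ) : sg e * (sg e * x) = x := by
  rw [← mul_assoc, sg_mul_self, one_mul]

lemma exists_int_sg (e : ℤˣ) (x : ℝ) : ∃ n : ℤ, x ≤ sg e * n ∧ sg e * n ≤ x + 1 := by
  refine ⟨(e : ℤ) * ⌈x⌉, ?_⟩
  have : sg e * (((e : ℤ) * ⌈x⌉ : ℤ) : ℝ) = ⌈x⌉ := by
    push_cast
    exact sg_mul_sg_mul e _
  rw [this]
  exact ⟨Int.le_ceil x, (Int.ceil_lt_add_one x).le⟩

/-- one jump -/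
lemma jump (σ : Sg) (i : Fin 2) (ε : ℝ) (hε : 0 < ε) : ∃ R, ∀ (x y : ℝ) (m : ℤ),
    R ≤ sg (σ i) * (y - x) → N.D σ (N.A i x m) (N.A i y (m + σ (i + 1))) ≤ ε := by
  obtain ⟨R₁, h₁⟩ := N.start false i σ (ε / 4) (by linarith)
  obtain ⟨R₂, h₂⟩ := N.stopJ i σ (ε / 4) (by linarith)
  set R₀ := max (max R₁ R₂) 0 with hR₀
  have hR1 : R₁ ≤ R₀ := le_trans (le_max_left _ _) (le_max_left _ _)
  have hR2 : R₂ ≤ R₀ := le_trans (le_max_right _ _) (le_max_left _ _)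
  have hR3 : 0 ≤ R₀ := le_max_right _ _
  refine ⟨2 * R₀ + 1, fun x y m hxy => ?_⟩
  obtain ⟨n, hn1, hn2⟩ := exists_int_sg (σ i) (sg (σ i) * x + R₀ + 1 / 2)
  let g : Fin 2 → ℤ := fun l => if l = i then n else m
  have gi : g i = n := by simp [g]
  have gj : g (i + 1) = m := by simp [g]
  have e1 : N.act g (N.A i (sg (σ i) * (-R₀ - 1 / 2)) 0)
      = N.A i (sg (σ i) * (-R₀ - 1 / 2) + n) m := by
    rw [N.act_A, gi, gj, zero_add]
  have e2 : N.act g (N.A i (sg (σ i) * (R₀ - 1 / 2)) (σ (i + 1)))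
      = N.A i (sg (σ i) * (R₀ - 1 / 2) + n) (m + σ (i + 1)) := by
    rw [N.act_A, gi, gj, add_comm (m : ℤ)]
  have d1 : N.D σ (N.A i x m) (N.act g (N.A i (sg (σ i) * (-R₀ - 1 / 2)) 0)) ≤ 0 := by
    rw [e1]
    apply N.D_line
    have : sg (σ i) * (sg (σ i) * (-R₀ - 1 / 2) + n - x)
        = sg (σ i) * (sg (σ i) * (-R₀ - 1 / 2)) + sg (σ i) * n - sg (σ i) * x := by ring
    rw [this, sg_mul_sg_mul]
    linarith
  have d5 : N.D σ (N.act g (N.A i (sg (σ i) * (R₀ - 1 / 2)) (σ (i + 1))))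
      (N.A i y (m + σ (i + 1))) ≤ 0 := by
    rw [e2]
    apply N.D_line
    have : sg (σ i) * (y - (sg (σ i) * (R₀ - 1 / 2) + n))
        = sg (σ i) * (y - x) - sg (σ i) * (sg (σ i) * (R₀ - 1 / 2)) - sg (σ i) * n
          + sg (σ i) * x := by ring
    rw [this, sg_mul_sg_mul]
    linarith
  have d2 : N.D σ (N.act g (N.A i (sg (σ i) * (-R₀ - 1 / 2)) 0))
      (N.act g (N.γ (false, i, σ) (-R₀))) ≤ ε / 2 := by
    rw [N.D_act]
    have h := h₁ (-R₀) (by linarith)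
    have := N.D_le σ (N.A i (sg (σ i) * (-R₀ - 1 / 2)) 0) (N.γ (false, i, σ) (-R₀))
    rw [dist_comm] at this
    linarith
  have d3 : N.D σ (N.act g (N.γ (false, i, σ) (-R₀))) (N.act g (N.γ (false, i, σ) R₀)) ≤ 0 := by
    rw [N.D_act]
    exact N.D_γ (false, i, σ) (by linarith)
  have d4 : N.D σ (N.act g (N.γ (false, i, σ) R₀))
      (N.act g (N.A i (sg (σ i) * (R₀ - 1 / 2)) (σ (i + 1)))) ≤ ε / 2 := by
    rw [N.D_act]
    have h := h₂ R₀ hR2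
    have := N.D_le σ (N.γ (false, i, σ) R₀) (N.A i (sg (σ i) * (R₀ - 1 / 2)) (σ (i + 1)))
    linarith
  have t1 := N.D_tri σ (N.A i x m) (N.act g (N.A i (sg (σ i) * (-R₀ - 1 / 2)) 0))
    (N.A i y (m + σ (i + 1)))
  have t2 := N.D_tri σ (N.act g (N.A i (sg (σ i) * (-R₀ - 1 / 2)) 0))
    (N.act g (N.γ (false, i, σ) (-R₀))) (N.A i y (m + σ (i + 1)))
  have t3 := N.D_tri σ (N.act g (N.γ (false, i, σ) (-R₀))) (N.act g (N.γ (false, i, σ) R₀))
    (N.A i y (m + σ (i + 1)))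
  have t4 := N.D_tri σ (N.act g (N.γ (false, i, σ) R₀))
    (N.act g (N.A i (sg (σ i) * (R₀ - 1 / 2)) (σ (i + 1)))) (N.A i y (m + σ (i + 1)))
  linarith

/-- transition between lines of different type -/
lemma trans (σ : Sg) (i : Fin 2) (ε : ℝ) (hε : 0 < ε) : ∃ R, ∀ (x y : ℝ) (m n : ℤ),
    R ≤ sg (σ i) * (n - x) → R ≤ sg (σ (i + 1)) * (y - m) →
    N.D σ (N.A i x m) (N.A (i + 1) y n) ≤ ε := by
  obtain ⟨R₁, h₁⟩ := N.start true i σ (ε / 4) (by linarith)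
  obtain ⟨R₂, h₂⟩ := N.stopT i σ (ε / 4) (by linarith)
  set R₀ := max (max R₁ R₂) 0 with hR₀
  have hR1 : R₁ ≤ R₀ := le_trans (le_max_left _ _) (le_max_left _ _)
  have hR2 : R₂ ≤ R₀ := le_trans (le_max_right _ _) (le_max_left _ _)
  have hR3 : 0 ≤ R₀ := le_max_right _ _
  refine ⟨R₀ + 1 / 2, fun x y m n hnx hym => ?_⟩
  let g : Fin 2 → ℤ := fun l => if l = i then n else m
  have gi : g i = n := by simp [g]
  have gj : g (i + 1) = m := by simp [g]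
  have e1 : N.act g (N.A i (sg (σ i) * (-R₀ - 1 / 2)) 0)
      = N.A i (sg (σ i) * (-R₀ - 1 / 2) + n) m := by
    rw [N.act_A, gi, gj, zero_add]
  have e2 : N.act g (N.A (i + 1) (sg (σ (i + 1)) * (R₀ + 1 / 2)) 0)
      = N.A (i + 1) (sg (σ (i + 1)) * (R₀ + 1 / 2) + m) n := by
    rw [N.act_A, gj, add_one_add_one, gi, zero_add]
  have d1 : N.D σ (N.A i x m) (N.act g (N.A i (sg (σ i) * (-R₀ - 1 / 2)) 0)) ≤ 0 := by
    rw [e1]
    apply N.D_line
    have : sg (σ i) * (sg (σ i) * (-R₀ - 1 / 2) + n - x)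
        = sg (σ i) * (sg (σ i) * (-R₀ - 1 / 2)) + sg (σ i) * (n - x) := by ring
    rw [this, sg_mul_sg_mul]
    linarith
  have d5 : N.D σ (N.act g (N.A (i + 1) (sg (σ (i + 1)) * (R₀ + 1 / 2)) 0))
      (N.A (i + 1) y n) ≤ 0 := by
    rw [e2]
    apply N.D_line
    have : sg (σ (i + 1)) * (y - (sg (σ (i + 1)) * (R₀ + 1 / 2) + m))
        = sg (σ (i + 1)) * (y - m) - sg (σ (i + 1)) * (sg (σ (i + 1)) * (R₀ + 1 / 2)) := by ring
    rw [this, sg_mul_sg_mul]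
    linarith
  have d2 : N.D σ (N.act g (N.A i (sg (σ i) * (-R₀ - 1 / 2)) 0))
      (N.act g (N.γ (true, i, σ) (-R₀))) ≤ ε / 2 := by
    rw [N.D_act]
    have h := h₁ (-R₀) (by linarith)
    have := N.D_le σ (N.A i (sg (σ i) * (-R₀ - 1 / 2)) 0) (N.γ (true, i, σ) (-R₀))
    rw [dist_comm] at this
    linarith
  have d3 : N.D σ (N.act g (N.γ (true, i, σ) (-R₀))) (N.act g (N.γ (true, i, σ) R₀)) ≤ 0 := by
    rw [N.D_act]
    exact N.D_γ (true, i, σ) (by linarith)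
  have d4 : N.D σ (N.act g (N.γ (true, i, σ) R₀))
      (N.act g (N.A (i + 1) (sg (σ (i + 1)) * (R₀ + 1 / 2)) 0)) ≤ ε / 2 := by
    rw [N.D_act]
    have h := h₂ R₀ hR2
    have := N.D_le σ (N.γ (true, i, σ) R₀) (N.A (i + 1) (sg (σ (i + 1)) * (R₀ + 1 / 2)) 0)
    linarith
  have t1 := N.D_tri σ (N.A i x m) (N.act g (N.A i (sg (σ i) * (-R₀ - 1 / 2)) 0))
    (N.A (i + 1) y n)
  have t2 := N.D_tri σ (N.act g (N.A i (sg (σ i) * (-R₀ - 1 / 2)) 0))
    (N.act g (N.γ (true, i, σ) (-R₀))) (N.A (i + 1) y n)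
  have t3 := N.D_tri σ (N.act g (N.γ (true, i, σ) (-R₀))) (N.act g (N.γ (true, i, σ) R₀))
    (N.A (i + 1) y n)
  have t4 := N.D_tri σ (N.act g (N.γ (true, i, σ) R₀))
    (N.act g (N.A (i + 1) (sg (σ (i + 1)) * (R₀ + 1 / 2)) 0)) (N.A (i + 1) y n)
  linarith

/-- `k` jumps -/
lemma jumps (σ : Sg) (i : Fin 2) (k : ℕ) : ∀ ε : ℝ, 0 < ε → ∃ R, ∀ x y m,
    R ≤ sg (σ i) * (y - x) → N.D σ (N.A i x m) (N.A i y (m + k * σ (i + 1))) ≤ ε := by
  induction k with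
  | zero =>
    intro ε hε
    refine ⟨0, fun x y m h => ?_⟩
    have := N.D_line σ i x y m h
    simp only [Nat.cast_zero, zero_mul, add_zero]
    linarith
  | succ k ih =>
    intro ε hε
    obtain ⟨R₁, h₁⟩ := ih (ε / 2) (by linarith)
    obtain ⟨R₂, h₂⟩ := N.jump σ i (ε / 2) (by linarith)
    refine ⟨R₁ + R₂, fun x y m h => ?_⟩
    have a1 := h₁ x (x + sg (σ i) * R₁) m (by
      have : sg (σ i) * (x + sg (σ i) * R₁ - x) = sg (σ i) * (sg (σ i) * R₁) := by ring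
      rw [this, sg_mul_sg_mul])
    have a2 := h₂ (x + sg (σ i) * R₁) y (m + k * σ (i + 1)) (by
      have : sg (σ i) * (y - (x + sg (σ i) * R₁))
        = sg (σ i) * (y - x) - sg (σ i) * (sg (σ i) * R₁) := by ring
      rw [this, sg_mul_sg_mul]
      linarith)
    have e : (m + ((k + 1 : ℕ) : ℤ) * (σ (i + 1) : ℤ)) = m + k * σ (i + 1) + σ (i + 1) := by
      push_cast; ring
    rw [e]
    have t := N.D_tri σ (N.A i x m) (N.A i (x + sg (σ i) * R₁) (m + k * σ (i + 1)))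
      (N.A i y (m + k * σ (i + 1) + σ (i + 1)))
    linarith

lemma jumps_le (σ : Sg) (i : Fin 2) (K : ℕ) (ε : ℝ) (hε : 0 < ε) : ∃ R, ∀ k ≤ K, ∀ x y m,
    R ≤ sg (σ i) * (y - x) → N.D σ (N.A i x m) (N.A i y (m + k * σ (i + 1))) ≤ ε := by
  choose f hf using fun k => N.jumps σ i k ε hε
  obtain ⟨R, hR⟩ := Finite.exists_le (fun k : Fin (K + 1) => f k)
  refine ⟨R, fun k hk x y m h => hf k x y m (le_trans (hR ⟨k, by omega⟩) h)⟩

/-- any nonnegative lateral displacement -/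
lemma same (σ : Sg) (i : Fin 2) (ε : ℝ) (hε : 0 < ε) : ∃ R, ∀ x y (m m' : ℤ),
    R ≤ sg (σ i) * (y - x) → 0 ≤ sg (σ (i + 1)) * (m' - m) →
    N.D σ (N.A i x m) (N.A i y m') ≤ ε := by
  obtain ⟨R₁, h₁⟩ := N.trans σ i (ε / 2) (by linarith)
  obtain ⟨R₂, h₂⟩ := N.trans σ (i + 1) (ε / 2) (by linarith)
  simp only [add_one_add_one] at h₂
  set K := ⌈R₁ + R₂⌉₊ with hK
  obtain ⟨R₃, h₃⟩ := N.jumps_le σ i K ε hε
  refine ⟨max R₃ (R₁ + R₂ + 1), fun x y m m' hxy hm => ?_⟩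
  have hx1 := le_trans (le_max_left _ _) hxy
  have hx2 := le_trans (le_max_right _ _) hxy
  -- the displacement
  have hz : (0 : ℤ) ≤ (σ (i + 1) : ℤ) * (m' - m) := by
    have : (0 : ℝ) ≤ (((σ (i + 1) : ℤ) * (m' - m) : ℤ) : ℝ) := by
      push_cast
      exact hm
    exact_mod_cast this
  obtain ⟨k, hk⟩ := Int.eq_ofNat_of_zero_le hz
  have hsq : ((σ (i + 1) : ℤ)) * (σ (i + 1) : ℤ) = 1 := by
    rcases Int.units_eq_one_or (σ (i + 1)) with h | h <;> simp [h]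
  have hm' : m' = m + k * σ (i + 1) := by
    have : (σ (i + 1) : ℤ) * ((σ (i + 1) : ℤ) * (m' - m)) = (σ (i + 1) : ℤ) * k := by rw [hk]
    rw [← mul_assoc, hsq, one_mul] at this
    linarith [this, mul_comm (k : ℤ) (σ (i + 1) : ℤ)]
  by_cases hkK : k ≤ K
  · rw [hm']
    exact h₃ k hkK x y m hx1
  · push Not at hkK
    have hkR : R₁ + R₂ ≤ k := by
      have := Nat.le_ceil (R₁ + R₂)
      have h2 : ((K : ℕ) : ℝ) ≤ k := by exact_mod_cast hkK.le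
      linarith
    obtain ⟨n, hn1, hn2⟩ := exists_int_sg (σ i) (sg (σ i) * x + R₁)
    have hkr : sg (σ (i + 1)) * (m' - m) = k := by
      have : (((σ (i + 1) : ℤ) * (m' - m) : ℤ) : ℝ) = ((k : ℤ) : ℝ) := by rw [hk]
      push_cast at this
      exact this
    have b1 := h₁ x (m + sg (σ (i + 1)) * R₁) m n (by rw [mul_sub]; linarith) (by
      have : sg (σ (i + 1)) * (m + sg (σ (i + 1)) * R₁ - m)
        = sg (σ (i + 1)) * (sg (σ (i + 1)) * R₁) := by ring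
      rw [this, sg_mul_sg_mul])
    have b2 := h₂ (m + sg (σ (i + 1)) * R₁) y n m' (by
      have : sg (σ (i + 1)) * (m' - (m + sg (σ (i + 1)) * R₁))
        = sg (σ (i + 1)) * (m' - m) - sg (σ (i + 1)) * (sg (σ (i + 1)) * R₁) := by ring
      rw [this, sg_mul_sg_mul]
      linarith) (by
      have : sg (σ i) * (y - n) = sg (σ i) * (y - x) + sg (σ i) * x - sg (σ i) * n := by ring
      rw [this]
      linarith)
    have t := N.D_tri σ (N.A i x m) (N.A (i + 1) (m + sg (σ (i + 1)) * R₁) n) (N.A i y m')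
    linarith

end Net

end Pool.Agent.W535.MG
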