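import Pool.Agent.W535.MG.Net
import Pool.Agent.W535.MG.Fun
import Pool.Agent.W535.MG.Geo2

/-!
The network of curves in `ℝ² × S^33`.
-/

namespace Pool.Agent.W535.MG

open Filter Topology Set

/-- labels of the coordinates of `ℝ^34`: two poles and two axes for each heteroclinic -/
abbrev Idx := Fin 2 ⊕ (KK × Bool)

lemma card_idx : Fintype.card Idx = 34 := by
  simp [Idx, KK, Sg]

/-- numbering of the labels -/
noncomputable def lab : Idx ≃ Fin 34 := Fintype.equivFinOfCardEq card_idx

/-- basis vectors -/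
noncomputable def eb (x : Idx) : Fin 34 → ℝ := Pi.single (lab x) 1

lemma eb_same (x : Idx) : eb x (lab x) = 1 := by simp [eb]

lemma eb_ne {x y : Idx} (h : y ≠ x) : eb x (lab y) = 0 := by
  simp [eb, h]

/-- type of the second end -/
def l2 (k : KK) : Fin 2 := if k.1 then k.2.1 + 1 else k.2.1

/-- unnormalised sphere component -/
noncomputable def bb (k : KK) (r : ℝ) : Fin 34 → ℝ :=
  kap (-r) • (eb (Sum.inl k.2.1) + Real.exp r • eb (Sum.inr (k, false)))
  + kap r • (eb (Sum.inl (l2 k)) + Real.exp (-r) • eb (Sum.inr (k, true)))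

/-- component in `ℝ²` -/
noncomputable def zz (k : KK) (r : ℝ) : Fin 2 → ℝ := fun l =>
  if l = k.2.1 then (if k.1 then -(sg (k.2.2 l) * EE (-r)) else sg (k.2.2 l) * (r - 1 / 2))
  else sg (k.2.2 l) * (if k.1 then EE r else EE r - EE (-r) - r + 1 / 2)

/-- the heteroclinic curves -/
noncomputable def gam (k : KK) (r : ℝ) : Y 34 := (zz k r, nrm (bb k r))

/-- the lines -/
noncomputable def lin (i : Fin 2) (x : ℝ) (m : ℤ) : Y 34 :=
  (fun l => if l = i then x else m, eb (Sum.inl i))

lemma bb_false (k : KK) (r : ℝ) : bb k r (lab (Sum.inr (k, false))) = kap (-r) * Real.exp r := by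
  simp [bb, eb]

lemma bb_true (k : KK) (r : ℝ) : bb k r (lab (Sum.inr (k, true))) = kap r * Real.exp (-r) := by
  simp [bb, eb]

lemma bb_other {k k' : KK} (h : k' ≠ k) (e : Bool) (r : ℝ) :
    bb k r (lab (Sum.inr (k', e))) = 0 := by
  simp [bb, eb, h]

lemma sum_sq_pos_of {w : Fin 34 → ℝ} {a : Fin 34} (h : w a ≠ 0) : 0 < ∑ b, w b ^ 2 := by
  have h1 : w a ^ 2 ≤ ∑ b, w b ^ 2 :=
    Finset.single_le_sum (f := fun b => w b ^ 2) (fun _ _ => sq_nonneg _) (Finset.mem_univ a)
  have h2 : 0 < w a ^ 2 := by positivity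
  linarith

lemma bb_sq_pos (k : KK) (r : ℝ) : 0 < ∑ b, bb k r b ^ 2 := by
  rcases lt_or_ge r (1 / 16) with h | h
  · apply sum_sq_pos_of (a := lab (Sum.inr (k, false)))
    rw [bb_false]
    exact (mul_pos (kap_pos (by linarith)) (Real.exp_pos r)).ne'
  · apply sum_sq_pos_of (a := lab (Sum.inr (k, true)))
    rw [bb_true]
    exact (mul_pos (kap_pos (by linarith)) (Real.exp_pos _)).ne'

lemma nrm_pos_iff {w : Fin 34 → ℝ} (hw : 0 < ∑ b, w b ^ 2) (a : Fin 34) :
    0 < nrm w a ↔ 0 < w a := by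
  have h1 : 0 < (√(∑ b, w b ^ 2))⁻¹ := inv_pos.2 (Real.sqrt_pos.2 hw)
  simp only [nrm, Pi.smul_apply, smul_eq_mul]
  exact mul_pos_iff_of_pos_left h1

lemma gam_false_pos (k : KK) (r : ℝ) :
    0 < (gam k r).2 (lab (Sum.inr (k, false))) ↔ r < 1 / 16 := by
  simp only [gam]
  rw [nrm_pos_iff (bb_sq_pos k r), bb_false]
  constructor
  · intro h
    by_contra hc
    push Not at hc
    rw [kap_zero (by linarith), zero_mul] at h
    exact lt_irrefl _ h
  · intro h
    exact mul_pos (kap_pos (by linarith)) (Real.exp_pos r)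

lemma gam_true_pos (k : KK) (r : ℝ) :
    0 < (gam k r).2 (lab (Sum.inr (k, true))) ↔ -(1 / 16) < r := by
  simp only [gam]
  rw [nrm_pos_iff (bb_sq_pos k r), bb_true]
  constructor
  · intro h
    by_contra hc
    push Not at hc
    rw [kap_zero hc, zero_mul] at h
    exact lt_irrefl _ h
  · intro h
    exact mul_pos (kap_pos h) (Real.exp_pos _)

lemma gam_other {k k' : KK} (h : k' ≠ k) (e : Bool) (r : ℝ) :
    (gam k r).2 (lab (Sum.inr (k', e))) = 0 := by
  simp only [gam, nrm, Pi.smul_apply, smul_eq_mul, bb_other h, mul_zero]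

/-- end vectors -/
noncomputable def wv (i : Fin 2) (x : KK × Bool) (t : ℝ) : Fin 34 → ℝ :=
  eb (Sum.inl i) + t • eb (Sum.inr x)

lemma bb_left (k : KK) {r : ℝ} (h : r ≤ -(1 / 16)) :
    bb k r = wv k.2.1 (k, false) (Real.exp r) := by
  rw [bb, kap_zero h, kap_one (by linarith), one_smul, zero_smul, add_zero, wv]

lemma bb_right (k : KK) {r : ℝ} (h : 1 / 16 ≤ r) :
    bb k r = wv (l2 k) (k, true) (Real.exp (-r)) := by
  rw [bb, kap_one h, kap_zero (by linarith), one_smul, zero_smul, zero_add, wv]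

lemma wv_inl (i : Fin 2) (x : KK × Bool) (t : ℝ) : wv i x t (lab (Sum.inl i)) = 1 := by
  simp [wv, eb]

lemma wv_inl_ne (i : Fin 2) (x : KK × Bool) (t : ℝ) :
    wv i x t (lab (Sum.inl (i + 1))) = 0 := by
  simp [wv, eb]

lemma wv_inr (i : Fin 2) (x : KK × Bool) (t : ℝ) : wv i x t (lab (Sum.inr x)) = t := by
  simp [wv, eb]

lemma wv_inr_ne (i : Fin 2) {x y : KK × Bool} (h : y ≠ x) (t : ℝ) :
    wv i x t (lab (Sum.inr y)) = 0 := by
  simp [wv, eb, h]

lemma sum_lab (f : Fin 34 → ℝ) : ∑ a, f a = ∑ x : Idx, f (lab x) :=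
  (Equiv.sum_comp lab f).symm

lemma sum_wv (i : Fin 2) (x : KK × Bool) (t : ℝ) (f : Fin 34 → ℝ) :
    ∑ a, f a * wv i x t a ^ 2 = f (lab (Sum.inl i)) + f (lab (Sum.inr x)) * t ^ 2 := by
  rw [sum_lab, Fintype.sum_sum_type]
  congr 1
  · rw [Finset.sum_eq_single i]
    · rw [wv_inl]; ring
    · intro j _ hj
      have : wv i x t (lab (Sum.inl j)) = 0 := by
        simp [wv, eb, hj]
      rw [this]; ring
    · intro h; exact absurd (Finset.mem_univ _) h
  · rw [Finset.sum_eq_single x]
    · rw [wv_inr]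
    · intro y _ hy
      rw [wv_inr_ne i hy]; ring
    · intro h; exact absurd (Finset.mem_univ _) h

lemma wv_sq (i : Fin 2) (x : KK × Bool) (t : ℝ) : ∑ a, wv i x t a ^ 2 = 1 + t ^ 2 := by
  have := sum_wv i x t (fun _ => 1)
  simpa using this

lemma wv_sq_pos (i : Fin 2) (x : KK × Bool) (t : ℝ) : 0 < ∑ a, wv i x t a ^ 2 := by
  rw [wv_sq]; positivity

/-- quotient of coordinates of the normalised end vector -/
lemma nrm_wv_ratio (i : Fin 2) (x : KK × Bool) (t : ℝ) :
    nrm (wv i x t) (lab (Sum.inr x)) = t * nrm (wv i x t) (lab (Sum.inl i)) := by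
  simp only [nrm, Pi.smul_apply, smul_eq_mul, wv_inr, wv_inl]
  ring

lemma nrm_wv_inl_pos (i : Fin 2) (x : KK × Bool) (t : ℝ) :
    0 < nrm (wv i x t) (lab (Sum.inl i)) := by
  rw [nrm_pos_iff (wv_sq_pos i x t), wv_inl]
  exact one_pos

lemma nrm_wv_inl_gt (i : Fin 2) (x : KK × Bool) {t : ℝ} (h0 : 0 ≤ t) (h1 : t ≤ 1) :
    3 / 5 < nrm (wv i x t) (lab (Sum.inl i)) := by
  simp only [nrm, Pi.smul_apply, smul_eq_mul, wv_inl, wv_sq, mul_one]
  rw [lt_inv_comm₀ (by norm_num) (Real.sqrt_pos.2 (by positivity))]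
  rw [Real.sqrt_lt' (by norm_num)]
  nlinarith

lemma nrm_wv_inl_ne (i : Fin 2) (x : KK × Bool) (t : ℝ) :
    nrm (wv i x t) (lab (Sum.inl (i + 1))) = 0 := by
  simp only [nrm, Pi.smul_apply, smul_eq_mul, wv_inl_ne, mul_zero]

lemma zz_mid (k : KK) {r : ℝ} (h1 : -(1 / 4) ≤ r) (h2 : r ≤ 1 / 4) :
    zz k r (k.2.1 + 1) = sg (k.2.2 (k.2.1 + 1)) * (r + 1 / 2) := by
  simp only [zz, add_one_ne, if_false]
  rw [EE_lin h1, EE_lin (show -(1 / 4) ≤ -r by linarith)]
  split_ifs
  · rfl
  · ring

lemma gam_inj {k k' : KK} {r r' : ℝ} {g g' : Fin 2 → ℤ}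
    (h : gam k r + lat g = gam k' r' + lat g') : k = k' ∧ r = r' ∧ g = g' := by
  have h1 : (gam k r).1 + (fun i => (g i : ℝ)) = (gam k' r').1 + (fun i => (g' i : ℝ)) :=
    congrArg Prod.fst h
  have h2 : (gam k r).2 = (gam k' r').2 := by
    have := congrArg Prod.snd h
    simpa [lat] using this
  have hk : k = k' := by
    by_contra hne
    rcases lt_or_ge r (1 / 16) with hr | hr
    · have a1 := (gam_false_pos k r).2 hr
      rw [h2, gam_other hne] at a1
      exact lt_irrefl _ a1
    · have a1 := (gam_true_pos k r).2 (by linarith)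
      rw [h2, gam_other hne] at a1
      exact lt_irrefl _ a1
  subst hk
  have e1 : r < 1 / 16 ↔ r' < 1 / 16 := by
    rw [← gam_false_pos k r, ← gam_false_pos k r', h2]
  have e2 : -(1 / 16) < r ↔ -(1 / 16) < r' := by
    rw [← gam_true_pos k r, ← gam_true_pos k r', h2]
  have hr : r = r' := by
    rcases le_or_gt r (-(1 / 16)) with c1 | c1
    · have c2 : r' ≤ -(1 / 16) := by
        by_contra hc
        push Not at hc
        exact absurd (e2.2 hc) (by linarith)
      simp only [gam] at h2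
      rw [bb_left k c1, bb_left k c2] at h2
      have a1 := nrm_wv_ratio k.2.1 (k, false) (Real.exp r)
      have a2 := nrm_wv_ratio k.2.1 (k, false) (Real.exp r')
      rw [h2] at a1
      rw [a1] at a2
      have a3 := mul_right_cancel₀ (nrm_wv_inl_pos k.2.1 (k, false) (Real.exp r')).ne' a2
      exact Real.exp_injective a3
    · have c1' := e2.1 c1
      rcases lt_or_ge r (1 / 16) with c3 | c3
      · have c3' := e1.1 c3
        have b1 := congrFun h1 (k.2.1 + 1)
        simp only [Pi.add_apply, gam] at b1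
        rw [zz_mid k (by linarith) (by linarith), zz_mid k (by linarith) (by linarith)] at b1
        have b2 : sg (k.2.2 (k.2.1 + 1)) * (r - r')
            = ((g' (k.2.1 + 1) - g (k.2.1 + 1) : ℤ) : ℝ) := by
          push_cast; linarith
        have b3 : |((g' (k.2.1 + 1) - g (k.2.1 + 1) : ℤ) : ℝ)| < 1 := by
          rw [← b2, abs_mul, abs_sg, one_mul, abs_lt]
          constructor <;> linarith
        have b4 : g' (k.2.1 + 1) - g (k.2.1 + 1) = 0 := by
          have : |g' (k.2.1 + 1) - g (k.2.1 + 1)| < 1 := by exact_mod_cast b3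
          exact Int.abs_lt_one_iff.1 this
        rw [b4, Int.cast_zero] at b2
        have b5 : r - r' = 0 := by
          have := congrArg (fun y => sg (k.2.2 (k.2.1 + 1)) * y) b2
          simp only [mul_zero, ← mul_assoc, sg_mul_self, one_mul] at this
          exact this
        linarith
      · have c4 : 1 / 16 ≤ r' := by
          by_contra hc
          push Not at hc
          exact absurd (e1.2 hc) (by linarith)
        simp only [gam] at h2
        rw [bb_right k c3, bb_right k c4] at h2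
        have a1 := nrm_wv_ratio (l2 k) (k, true) (Real.exp (-r))
        have a2 := nrm_wv_ratio (l2 k) (k, true) (Real.exp (-r'))
        rw [h2] at a1
        rw [a1] at a2
        have a3 := mul_right_cancel₀ (nrm_wv_inl_pos (l2 k) (k, true) (Real.exp (-r'))).ne' a2
        have := Real.exp_injective a3
        linarith
  subst hr
  refine ⟨rfl, rfl, ?_⟩
  have h3 := add_left_cancel h1
  funext i
  have := congrFun h3 i
  exact_mod_cast this

lemma gam_ne_lin (k : KK) (r : ℝ) (g : Fin 2 → ℤ) (i : Fin 2) (x : ℝ) (m : ℤ) :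
    gam k r + lat g ≠ lin i x m := by
  intro h
  have h2 : (gam k r).2 = eb (Sum.inl i) := by
    have := congrArg Prod.snd h
    simpa [lat, lin] using this
  rcases lt_or_ge r (1 / 16) with hr | hr
  · have a1 := (gam_false_pos k r).2 hr
    rw [h2, eb_ne (by simp)] at a1
    exact lt_irrefl _ a1
  · have a1 := (gam_true_pos k r).2 (by linarith)
    rw [h2, eb_ne (by simp)] at a1
    exact lt_irrefl _ a1

lemma zz_contDiff (k : KK) : ContDiff ℝ (⊤ : ℕ∞) (zz k) := by
  rw [contDiff_pi]
  intro l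
  have hE := EE_contDiff
  have hE' : ContDiff ℝ (⊤ : ℕ∞) fun r => EE (-r) := EE_contDiff.comp contDiff_neg
  unfold zz
  by_cases h : l = k.2.1
  · simp only [h, if_true]
    cases k.1
    · simp only [Bool.false_eq_true, if_false]
      exact contDiff_const.mul (contDiff_id.sub contDiff_const)
    · simp only [if_true]
      exact (contDiff_const.mul hE').neg
  · simp only [h, if_false]
    cases k.1
    · simp only [Bool.false_eq_true, if_false]
      exact contDiff_const.mul (((hE.sub hE').sub contDiff_id).add contDiff_const)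
    · simp only [if_true]
      exact contDiff_const.mul hE

lemma bb_contDiff (k : KK) : ContDiff ℝ (⊤ : ℕ∞) (bb k) := by
  unfold bb
  have h1 : ContDiff ℝ (⊤ : ℕ∞) fun r : ℝ => kap (-r) := kap_contDiff.comp contDiff_neg
  have h2 : ContDiff ℝ (⊤ : ℕ∞) fun r : ℝ => Real.exp (-r) := Real.contDiff_exp.comp contDiff_neg
  exact (h1.smul (contDiff_const.add (Real.contDiff_exp.smul contDiff_const))).add
    (kap_contDiff.smul (contDiff_const.add (h2.smul contDiff_const)))

lemma gam_contDiff (k : KK) : ContDiff ℝ (⊤ : ℕ∞) (gam k) := by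
  apply ContDiff.prodMk (zz_contDiff k)
  rw [contDiff_iff_contDiffAt]
  intro r
  exact (nrm_contDiffAt (bb_sq_pos k r)).comp r (bb_contDiff k).contDiffAt

lemma gam_mem (k : KK) (r : ℝ) : gam k r ∈ Cover 34 := nrm_mem (bb_sq_pos k r)

lemma lin_mem (i : Fin 2) (x : ℝ) (m : ℤ) : lin i x m ∈ Cover 34 := by
  exact PMet.single_mem (n := 34) (lab (Sum.inl i)) 1 (one_pow 2) _

/-- weights of the linear field at the lines of type `i` -/
noncomputable def lamx (i : Fin 2) : Idx → ℝ
  | Sum.inl _ => 0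
  | Sum.inr (k, false) => if k.2.1 = i then sg (k.2.2 i) else 0
  | Sum.inr (k, true) => if l2 k = i then -sg (k.2.2 i) else 0

/-- the offset of the second end -/
def off (k : KK) : Fin 2 → ℤ := fun l =>
  if k.1 then 0 else (if l = k.2.1 then -(k.2.2 l : ℤ) else (k.2.2 l : ℤ))

/-- half curves -/
structure HC (β : ℝ → Y 34) (i : Fin 2) (τ : Sg) (g : Fin 2 → ℤ) : Prop where
  smooth : ContDiff ℝ (⊤ : ℕ∞) β
  zi : ∀ r ≤ 1 / 4, (β r).1 i = sg (τ i) * (r - 1 / 2) + g i
  zj : ∀ r ≤ 1 / 4, (β r).1 (i + 1) = sg (τ (i + 1)) * EE r + g (i + 1)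
  axis : ∃ x : KK × Bool, lamx i (Sum.inr x) = sg (τ i) ∧
    ∀ r ≤ -(1 / 16), (β r).2 = nrm (wv i x (Real.exp r))

lemma HC_first (k : KK) (g : Fin 2 → ℤ) :
    HC (fun r => gam k r + lat g) k.2.1 k.2.2 g where
  smooth := (gam_contDiff k).add contDiff_const
  zi := by
    intro r hr
    simp only [gam, lat, Prod.fst_add, Pi.add_apply, zz, if_true]
    rw [EE_lin (show -(1 / 4) ≤ -r by linarith)]
    split_ifs
    · ring
    · rfl
  zj := by
    intro r hr
    simp only [gam, lat, Prod.fst_add, Pi.add_apply, zz, add_one_ne, if_false]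
    rw [EE_lin (show -(1 / 4) ≤ -r by linarith)]
    split_ifs
    · rfl
    · ring
  axis := by
    refine ⟨(k, false), by simp [lamx], fun r hr => ?_⟩
    simp only [gam, lat, Prod.snd_add, add_zero]
    rw [bb_left k hr]

lemma HC_second (k : KK) (g : Fin 2 → ℤ) :
    HC (fun r => gam k (-r) + lat g) (l2 k) (-k.2.2) (g + off k) where
  smooth := ((gam_contDiff k).comp contDiff_neg).add contDiff_const
  zi := by
    intro r hr
    obtain ⟨b, i, σ⟩ := k
    cases b with
    | false =>
      simp only [l2, Bool.false_eq_true, if_false, gam, lat, Prod.fst_add, Pi.add_apply, zz,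
        if_true, off, Pi.neg_apply, sg_neg]
      push_cast
      simp only [sg]
      ring
    | true =>
      simp only [l2, if_true, gam, lat, Prod.fst_add, Pi.add_apply, zz, add_one_ne,
        if_false, off, Pi.neg_apply, sg_neg]
      rw [EE_lin (show -(1 / 4) ≤ -r by linarith)]
      push_cast
      simp only [sg]
      ring
  zj := by
    intro r hr
    obtain ⟨b, i, σ⟩ := k
    cases b with
    | false =>
      simp only [l2, Bool.false_eq_true, if_false, gam, lat, Prod.fst_add, Pi.add_apply, zz,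
        add_one_ne, off, Pi.neg_apply, sg_neg]
      rw [EE_lin (show -(1 / 4) ≤ -r by linarith)]
      push_cast
      simp only [sg, neg_neg]
      ring
    | true =>
      simp only [l2, if_true, gam, lat, Prod.fst_add, Pi.add_apply, zz, add_one_add_one,
        off, Pi.neg_apply, sg_neg, neg_neg]
      push_cast
      simp only [sg]
      ring
  axis := by
    refine ⟨(k, true), by simp [lamx, sg_neg], fun r hr => ?_⟩
    simp only [gam, lat, Prod.snd_add, add_zero]
    rw [bb_right k (show 1 / 16 ≤ -r by linarith), neg_neg]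

end Pool.Agent.W535.MG
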