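import Pool.Agent.W535.MG.Calib

/-!
Periodisation.
-/

namespace Pool.Agent.W535.MG

open Filter Topology Set

variable {W : Type*} [NormedAddCommGroup W] [NormedSpace ℝ W]

/-- lattice basis vector -/
def bv (i : Fin 2) : Fin 2 → ℤ := Pi.single i 1

lemma bv_same (i : Fin 2) : bv i i = 1 := by simp [bv]

lemma bv_other (i : Fin 2) : bv i (i + 1) = 0 := by simp [bv]

/-- periodisation in direction `i` -/
noncomputable def per (i : Fin 2) (f : Y 34 → W) (p : Y 34) : W :=
  (1 - Real.smoothTransition (3 * (p.1 i - ⌊p.1 i⌋) - 1)) • f (p + lat (-⌊p.1 i⌋ • bv i))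
  + Real.smoothTransition (3 * (p.1 i - ⌊p.1 i⌋) - 1) • f (p + lat ((-⌊p.1 i⌋ - 1) • bv i))

lemma per_loc (i : Fin 2) (f : Y 34 → W) {p : Y 34} {n : ℤ} (h1 : (n : ℝ) - 1 / 3 ≤ p.1 i)
    (h2 : p.1 i < n + 1) : per i f p =
      (1 - Real.smoothTransition (3 * (p.1 i - n) - 1)) • f (p + lat (-n • bv i))
      + Real.smoothTransition (3 * (p.1 i - n) - 1) • f (p + lat ((-n - 1) • bv i)) := by
  rcases lt_or_ge (p.1 i) n with h | h
  · have hf : ⌊p.1 i⌋ = n - 1 := by
      rw [Int.floor_eq_iff]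
      push_cast
      constructor <;> linarith
    unfold per
    rw [hf, Real.smoothTransition.one_of_one_le (by push_cast; linarith),
      Real.smoothTransition.zero_of_nonpos (by linarith)]
    have e : -(n - 1) - 1 = -n := by ring
    rw [e]
    simp
  · have hf : ⌊p.1 i⌋ = n := by
      rw [Int.floor_eq_iff]
      constructor <;> linarith
    unfold per
    rw [hf]

lemma per_contDiff (i : Fin 2) {f : Y 34 → W} (hf : ContDiff ℝ (⊤ : ℕ∞) f) :
    ContDiff ℝ (⊤ : ℕ∞) (per i f) := by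
  rw [contDiff_iff_contDiffAt]
  intro p₀
  set n := ⌊p₀.1 i⌋ with hn
  have h1 : (n : ℝ) - 1 / 3 < p₀.1 i := by
    have := Int.floor_le (p₀.1 i)
    linarith
  have h2 : p₀.1 i < n + 1 := Int.lt_floor_add_one _
  have e : per i f =ᶠ[𝓝 p₀] fun p =>
      (1 - Real.smoothTransition (3 * (p.1 i - n) - 1)) • f (p + lat (-n • bv i))
      + Real.smoothTransition (3 * (p.1 i - n) - 1) • f (p + lat ((-n - 1) • bv i)) := by
    filter_upwards [((coord1_cont i).tendsto p₀).eventually_const_lt h1,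
      ((coord1_cont i).tendsto p₀).eventually_lt_const h2] with p a1 a2
    exact per_loc i f a1.le a2
  refine ContDiffAt.congr_of_eventuallyEq ?_ e
  apply ContDiff.contDiffAt
  have c1 : ContDiff ℝ (⊤ : ℕ∞) fun p : Y 34 =>
      Real.smoothTransition (3 * (p.1 i - n) - 1) := by
    apply sT_contDiff.comp
    fun_prop
  have c2 : ∀ w : Y 34, ContDiff ℝ (⊤ : ℕ∞) fun p : Y 34 => f (p + w) := fun w =>
    hf.comp (contDiff_id.add contDiff_const)
  exact ((contDiff_const.sub c1).smul (c2 _)).add (c1.smul (c2 _))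

lemma per_periodic (i : Fin 2) (f : Y 34 → W) (n : ℤ) (p : Y 34) :
    per i f (p + lat (n • bv i)) = per i f p := by
  have e1 : (p + lat (n • bv i)).1 i = p.1 i + n := by
    simp [lat, bv]
  have e2 : ∀ m : ℤ, p + lat (n • bv i) + lat (-(⌊p.1 i⌋ + n) • bv i - m • bv i)
      = p + lat (-⌊p.1 i⌋ • bv i - m • bv i) := by
    intro m
    rw [add_assoc, ← lat_add]
    congr 2
    module
  unfold per
  rw [e1, Int.floor_add_intCast]
  push_cast
  have e3 : p.1 i + (n : ℝ) - (⌊p.1 i⌋ + n) = p.1 i - ⌊p.1 i⌋ := by ring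
  rw [e3]
  have e4 := e2 0
  have e5 := e2 1
  simp only [zero_smul, sub_zero] at e4
  have e6 : ∀ m : ℤ, (m - 1) • bv i = m • bv i - (1 : ℤ) • bv i := fun m => by module
  rw [e6, e6, e4, e5]

lemma per_periodic_other (i : Fin 2) {f : Y 34 → W} (n : ℤ)
    (hf : ∀ p, f (p + lat (n • bv (i + 1))) = f p) (p : Y 34) :
    per i f (p + lat (n • bv (i + 1))) = per i f p := by
  have e1 : (p + lat (n • bv (i + 1))).1 i = p.1 i := by
    have : bv (i + 1) i = 0 := by
      have := bv_other (i + 1)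
      rwa [add_one_add_one] at this
    simp [lat, this]
  have e2 : ∀ w : Y 34, f (p + lat (n • bv (i + 1)) + w) = f (p + w) := by
    intro w
    rw [add_right_comm, hf]
  unfold per
  rw [e1, e2, e2]

lemma per_mem (i : Fin 2) {f : Y 34 → W} {t : Y 34 → Set W} (ht : ∀ p, Convex ℝ (t p))
    (hper : ∀ p g, t (p + lat g) = t p) (hf : ∀ p, f p ∈ t p) (p : Y 34) : per i f p ∈ t p := by
  unfold per
  have h1 := hf (p + lat (-⌊p.1 i⌋ • bv i))
  have h2 := hf (p + lat ((-⌊p.1 i⌋ - 1) • bv i))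
  rw [hper] at h1 h2
  have h3 := Real.smoothTransition.nonneg (3 * (p.1 i - ⌊p.1 i⌋) - 1)
  have h4 := Real.smoothTransition.le_one (3 * (p.1 i - ⌊p.1 i⌋) - 1)
  exact ht p h1 h2 (by linarith) h3 (by ring)

lemma exists_periodic {f : Y 34 → W} (hf : ContDiff ℝ (⊤ : ℕ∞) f) {t : Y 34 → Set W}
    (ht : ∀ p, Convex ℝ (t p)) (hper : ∀ p g, t (p + lat g) = t p) (hmem : ∀ p, f p ∈ t p) :
    ∃ F : Y 34 → W, ContDiff ℝ (⊤ : ℕ∞) F ∧ (∀ p, F p ∈ t p) ∧ ∀ p g, F (p + lat g) = F p := by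
  refine ⟨per 0 (per 1 f), per_contDiff 0 (per_contDiff 1 hf),
    per_mem 0 ht hper (per_mem 1 ht hper hmem), ?_⟩
  intro p g
  have e : (lat g : Y 34) = lat (g 0 • bv 0) + lat (g 1 • bv 1) := by
    rw [← lat_add]
    congr 1
    funext i
    fin_cases i <;> simp [bv]
  have h01 : (0 : Fin 2) + 1 = 1 := rfl
  rw [e, ← add_assoc]
  have := per_periodic_other (0 : Fin 2) (f := per 1 f) (g 1) (by
    intro q
    rw [h01]
    exact per_periodic 1 f (g 1) q) (p + lat (g 0 • bv 0))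
  rw [h01] at this
  rw [this]
  exact per_periodic 0 (per 1 f) (g 0) p

end Pool.Agent.W535.MG
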