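import Pool.Agent.W535.MG.Forms

/-!
Existence of the metric.
-/

namespace Pool.Agent.W535.MG

open Filter Topology Set

lemma EE_deriv_zero {r : ℝ} (h : r < -(1 / 2)) : deriv EE r = 0 := by
  have h1 : EE =ᶠ[𝓝 r] fun _ => (0 : ℝ) := by
    filter_upwards [Iio_mem_nhds h] with s hs
    exact EE_zero (le_of_lt hs)
  rw [h1.deriv_eq, deriv_const]

lemma lam_inl (i j : Fin 2) : lam i (lab (Sum.inl j)) = 0 := by
  simp [lam, lamx]

lemma lam_mul_eb_inl (i j : Fin 2) (a : Fin 34) : lam i a * eb (Sum.inl j) a = 0 := by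
  simp only [eb, Pi.single_apply]
  split_ifs with h
  · rw [h, lam_inl, zero_mul]
  · rw [mul_zero]

lemma lam_mul_eb_inr (i : Fin 2) (x : KK × Bool) (a : Fin 34) :
    lam i a * eb (Sum.inr x) a = lamx i (Sum.inr x) * eb (Sum.inr x) a := by
  simp only [eb, Pi.single_apply]
  split_ifs with h
  · rw [h]; simp [lam]
  · rw [mul_zero, mul_zero]

/-- the velocity of an end -/
lemma hasDerivAt_end (i : Fin 2) (x : KK × Bool) (t : ℝ) (ht : t * t = 1)
    (hx : lamx i (Sum.inr x) = t) (r : ℝ) :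
    HasDerivAt (fun r => nrm (wv i x (Real.exp r)))
      (t • VV i (nrm (wv i x (Real.exp r)))) r := by
  rw [hasDerivAt_pi]
  intro a
  set q : ℝ := 1 + Real.exp r ^ 2 with hq
  have hq0 : 0 < q := by positivity
  have hsq : √q * √q = q := Real.mul_self_sqrt hq0.le
  have hs0 : 0 < √q := Real.sqrt_pos.2 hq0
  have d1 : HasDerivAt (fun r : ℝ => 1 + Real.exp r ^ 2)
      (2 * Real.exp r ^ 2) r := by
    have := ((Real.hasDerivAt_exp r).pow 2).const_add (1 : ℝ)
    refine this.congr_deriv ?_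
    simp; ring
  have d2 : HasDerivAt (fun r : ℝ => (√(1 + Real.exp r ^ 2))⁻¹)
      (-(2 * Real.exp r ^ 2 / (2 * √q)) / (√q) ^ 2) r :=
    (d1.sqrt hq0.ne').fun_inv hs0.ne'
  have d3 : HasDerivAt (fun r : ℝ => wv i x (Real.exp r) a)
      (Real.exp r * eb (Sum.inr x) a) r := by
    have : HasDerivAt (fun r : ℝ => eb (Sum.inl i) a + Real.exp r * eb (Sum.inr x) a)
      (Real.exp r * eb (Sum.inr x) a) r :=
      ((Real.hasDerivAt_exp r).mul_const (eb (Sum.inr x) a)).const_add _
    exact this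
  have d4 := d2.mul d3
  have e1 : (fun r => nrm (wv i x (Real.exp r)) a)
      = fun r : ℝ => (√(1 + Real.exp r ^ 2))⁻¹ * wv i x (Real.exp r) a := by
    funext s
    simp only [nrm, wv_sq, Pi.smul_apply, smul_eq_mul]
  rw [e1]
  refine d4.congr_deriv ?_
  -- now the algebra
  have hn : ∀ b, nrm (wv i x (Real.exp r)) b = (√q)⁻¹ * wv i x (Real.exp r) b := by
    intro b
    simp only [nrm, wv_sq, Pi.smul_apply, smul_eq_mul, hq]
  have hlw : lam i a * wv i x (Real.exp r) a = t * (Real.exp r * eb (Sum.inr x) a) := by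
    have : wv i x (Real.exp r) a = eb (Sum.inl i) a + Real.exp r * eb (Sum.inr x) a := rfl
    rw [this, mul_add, lam_mul_eb_inl, zero_add]
    have := lam_mul_eb_inr i x a
    rw [hx] at this
    calc lam i a * (Real.exp r * eb (Sum.inr x) a)
        = Real.exp r * (lam i a * eb (Sum.inr x) a) := by ring
      _ = Real.exp r * (t * eb (Sum.inr x) a) := by rw [this]
      _ = _ := by ring
  have hsum : ∑ b, lam i b * nrm (wv i x (Real.exp r)) b ^ 2 = q⁻¹ * (t * Real.exp r ^ 2) := by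
    have : ∀ b, lam i b * nrm (wv i x (Real.exp r)) b ^ 2
        = q⁻¹ * (lam i b * wv i x (Real.exp r) b ^ 2) := by
      intro b
      rw [hn b, mul_pow, inv_pow, sq (√q), hsq]; ring
    simp only [this]
    rw [← Finset.mul_sum, sum_wv i x (Real.exp r) (lam i), lam_inl, zero_add]
    congr 2
    simp [lam, hx]
  simp only [Pi.smul_apply, smul_eq_mul, VV]
  rw [hsum, hn a]
  have e2 : lam i a * ((√q)⁻¹ * wv i x (Real.exp r) a)
      = (√q)⁻¹ * (t * (Real.exp r * eb (Sum.inr x) a)) := by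
    rw [← hlw]; ring
  rw [e2]
  have e3 : (√q) ^ 2 = q := by rw [sq]; exact hsq
  rw [e3, ← hq]
  have e4 : -(2 * Real.exp r ^ 2 / (2 * √q)) / q = -((√q)⁻¹ * q⁻¹ * Real.exp r ^ 2) := by
    field_simp
  rw [e4]
  linear_combination (-(√q)⁻¹ * (Real.exp r * eb (Sum.inr x) a)
    + q⁻¹ * Real.exp r ^ 2 * ((√q)⁻¹ * wv i x (Real.exp r) a)) * ht

/-- the half curve is an integral curve of the field near the line -/
lemma HC.field {β : ℝ → Y 34} {i : Fin 2} {τ : Sg} {g : Fin 2 → ℤ} (h : HC β i τ g) {r : ℝ}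
    (hr : r < -(1 / 2)) : deriv β r = sg (τ i) • Xl i (β r) := by
  obtain ⟨x, hx1, hx2⟩ := h.axis
  apply Prod.ext
  · funext l
    rcases eq_or_eq_add_one i l with hl | hl
    · rw [hl, h.deriv_i (by linarith)]
      simp [Xl]
    · rw [hl, h.deriv_j (by linarith), EE_deriv_zero hr]
      simp [Xl]
  · have h1 : HasDerivAt β (deriv β r) r := (h.smooth.differentiable (by simp) r).hasDerivAt
    have h2 : HasDerivAt (fun r => (β r).2) (deriv β r).2 r :=
      (ContinuousLinearMap.snd ℝ (Fin 2 → ℝ) (Fin 34 → ℝ)).hasFDerivAt.comp_hasDerivAt r h1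
    have h3 : (fun r => (β r).2) =ᶠ[𝓝 r] fun r => nrm (wv i x (Real.exp r)) := by
      filter_upwards [Iio_mem_nhds hr] with s hs
      have hs' : s < -(1 / 2) := hs
      exact hx2 s (by linarith)
    have h4 := hasDerivAt_end i x (sg (τ i)) (sg_mul_self _) hx1 r
    have h5 := (h2.congr_of_eventuallyEq h3.symm).unique h4
    rw [h5]
    simp only [Xl, Prod.smul_snd]
    rw [hx2 r (by linarith)]

/-- the half curve form satisfies the constraints near the half curve -/
lemma HC.near {β : ℝ → Y 34} {i : Fin 2} {τ : Sg} {g : Fin 2 → ℤ} (h : HC β i τ g) {r₀ : ℝ}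
    (hr : r₀ < 1 / 8) : ∀ᶠ p in 𝓝 (β r₀), ∀ (σ : Sg) (v : Y 34),
      (fderiv ℝ (uu aa σ) p v) ^ 2 ≤ Ghalf β i τ g p v v := by
  filter_upwards [fderiv_near_HC h hr] with p hp σ v
  rw [hp σ v, Ghalf_apply]
  have h1 := alg_ineq (A := v.1 i) (B := v.1 (i + 1)) (SS_deriv_nonneg (p.1 (i + 1)))
    (cc_pos (rh i τ g p)) (sg_mul_self (σ i)) (sg_mul_self (σ (i + 1)))
  have h2 := Res_nonneg (e1 i) (sg (τ i) • deriv β (rh i τ g p)) v
  linarith

lemma Ghalf_pos (β : ℝ → Y 34) (i : Fin 2) (τ : Sg) (g : Fin 2 → ℤ) (p v : Y 34) (hv : v ≠ 0) :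
    0 < Ghalf β i τ g p v v := by
  rw [Ghalf_apply]
  have h1 := pos_of_Res (φ := e1 i) (X := sg (τ i) • deriv β (rh i τ g p)) hv
  simp only [e1_apply] at h1
  have h2 := SS_deriv_nonneg (p.1 (i + 1))
  have h3 := cc_pos (rh i τ g p)
  have h4 : 0 ≤ deriv SS (p.1 (i + 1)) * cc (rh i τ g p) * (v.1 i ^ 2 +
    deriv SS (p.1 (i + 1)) / cc (rh i τ g p) * v.1 (i + 1) ^ 2) := by positivity
  have h5 : 0 ≤ deriv SS (p.1 (i + 1)) / cc (rh i τ g p) * v.1 (i + 1) ^ 2 := by positivity
  linarith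

lemma Ghalf_symm (β : ℝ → Y 34) (i : Fin 2) (τ : Sg) (g : Fin 2 → ℤ) (p v w : Y 34) :
    Ghalf β i τ g p v w = Ghalf β i τ g p w v := by
  simp only [Ghalf, _root_.add_apply, msq_apply, e1_apply]
  rw [Res_symm]
  ring

/-- value on the velocity of the half curve -/
lemma HC.value {β : ℝ → Y 34} {i : Fin 2} {τ : Sg} {g : Fin 2 → ℤ} (h : HC β i τ g) {r : ℝ}
    (hr : r < 1 / 8) : Ghalf β i τ g (β r) (deriv β r) (deriv β r)
      ≤ (fderiv ℝ (uu aa τ) (β r) (deriv β r)) ^ 2 := by
  rw [h.du hr, Ghalf_apply]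
  have hrh : rh i τ g (β r) = r := by
    unfold rh
    rw [h.zi r (by linarith), add_sub_cancel_right, ← mul_assoc, sg_mul_self]
    ring
  rw [hrh, h.SSd (by linarith), h.deriv_i (by linarith), h.deriv_j (by linarith)]
  have hres : Res (e1 i) (sg (τ i) • deriv β r) (deriv β r) (deriv β r) = 0 := by
    apply Res_zero_of
    rw [e1_apply, h.deriv_i (by linarith), smul_smul, sg_mul_self, one_smul]
  rw [hres, add_zero, mul_pow, sq (sg (τ i)), sg_mul_self, sq (sg (τ (i + 1))), sg_mul_self,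
    one_mul] 
  rcases lt_or_ge r (-(3 / 8)) with h1 | h1
  · rw [SS_deriv_EE h1]; simp
  · have h2 := EE_deriv_pos (show -(1 / 2) < r by linarith)
    rw [cc_eq h1]
    apply le_of_eq
    field_simp

lemma Gline_pos (i : Fin 2) (p v : Y 34) (hv : v ≠ 0) : 0 < Gline i p v v := by
  rw [Gline_apply]
  exact pos_of_Res (φ := e1 i) (X := Xl i p) hv

lemma Gline_symm (i : Fin 2) (p v w : Y 34) : Gline i p v w = Gline i p w v := by
  simp only [Gline, _root_.add_apply, sqf_apply]
  rw [Res_symm, mul_comm]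

lemma Xl_lin (i : Fin 2) (x : ℝ) (m : ℤ) : Xl i (lin i x m) = (Pi.single i 1, 0) := by
  apply Prod.ext
  · rfl
  · funext a
    simp only [Xl, VV, lin, Pi.zero_apply]
    rw [lam_mul_eb_inl]
    have : ∑ b, lam i b * eb (Sum.inl i) b ^ 2 = 0 := by
      apply Finset.sum_eq_zero
      intro b _
      rw [sq, ← mul_assoc, lam_mul_eb_inl, zero_mul]
    rw [this]; ring

lemma Gline_far {β : ℝ → Y 34} {i : Fin 2} {τ : Sg} {g : Fin 2 → ℤ} (h : HC β i τ g) {r : ℝ}
    (hr : r < -(1 / 2)) : Gline i (β r) (deriv β r) (deriv β r)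
      ≤ (fderiv ℝ (uu aa τ) (β r) (deriv β r)) ^ 2 := by
  rw [h.du (by linarith), EE_deriv_zero hr, Gline_apply, h.deriv_i (by linarith)]
  have hres : Res (e1 i) (Xl i (β r)) (deriv β r) (deriv β r) = 0 := by
    apply Res_zero_of
    rw [e1_apply, h.deriv_i (by linarith)]
    exact h.field hr
  rw [hres, sq, sg_mul_self]
  norm_num

lemma deriv_gam_add (k : KK) (g : Fin 2 → ℤ) (r : ℝ) :
    deriv (fun r => gam k r + lat g) r = deriv (gam k) r := deriv_add_const (lat g)

lemma deriv_gam_neg_add (k : KK) (g : Fin 2 → ℤ) (r : ℝ) :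
    deriv (fun s => gam k (-s) + lat g) (-r) = - deriv (gam k) r := by
  have h1 : deriv (fun s => gam k (-s) + lat g) (-r) = deriv (fun s => gam k (-s)) (-r) :=
    deriv_add_const (lat g)
  rw [h1, deriv_comp_neg (gam k) (-r)]
  congr 1
  congr 1
  exact neg_neg r

/-- local sections exist -/
lemma local_section (p₀ : Y 34) : ∃ U ∈ 𝓝 p₀, ∃ f : Y 34 → Form 34,
    ContDiff ℝ (⊤ : ℕ∞) f ∧ ∀ p ∈ U, f p ∈ TT p := by
  by_cases hN : p₀ ∈ NN
  · rcases hN with ⟨i, x, m, rfl⟩ | ⟨k, r₀, g, rfl⟩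
    · -- lines
      have h1 := near_lin i x m
      have h2 := fderiv_near_lin i x m
      refine ⟨_, h1.and h2, Gline i, Gline_contDiff i, ?_⟩
      rintro p ⟨⟨a1, a2⟩, a3⟩
      refine ⟨Gline_symm i p, Gline_pos i p, ?_, ?_, ?_⟩
      · intro σ v
        rw [a3 σ v, Gline_apply, mul_pow, sq (sg (σ i)), sg_mul_self, one_mul]
        have := Res_nonneg (e1 i) (Xl i p) v
        linarith
      · intro i' x' m' hp
        obtain ⟨rfl, rfl⟩ := a1 i' x' m' hp
        rw [Gline_apply, hp]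
        have : Res (e1 i') (Xl i' (lin i' x' m')) (Pi.single i' 1, 0) (Pi.single i' 1, 0) = 0 := by
          apply Res_zero_of
          rw [Xl_lin]
          simp
        rw [this]
        simp
      · intro k r g hp
        rcases a2 k r g hp with ⟨b1, b2⟩ | ⟨b1, b2⟩
        · have hβ := HC_first k g
          rw [b2] at hβ
          have := Gline_far hβ (r := r) (by linarith)
          rw [deriv_gam_add, ← hp] at this
          exact this
        · have hβ := HC_second k g
          rw [b2] at hβ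
          have := Gline_far hβ (r := -r) (by linarith)
          have hpt : gam k (- -r) + lat g = p := by
            have e : - -r = r := neg_neg r
            rw [e]; exact hp.symm
          rw [hpt, deriv_gam_neg_add, fderiv_uu_neg] at this
          simp only [map_neg, _root_.neg_apply, neg_neg] at this
          exact this
    · -- curves
      have h0 := eventually_not_lines (gam_not_lines k r₀ g)
      rcases lt_or_ge r₀ (1 / 8) with hr | hr
      · have hβ := HC_first k g
        have h1 := hβ.near hr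
        have h2 := local_unique k r₀ g (1 / 8 - r₀) (by linarith)
        refine ⟨_, (h0.and h1).and h2, Ghalf (fun r => gam k r + lat g) k.2.1 k.2.2 g,
          hβ.Ghalf_contDiff, ?_⟩
        rintro p ⟨⟨a0, a1⟩, a2⟩
        refine ⟨Ghalf_symm _ _ _ _ p, Ghalf_pos _ _ _ _ p, a1, ?_, ?_⟩
        · intro i x m hp
          exact absurd ⟨i, x, m, hp⟩ a0
        · intro k' r g' hp
          obtain ⟨rfl, rfl, hr'⟩ := a2 k' r g' hp
          have hlt : r < 1 / 8 := by
            have := (abs_lt.1 hr').2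
            linarith
          have := hβ.value hlt
          rw [deriv_gam_add, ← hp] at this
          exact this
      · have hβ := HC_second k g
        have h1 := hβ.near (r₀ := -r₀) (by linarith)
        rw [neg_neg] at h1
        have h2 := local_unique k r₀ g (r₀ + 1 / 8) (by linarith)
        refine ⟨_, (h0.and h1).and h2, Ghalf (fun r => gam k (-r) + lat g) (l2 k) (-k.2.2)
          (g + off k), hβ.Ghalf_contDiff, ?_⟩
        rintro p ⟨⟨a0, a1⟩, a2⟩
        refine ⟨Ghalf_symm _ _ _ _ p, Ghalf_pos _ _ _ _ p, a1, ?_, ?_⟩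
        · intro i x m hp
          exact absurd ⟨i, x, m, hp⟩ a0
        · intro k' r g' hp
          obtain ⟨rfl, rfl, hr'⟩ := a2 k' r g' hp
          have hlt : -r < 1 / 8 := by
            have := (abs_lt.1 hr').1
            linarith
          have := hβ.value hlt
          have hpt : gam k' (- -r) + lat g' = p := by
            have e : - -r = r := neg_neg r
            rw [e]; exact hp.symm
          rw [hpt, deriv_gam_neg_add, fderiv_uu_neg] at this
          simp only [map_neg, _root_.neg_apply, neg_neg] at this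
          exact this
  · -- off the network
    have hN' : ∀ᶠ p in 𝓝 p₀, p ∉ NN := isClosed_NN.isOpen_compl.mem_nhds hN
    have hb : ∀ᶠ p in 𝓝 p₀, ∀ σ : Sg, ‖fderiv ℝ (uu aa σ) p‖ < ‖fderiv ℝ (uu aa σ) p₀‖ + 1 := by
      rw [eventually_all]
      intro σ
      have hc : Continuous fun p => ‖fderiv ℝ (uu aa σ) p‖ :=
        ((uu_aa_contDiff σ).continuous_fderiv (by simp)).norm
      exact (hc.tendsto p₀).eventually_lt_const (by linarith)
    obtain ⟨C, hC⟩ := Finite.exists_le (fun σ : Sg => ‖fderiv ℝ (uu aa σ) p₀‖ + 1)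
    refine ⟨_, hN'.and hb, fun _ => BB (max C 1 ^ 2), contDiff_const, ?_⟩
    rintro p ⟨a0, a1⟩
    have hB : ∀ v, (BB (max C 1 ^ 2)) v v = max C 1 ^ 2 * B0 v v := fun v => BB_apply _ _ _
    have hC1 : 0 < max C 1 := lt_max_of_lt_right one_pos
    refine ⟨?_, ?_, ?_, ?_, ?_⟩
    · intro v w
      rw [BB_apply, BB_apply, B0, Res_symm]
    · intro v hv
      rw [hB]
      have h1 := norm_sq_le_B0 v
      have h2 : 0 < ‖v‖ := norm_pos_iff.2 hv
      have h3 : 0 < B0 v v := lt_of_lt_of_le (by positivity) h1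
      positivity
    · intro σ v
      rw [hB]
      have h1 : |fderiv ℝ (uu aa σ) p v| ≤ max C 1 * ‖v‖ := by
        have h2 := (fderiv ℝ (uu aa σ) p).le_opNorm v
        have h3 : ‖fderiv ℝ (uu aa σ) p‖ ≤ max C 1 :=
          (a1 σ).le.trans ((hC σ).trans (le_max_left _ _))
        exact h2.trans (by gcongr)
      calc (fderiv ℝ (uu aa σ) p v) ^ 2 = |fderiv ℝ (uu aa σ) p v| ^ 2 := (sq_abs _).symm
        _ ≤ (max C 1 * ‖v‖) ^ 2 := pow_le_pow_left₀ (abs_nonneg _) h1 2
        _ = max C 1 ^ 2 * ‖v‖ ^ 2 := by ring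
        _ ≤ max C 1 ^ 2 * B0 v v := by
          have := norm_sq_le_B0 v
          gcongr
    · intro i x m hp
      exact absurd (Or.inl ⟨i, x, m, hp⟩) a0
    · intro k r g hp
      exact absurd (Or.inr ⟨k, r, g, hp⟩) a0

end Pool.Agent.W535.MG
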